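import Pool.Agent.Run7.h529.AL.Bl

/-!
The bound for the number of closed words with a given deficit of the area.
-/

set_option autoImplicit false
set_option linter.unusedSimpArgs false
set_option linter.unusedVariables false

namespace Run7.h529.AL

open scoped ENNReal
open Filter Topology
open H982 (ind ind_of ind_not ind_le_one ind_mono ind_and tsum_cover tsum_mul_tsum')

lemma inv_one_sub {t c : ℝ} (h0 : 0 ≤ t) (hc : 0 < c) (h1 : t ≤ 1 - c) :
    (1 - ENNReal.ofReal t)⁻¹ ≤ ENNReal.ofReal (Real.exp (t / c)) := by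
  have h2 : (1 : ℝ≥0∞) - ENNReal.ofReal t = ENNReal.ofReal (1 - t) := by
    rw [ENNReal.ofReal_sub 1 h0, ENNReal.ofReal_one]
  have h3 : 0 < 1 - t := by linarith
  rw [h2, ← ENNReal.ofReal_inv_of_pos h3]
  apply ENNReal.ofReal_le_ofReal
  have h4 : (1 - t)⁻¹ = 1 + t / (1 - t) := by field_simp; ring
  rw [h4]
  have h5 : t / (1 - t) ≤ t / c := by
    apply div_le_div_of_nonneg_left h0 hc (by linarith)
  have h6 := Real.add_one_le_exp (t / c)
  linarith

lemma inv_one_sub_half {t : ℝ} (h0 : 0 ≤ t) (h1 : t ≤ 1 / 2) :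
    (1 - ENNReal.ofReal t)⁻¹ ≤ 2 := by
  have h2 : (1 : ℝ≥0∞) - ENNReal.ofReal t = ENNReal.ofReal (1 - t) := by
    rw [ENNReal.ofReal_sub 1 h0, ENNReal.ofReal_one]
  have h3 : 0 < 1 - t := by linarith
  rw [h2, ← ENNReal.ofReal_inv_of_pos h3]
  have : (2 : ℝ≥0∞) = ENNReal.ofReal 2 := by simp
  rw [this]
  apply ENNReal.ofReal_le_ofReal
  rw [inv_le_comm₀ h3 (by norm_num)]
  linarith

/-- two terms -/
noncomputable def tt (x : ℝ) (b j : ℕ) : ℝ := x ^ (j + 1) + x ^ (b - j)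

lemma tt_le {x : ℝ} (h0 : 0 < x) (h1 : x < 1) {b j : ℕ} (hj : j < b) : tt x b j ≤ x + x ^ b := by
  unfold tt
  obtain ⟨c, hc⟩ : ∃ c, b = j + 1 + c := ⟨b - j - 1, by omega⟩
  have e1 : b - j = c + 1 := by omega
  rw [e1]
  have h2 : x ^ j ≤ 1 := pow_le_one₀ h0.le h1.le
  have h3 : x ^ c ≤ 1 := pow_le_one₀ h0.le h1.le
  have h4 : x ^ b = x * (x ^ j * x ^ c) := by rw [hc]; ring
  rw [h4, pow_succ, pow_succ]
  have h5 : 0 ≤ (1 - x ^ j) * (1 - x ^ c) := mul_nonneg (by linarith) (by linarith)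
  nlinarith

lemma sum_tt {x : ℝ} (h0 : 0 < x) (h1 : x < 1) (b : ℕ) :
    ∑ j ∈ Finset.range b, tt x b j ≤ 2 / (1 - x) := by
  have hg : ∀ n : ℕ, ∑ j ∈ Finset.range n, x ^ (j + 1) ≤ 1 / (1 - x) := by
    intro n
    have h2 : ∑ j ∈ Finset.range n, x ^ j ≤ 1 / (1 - x) := by
      rw [le_div_iff₀ (by linarith), mul_comm, mul_neg_geom_sum]
      have := pow_pos h0 n
      linarith
    calc ∑ j ∈ Finset.range n, x ^ (j + 1) ≤ ∑ j ∈ Finset.range n, x ^ j := by
          apply Finset.sum_le_sum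
          intro j _
          rw [pow_succ]
          nlinarith [pow_pos h0 j]
      _ ≤ _ := h2
  unfold tt
  rw [Finset.sum_add_distrib]
  have h3 : ∑ j ∈ Finset.range b, x ^ (b - j) = ∑ j ∈ Finset.range b, x ^ (j + 1) := by
    rw [← Finset.sum_range_reflect]
    apply Finset.sum_congr rfl
    intro j hj
    rw [Finset.mem_range] at hj
    congr 1
    omega
  rw [h3]
  have := hg b
  have e : 2 / (1 - x) = 1 / (1 - x) + 1 / (1 - x) := by ring
  rw [e]
  linarith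

/-- the product over the slots -/
lemma prod_g {x : ℝ} (h0 : 0 < x) (h1 : x < 1) {b : ℕ} (hb : x ^ b ≤ (1 - x) / 2) :
    ∏ j ∈ Finset.range b, (1 - ENNReal.ofReal (tt x b j))⁻¹ ≤
      ENNReal.ofReal (Real.exp (4 / (1 - x) ^ 2)) := by
  have hc : 0 < (1 - x) / 2 := by linarith
  have htt : ∀ j, 0 ≤ tt x b j := fun j => by unfold tt; positivity
  calc ∏ j ∈ Finset.range b, (1 - ENNReal.ofReal (tt x b j))⁻¹
      ≤ ∏ j ∈ Finset.range b, ENNReal.ofReal (Real.exp (tt x b j / ((1 - x) / 2))) := by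
        apply Finset.prod_le_prod'
        intro j hj
        rw [Finset.mem_range] at hj
        apply inv_one_sub (htt j) hc
        have := tt_le h0 h1 hj
        linarith
    _ = ENNReal.ofReal (Real.exp (∑ j ∈ Finset.range b, tt x b j / ((1 - x) / 2))) := by
        rw [Real.exp_sum, ENNReal.ofReal_prod_of_nonneg (fun _ _ => (Real.exp_pos _).le)]
    _ ≤ _ := by
        apply ENNReal.ofReal_le_ofReal
        apply Real.exp_le_exp.mpr
        rw [← Finset.sum_div]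
        have h2 := sum_tt h0 h1 b
        calc (∑ j ∈ Finset.range b, tt x b j) / ((1 - x) / 2) ≤ (2 / (1 - x)) / ((1 - x) / 2) := by
              gcongr
          _ = 4 / (1 - x) ^ 2 := by
              have : (1 - x) ≠ 0 := by linarith
              field_simp
              ring

lemma g_N {x : ℝ} (h0 : 0 < x) (b j : ℕ) (hj : j < b) :
    g (ENNReal.ofReal x) (b + 1 : ℕ) (1 + St.N.dy * j) = (1 - ENNReal.ofReal (tt x b j))⁻¹ := by
  unfold g tt
  rw [ENNReal.ofReal_add (by positivity) (by positivity), ENNReal.ofReal_pow h0.le,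
    ENNReal.ofReal_pow h0.le]
  have e1 : (1 + St.N.dy * (j : ℤ)).toNat = j + 1 := by simp only [St.dy]; omega
  have e2 : (((b + 1 : ℕ) : ℤ) - (1 + St.N.dy * (j : ℤ))).toNat = b - j := by
    simp only [St.dy]; omega
  rw [e1, e2]

lemma g_S {x : ℝ} (h0 : 0 < x) (b j : ℕ) (hj : j < b) :
    g (ENNReal.ofReal x) (b + 1 : ℕ) ((b : ℕ) + St.S.dy * j) =
      (1 - ENNReal.ofReal (tt x b j))⁻¹ := by
  unfold g tt
  rw [ENNReal.ofReal_add (by positivity) (by positivity), ENNReal.ofReal_pow h0.le,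
    ENNReal.ofReal_pow h0.le]
  have e1 : ((b : ℤ) + St.S.dy * (j : ℤ)).toNat = b - j := by simp only [St.dy]; omega
  have e2 : (((b + 1 : ℕ) : ℤ) - ((b : ℤ) + St.S.dy * (j : ℤ))).toNat = j + 1 := by
    simp only [St.dy]; omega
  rw [e1, e2, add_comm]

/-- the constant -/
noncomputable def K1 (x : ℝ) : ℝ := Real.exp (4 / (1 - x) ^ 2) ^ 2

lemma K1_pos (x : ℝ) : 0 < K1 x := by unfold K1; positivity

lemma can_bound {x : ℝ} (h0 : 0 < x) (h1 : x < 1) {a b : ℕ} (hb : x ^ b ≤ (1 - x) / 2)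
    (ha : 2 * a * x ^ (b + 1) ≤ 1 / 2) :
    ∑' R : List St, ind (Cl a (b + 1) R ∧ Can b R) * ENNReal.ofReal x ^ cst a (b + 1) R ≤
      ENNReal.ofReal (4 * K1 x) := by
  refine (can_sum (ENNReal.ofReal x) a b).trans ?_
  have e1 : (1 - ((2 * a : ℕ) : ℝ≥0∞) * ENNReal.ofReal x ^ (b + 1))⁻¹ ≤ 2 := by
    have : ((2 * a : ℕ) : ℝ≥0∞) * ENNReal.ofReal x ^ (b + 1) =
        ENNReal.ofReal (2 * a * x ^ (b + 1)) := by
      rw [ENNReal.ofReal_mul (by positivity), ENNReal.ofReal_pow h0.le]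
      congr 1
      rw [← ENNReal.ofReal_natCast]
      congr 1
      push_cast; ring
    rw [this]
    exact inv_one_sub_half (by positivity) ha
  have e2 : ∏ j ∈ Finset.range b, g (ENNReal.ofReal x) (b + 1 : ℕ) (1 + St.N.dy * j) ≤
      ENNReal.ofReal (Real.exp (4 / (1 - x) ^ 2)) := by
    rw [Finset.prod_congr rfl (fun j hj => g_N h0 b j (Finset.mem_range.mp hj))]
    exact prod_g h0 h1 hb
  have e3 : ∏ j ∈ Finset.range b, g (ENNReal.ofReal x) (b + 1 : ℕ) ((b : ℕ) + St.S.dy * j) ≤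
      ENNReal.ofReal (Real.exp (4 / (1 - x) ^ 2)) := by
    rw [Finset.prod_congr rfl (fun j hj => g_S h0 b j (Finset.mem_range.mp hj))]
    exact prod_g h0 h1 hb
  calc _ ≤ (2 * 2) * (ENNReal.ofReal (Real.exp (4 / (1 - x) ^ 2)) *
        ENNReal.ofReal (Real.exp (4 / (1 - x) ^ 2))) := by
        gcongr
    _ = _ := by
        unfold K1
        rw [ENNReal.ofReal_mul (by norm_num), ENNReal.ofReal_pow (Real.exp_pos _).le,
          pow_two (ENNReal.ofReal _)]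
        congr 1
        norm_num

/-- one step of the recursion -/
lemma D_step {x : ℝ} (h0 : 0 < x) (h1 : x < 1) {a b m : ℕ} (hm : a + (b + 1) ≤ m)
    (hb : x ^ b ≤ (1 - x) / 2) (ha : 2 * a * x ^ (b + 1) ≤ 1 / 2) :
    D (ENNReal.ofReal x) a (b + 1) ≤ ENNReal.ofReal (12 * m * K1 x) +
      ENNReal.ofReal (8 * m ^ 2 * x ^ (a / 2)) * D (ENNReal.ofReal x) a b := by
  have hx1 : ENNReal.ofReal x ≤ 1 := by
    rw [← ENNReal.ofReal_one]; exact ENNReal.ofReal_le_ofReal h1.le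
  have hm1 : (1 : ℝ) ≤ m := by
    have : 1 ≤ m := by omega
    exact_mod_cast this
  have h2 : D (ENNReal.ofReal x) a (b + 1) ≤
      ∑' w : List St, ind (Cl a (b + 1) w ∧ Srt w) * ENNReal.ofReal x ^ cst a (b + 1) w +
      ∑' w : List St, ind (Cl a (b + 1) w ∧ Red a w) * ENNReal.ofReal x ^ cst a (b + 1) w := by
    rw [← ENNReal.tsum_add]
    unfold D
    apply ENNReal.tsum_le_tsum
    intro w
    by_cases hc : Cl a (b + 1) w
    · rcases srt_or_red hc with h | h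
      · rw [ind_of hc, ind_of (p := Cl a (b + 1) w ∧ Srt w) ⟨hc, h⟩]
        exact le_self_add
      · rw [ind_of hc, ind_of (p := Cl a (b + 1) w ∧ Red a w) ⟨hc, h⟩]
        exact le_add_self
    · rw [ind_not hc, zero_mul]; exact zero_le
  refine h2.trans (add_le_add ?_ ?_)
  · refine (srt_sum _ a b).trans ?_
    calc _ ≤ ((2 * (a + (b + 1)) + 1 : ℕ) : ℝ≥0∞) * ENNReal.ofReal (4 * K1 x) := by
          gcongr
          exact can_bound h0 h1 hb ha
      _ = ENNReal.ofReal (((2 * (a + (b + 1)) + 1 : ℕ) : ℝ) * (4 * K1 x)) := by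
          rw [ENNReal.ofReal_mul (p := ((2 * (a + (b + 1)) + 1 : ℕ) : ℝ)) (by positivity),
            ENNReal.ofReal_natCast]
      _ ≤ _ := by
          apply ENNReal.ofReal_le_ofReal
          have h3 : ((2 * (a + (b + 1)) + 1 : ℕ) : ℝ) ≤ 3 * m := by
            have : 2 * (a + (b + 1)) + 1 ≤ 3 * m := by omega
            exact_mod_cast this
          have := K1_pos x
          nlinarith
  · refine (red_sum hx1 a b).trans ?_
    rw [← mul_assoc]
    gcongr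
    have e1 : ((2 * (a + b) + 1 : ℕ) : ℝ≥0∞) ≤ ENNReal.ofReal (2 * m) := by
      rw [← ENNReal.ofReal_natCast]
      apply ENNReal.ofReal_le_ofReal
      have : 2 * (a + b) + 1 ≤ 2 * m := by omega
      exact_mod_cast this
    calc 2 * ((2 * (a + b) + 1 : ℕ) : ℝ≥0∞) * ((2 * (a + b) + 1 : ℕ) : ℝ≥0∞) *
          ENNReal.ofReal x ^ (a / 2)
        ≤ ENNReal.ofReal 2 * ENNReal.ofReal (2 * m) * ENNReal.ofReal (2 * m) *
          ENNReal.ofReal x ^ (a / 2) := by
          have : (2 : ℝ≥0∞) = ENNReal.ofReal 2 := by simp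
          rw [← this]
          gcongr
      _ = _ := by
          rw [← ENNReal.ofReal_pow h0.le, ← ENNReal.ofReal_mul (by norm_num),
            ← ENNReal.ofReal_mul (by positivity), ← ENNReal.ofReal_mul (by positivity)]
          congr 1
          ring

lemma D_iter {x : ℝ} (h0 : 0 < x) (h1 : x < 1) {a c m : ℕ} (hc : x ^ c ≤ (1 - x) / 2)
    (ha : 2 * a * x ^ (c + 1) ≤ 1 / 2) (hth : 8 * (m : ℝ) ^ 2 * x ^ (a / 2) ≤ 1 / 2) (n : ℕ)
    (hm : a + (c + n) ≤ m) :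
    D (ENNReal.ofReal x) a (c + n) ≤
      ENNReal.ofReal (24 * m * K1 x + (8 * (m : ℝ) ^ 2 * x ^ (a / 2)) ^ n * 16 ^ m) := by
  have hx1 : ENNReal.ofReal x ≤ 1 := by
    rw [← ENNReal.ofReal_one]; exact ENNReal.ofReal_le_ofReal h1.le
  have hK := K1_pos x
  set θ : ℝ := 8 * (m : ℝ) ^ 2 * x ^ (a / 2) with hθ
  have hθ0 : 0 ≤ θ := by positivity
  induction n with
  | zero =>
    refine (D_le hx1 a c).trans ?_
    calc (16 : ℝ≥0∞) ^ (a + c) ≤ 16 ^ m := pow_le_pow_right₀ (by norm_num) (by omega)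
      _ = ENNReal.ofReal (16 ^ m) := by rw [ENNReal.ofReal_pow (by norm_num)]; norm_num
      _ ≤ _ := by
          apply ENNReal.ofReal_le_ofReal
          rw [pow_zero, one_mul]
          have : 0 ≤ 24 * (m : ℝ) * K1 x := by positivity
          linarith
  | succ n ih =>
    have ih' := ih (by omega)
    have hb : x ^ (c + n) ≤ (1 - x) / 2 :=
      (pow_le_pow_of_le_one h0.le h1.le (by omega)).trans hc
    have ha' : 2 * a * x ^ (c + n + 1) ≤ 1 / 2 := by
      refine le_trans ?_ ha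
      exact mul_le_mul_of_nonneg_left (pow_le_pow_of_le_one h0.le h1.le (by omega))
        (by positivity)
    refine (D_step h0 h1 (a := a) (b := c + n) (m := m) (by omega) hb ha').trans ?_
    calc _ ≤ ENNReal.ofReal (12 * m * K1 x) + ENNReal.ofReal θ *
          ENNReal.ofReal (24 * m * K1 x + θ ^ n * 16 ^ m) := by gcongr
      _ = ENNReal.ofReal (12 * m * K1 x + θ * (24 * m * K1 x + θ ^ n * 16 ^ m)) := by
          rw [← ENNReal.ofReal_mul hθ0, ← ENNReal.ofReal_add (by positivity) (by positivity)]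
      _ ≤ _ := by
          apply ENNReal.ofReal_le_ofReal
          have h5 : θ * (24 * m * K1 x) ≤ 1 / 2 * (24 * m * K1 x) :=
            mul_le_mul_of_nonneg_right hth (by positivity)
          have h6 : θ * (θ ^ n * 16 ^ m) = θ ^ (n + 1) * 16 ^ m := by ring
          rw [mul_add, h6]
          linarith

/-- conditions that hold for all large `k` -/
def Big (x : ℝ) (k : ℕ) : Prop :=
  8 * (32 * ((k : ℝ) + 1)) ^ 2 * x ^ k ≤ 1 / 2 ∧ x ^ k ≤ (1 - x) / 2 ∧ x ^ k ≤ (1 / 16) ^ 64 ∧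
    1 ≤ k

lemma big_ev {x : ℝ} (h0 : 0 < x) (h1 : x < 1) : ∃ k0, ∀ k, k0 ≤ k → Big x k := by
  have habs : |x| < 1 := by rw [abs_of_pos h0]; exact h1
  have t0 : Tendsto (fun k : ℕ => x ^ k) atTop (𝓝 0) := tendsto_pow_atTop_nhds_zero_of_lt_one h0.le h1
  have t1 : Tendsto (fun k : ℕ => (k : ℝ) ^ 1 * x ^ k) atTop (𝓝 0) :=
    tendsto_pow_const_mul_const_pow_of_abs_lt_one 1 habs
  have t2 : Tendsto (fun k : ℕ => (k : ℝ) ^ 2 * x ^ k) atTop (𝓝 0) :=
    tendsto_pow_const_mul_const_pow_of_abs_lt_one 2 habs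
  have t3 : Tendsto (fun k : ℕ => 8 * (32 * ((k : ℝ) + 1)) ^ 2 * x ^ k) atTop (𝓝 0) := by
    have : (fun k : ℕ => 8 * (32 * ((k : ℝ) + 1)) ^ 2 * x ^ k) =
        fun k : ℕ => 8192 * ((k : ℝ) ^ 2 * x ^ k) + 16384 * ((k : ℝ) ^ 1 * x ^ k) +
          8192 * x ^ k := by
      ext k; ring
    rw [this]
    have := ((t2.const_mul 8192).add (t1.const_mul 16384)).add (t0.const_mul 8192)
    simpa using this
  have e1 := t3.eventually_le_const (show (0 : ℝ) < 1 / 2 by norm_num)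
  have e2 := t0.eventually_le_const (show (0 : ℝ) < (1 - x) / 2 by linarith)
  have e3 := t0.eventually_le_const (show (0 : ℝ) < (1 / 16) ^ 64 by norm_num)
  obtain ⟨k0, hk⟩ := eventually_atTop.mp ((e1.and e2).and (e3.and (eventually_ge_atTop 1)))
  exact ⟨k0, fun k h => ⟨(hk k h).1.1, (hk k h).1.2, (hk k h).2.1, (hk k h).2.2⟩⟩

lemma pow_big {x : ℝ} (h0 : 0 < x) {k m : ℕ} (hk : Big x k) (hm : m < 32 * (k + 1)) :
    16 ^ m * x ^ (2 * k * k) ≤ 1 := by
  obtain ⟨-, -, h3, h4⟩ := hk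
  have e1 : x ^ (2 * k * k) = (x ^ k) ^ (2 * k) := by rw [← pow_mul]; congr 1; ring
  rw [e1]
  calc (16 : ℝ) ^ m * (x ^ k) ^ (2 * k) ≤ 16 ^ (128 * k) * ((1 / 16) ^ 64) ^ (2 * k) := by
        gcongr
        · norm_num
        · omega
    _ = 16 ^ (128 * k) * (1 / 16) ^ (128 * k) := by rw [← pow_mul]; congr 2; ring
    _ = 1 := by rw [← mul_pow]; norm_num

lemma D_central {x : ℝ} (h0 : 0 < x) (h1 : x < 1) {a b k : ℕ} (hk : Big x k)
    (hk1 : 32 * k ≤ a + b) (hk2 : a + b < 32 * (k + 1)) (ha : a + b ≤ 8 * a)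
    (hb : a + b ≤ 8 * b) :
    D (ENNReal.ofReal x) a b ≤ ENNReal.ofReal (24 * (a + b : ℕ) * K1 x + 1) := by
  obtain ⟨p1, p2, p3, p4⟩ := hk
  set m := a + b with hmdef
  have hmr : (m : ℝ) ≤ 32 * ((k : ℝ) + 1) := by
    have : m ≤ 32 * (k + 1) := by omega
    exact_mod_cast this
  have hm1 : (1 : ℝ) ≤ m := by
    have : 1 ≤ m := by omega
    exact_mod_cast this
  have hxk : 0 < x ^ k := pow_pos h0 k
  have q1 : 8 * (m : ℝ) ^ 2 * x ^ k ≤ 1 / 2 := by
    refine le_trans ?_ p1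
    gcongr
  have hth' : 8 * (m : ℝ) ^ 2 * x ^ (a / 2) ≤ 1 / 2 * x ^ k := by
    have h2 : x ^ (a / 2) ≤ x ^ (k + k) := pow_le_pow_of_le_one h0.le h1.le (by omega)
    calc 8 * (m : ℝ) ^ 2 * x ^ (a / 2) ≤ 8 * (m : ℝ) ^ 2 * x ^ (k + k) := by gcongr
      _ = (8 * (m : ℝ) ^ 2 * x ^ k) * x ^ k := by rw [pow_add]; ring
      _ ≤ _ := by gcongr
  have hxk1 : x ^ k ≤ 1 := pow_le_one₀ h0.le h1.le
  have hth : 8 * (m : ℝ) ^ 2 * x ^ (a / 2) ≤ 1 / 2 := by
    refine hth'.trans ?_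
    linarith
  obtain ⟨c, hc⟩ : ∃ c, c = b / 2 := ⟨_, rfl⟩
  have hck : k ≤ c := by omega
  have hc1 : x ^ c ≤ (1 - x) / 2 := (pow_le_pow_of_le_one h0.le h1.le hck).trans p2
  have ha1 : 2 * a * x ^ (c + 1) ≤ 1 / 2 := by
    have h2 : x ^ (c + 1) ≤ x ^ k := pow_le_pow_of_le_one h0.le h1.le (by omega)
    have h3 : (a : ℝ) ≤ m := by
      have : a ≤ m := by omega
      exact_mod_cast this
    calc 2 * a * x ^ (c + 1) ≤ 2 * m * x ^ k := by gcongr
      _ ≤ 8 * (m : ℝ) ^ 2 * x ^ k := by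
          apply mul_le_mul_of_nonneg_right _ hxk.le
          nlinarith
      _ ≤ _ := q1
  have h4 := D_iter h0 h1 (a := a) (c := c) (m := m) hc1 ha1 hth (b - c) (by omega)
  have e1 : c + (b - c) = b := by omega
  rw [e1] at h4
  refine h4.trans (ENNReal.ofReal_le_ofReal ?_)
  have h5 : (8 * (m : ℝ) ^ 2 * x ^ (a / 2)) ^ (b - c) * 16 ^ m ≤ 1 := by
    have h6 : (8 * (m : ℝ) ^ 2 * x ^ (a / 2)) ^ (b - c) ≤ x ^ (2 * k * k) := by
      calc (8 * (m : ℝ) ^ 2 * x ^ (a / 2)) ^ (b - c) ≤ (x ^ k) ^ (b - c) := by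
            gcongr
            linarith
        _ ≤ (x ^ k) ^ (2 * k) := pow_le_pow_of_le_one hxk.le hxk1 (by omega)
        _ = _ := by rw [← pow_mul]; congr 1; ring
    have h7 := pow_big h0 ⟨p1, p2, p3, p4⟩ hk2
    calc _ ≤ x ^ (2 * k * k) * 16 ^ m := by gcongr
      _ ≤ 1 := by rw [mul_comm]; exact h7
  linarith

/-- the sum over all closed words of length `2 m` -/
noncomputable def DD (x : ℝ) (m : ℕ) : ℝ≥0∞ :=
  ∑ a ∈ Finset.range (m + 1), ENNReal.ofReal x ^ (m * m / 4 - a * (m - a)) *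
    D (ENNReal.ofReal x) a (m - a)

lemma quart {a m : ℕ} (h : a ≤ m) : a * (m - a) ≤ m * m / 4 := by
  obtain ⟨b, rfl⟩ := Nat.exists_eq_add_of_le h
  rw [Nat.le_div_iff_mul_le (by norm_num), Nat.add_sub_cancel_left]
  nlinarith [sq_nonneg ((a : ℤ) - b), mul_self_nonneg ((a : ℤ) - b), Nat.zero_le a,
    show (4 * (a * b) : ℤ) ≤ (a + b) * (a + b) by nlinarith [sq_nonneg ((a : ℤ) - b)]]

end Run7.h529.AL
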