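import Pool.Agent.Run7.h529.AL.Sm

/-!
Cyclically sorted words.
-/

set_option autoImplicit false
set_option linter.unusedSimpArgs false

namespace Run7.h529.AL

open scoped ENNReal
open H982 (ind ind_of ind_not ind_le_one ind_mono ind_and tsum_cover tsum_mul_tsum')

/-- `k` blocks of horizontal letters followed by `s` -/
def Blk (s : St) : ℕ → List St → Prop
  | 0, u => u = []
  | k + 1, u => ∃ z u', Hor z ∧ u = z ++ s :: u' ∧ Blk s k u'

lemma hor_of_vp {s t : St} (h : VP s t) {z : List St} (h1 : s ∉ z) (h2 : t ∉ z) : Hor z := by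
  rcases h with ⟨rfl, rfl⟩ | ⟨rfl, rfl⟩
  · exact hor_of h1 h2
  · exact hor_of h2 h1

lemma blk_of {s t : St} (hst : VP s t) : ∀ (k : ℕ) (u : List St), t ∉ u → u.count s = k →
    Blk s (k + 1) (u ++ [s]) := by
  intro k
  induction k with
  | zero =>
    intro u h1 h2
    exact ⟨u, [], hor_of_vp hst (List.count_eq_zero.mp h2) h1, rfl, rfl⟩
  | succ k ih =>
    intro u h1 h2
    have hs : s ∈ u := by rw [← List.count_pos_iff]; omega
    obtain ⟨z, u', rfl, h3⟩ := first_split hs
    simp only [List.mem_append, List.mem_cons, not_or] at h1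
    rw [List.count_append, List.count_cons_self, List.count_eq_zero.mpr h3] at h2
    refine ⟨z, u' ++ [s], hor_of_vp hst h3 h1.1, by simp, ih u' h1.2.2 (by omega)⟩

/-- the cost of a word starting at height `y` -/
def kap (b y : ℤ) (w : List St) : ℤ := b * w.count St.W - A y w

lemma kap_append (b y : ℤ) (u v : List St) :
    kap b y (u ++ v) = kap b y u + kap b (y + Y u) v := by
  unfold kap
  rw [A_append, List.count_append]
  push_cast
  ring

lemma kap_hor {z : List St} (h : Hor z) (b y : ℤ) :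
    kap b y z = y * z.count St.E + (b - y) * z.count St.W := by
  unfold kap
  rw [h.A]; ring

lemma VP.dx {s t : St} (h : VP s t) : s.dx = 0 := by
  rcases h with ⟨rfl, rfl⟩ | ⟨rfl, rfl⟩ <;> rfl

lemma VP.neW {s t : St} (h : VP s t) : s ≠ St.W ∧ s ≠ St.E := by
  rcases h with ⟨rfl, rfl⟩ | ⟨rfl, rfl⟩ <;> simp

lemma kap_cons {s t : St} (h : VP s t) (b y : ℤ) (u : List St) :
    kap b y (s :: u) = kap b (y + s.dy) u := by
  unfold kap
  rw [A_cons, h.dx, List.count_cons_of_ne h.neW.1]
  ring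

lemma blk_Y {s t : St} (hst : VP s t) : ∀ (k : ℕ) (u : List St), Blk s k u → Y u = s.dy * k := by
  intro k
  induction k with
  | zero => intro u hu; rw [show u = [] from hu]; simp
  | succ k ih =>
    rintro u ⟨z, u', h1, rfl, h2⟩
    rw [Y_append, Y_cons, h1.Y, ih u' h2]
    push_cast
    ring

lemma kap_blk {s t : St} (hst : VP s t) {z u' : List St} (h1 : Hor z) (b y : ℤ) :
    kap b y (z ++ s :: u') = (y * z.count St.E + (b - y) * z.count St.W) +
      kap b (y + s.dy) u' := by
  rw [kap_append, h1.Y, add_zero, kap_cons hst, kap_hor h1]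

lemma blk_nonneg {s t : St} (hst : VP s t) (b : ℤ) : ∀ (k : ℕ) (y : ℤ) (u : List St), Blk s k u →
    (∀ j : ℕ, j < k → 0 ≤ y + s.dy * j ∧ y + s.dy * j ≤ b) → 0 ≤ kap b y u := by
  intro k
  induction k with
  | zero => intro y u hu _; rw [show u = [] from hu]; simp [kap]
  | succ k ih =>
    rintro y u ⟨z, u', h1, rfl, h2⟩ hr
    rw [kap_blk hst h1]
    have h0 := hr 0 (by omega)
    simp only [Nat.cast_zero, mul_zero, add_zero] at h0
    have h3 := ih (y + s.dy) u' h2 (fun j hj => by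
      have := hr (j + 1) (by omega)
      push_cast at this
      constructor <;> nlinarith [this.1, this.2])
    have h4 : 0 ≤ y * (z.count St.E : ℤ) := mul_nonneg h0.1 (Int.natCast_nonneg _)
    have h5 : 0 ≤ (b - y) * (z.count St.W : ℤ) :=
      mul_nonneg (by linarith [h0.2]) (Int.natCast_nonneg _)
    linarith

/-- the factor of one slot -/
noncomputable def g (x : ℝ≥0∞) (b y : ℤ) : ℝ≥0∞ := (1 - (x ^ y.toNat + x ^ (b - y).toNat))⁻¹

lemma blk_sum {s t : St} (hst : VP s t) (x : ℝ≥0∞) (b : ℤ) : ∀ (k : ℕ) (y : ℤ),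
    (∀ j : ℕ, j < k → 0 ≤ y + s.dy * j ∧ y + s.dy * j ≤ b) →
    ∑' u : List St, ind (Blk s k u) * x ^ (kap b y u).toNat ≤
      ∏ j ∈ Finset.range k, g x b (y + s.dy * j) := by
  intro k
  induction k with
  | zero =>
    intro y _
    have := tsum_cover (fun u : List St => Blk s 0 u) (fun _ : Unit => True)
      (fun u => x ^ (kap b y u).toNat) (fun _ => 1) (fun _ => []) (by
        intro u hu
        rw [show u = [] from hu]
        exact ⟨(), trivial, rfl, by simp [kap]⟩)
    refine this.trans ?_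
    simp [ind_of]
  | succ k ih =>
    intro y hr
    have h0 := hr 0 (by omega)
    simp only [Nat.cast_zero, mul_zero, add_zero] at h0
    have hr' : ∀ j : ℕ, j < k → 0 ≤ (y + s.dy) + s.dy * j ∧ (y + s.dy) + s.dy * j ≤ b := by
      intro j hj
      have := hr (j + 1) (by omega)
      push_cast at this
      constructor <;> nlinarith [this.1, this.2]
    have h1 := tsum_cover (fun u : List St => Blk s (k + 1) u)
      (fun q : List St × List St => Hor q.1 ∧ Blk s k q.2)
      (fun u => x ^ (kap b y u).toNat)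
      (fun q => x ^ (y.toNat * q.1.count St.E + (b - y).toNat * q.1.count St.W) *
        x ^ (kap b (y + s.dy) q.2).toNat) (fun q => q.1 ++ s :: q.2) (by
        rintro u ⟨z, u', h1, rfl, h2⟩
        refine ⟨(z, u'), ⟨h1, h2⟩, rfl, le_of_eq ?_⟩
        simp only
        rw [kap_blk hst h1, ← pow_add]
        congr 1
        have h3 := blk_nonneg hst b k (y + s.dy) u' h2 hr'
        have e1 : (y.toNat : ℤ) = y := Int.toNat_of_nonneg h0.1
        have e2 : ((b - y).toNat : ℤ) = b - y := Int.toNat_of_nonneg (by linarith [h0.2])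
        have e3 : ((y.toNat * z.count St.E + (b - y).toNat * z.count St.W : ℕ) : ℤ) =
            y * z.count St.E + (b - y) * z.count St.W := by
          push_cast
          rw [e1, e2]
        omega)
    refine h1.trans ?_
    have h2 : ∑' q : List St × List St, ind (Hor q.1 ∧ Blk s k q.2) *
        (x ^ (y.toNat * q.1.count St.E + (b - y).toNat * q.1.count St.W) *
        x ^ (kap b (y + s.dy) q.2).toNat) =
        (∑' z : List St, ind (Hor z) * x ^ (y.toNat * z.count St.E +
          (b - y).toNat * z.count St.W)) *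
        (∑' u : List St, ind (Blk s k u) * x ^ (kap b (y + s.dy) u).toNat) := by
      rw [tsum_mul_tsum']
      congr 1; ext q
      rw [ind_and]; ring
    rw [h2, Finset.prod_range_succ', mul_comm (∏ j ∈ _, _)]
    refine mul_le_mul' ?_ ?_
    · simp only [Nat.cast_zero, mul_zero, add_zero]
      exact gsum x _ _
    · refine (ih (y + s.dy) hr').trans (le_of_eq ?_)
      apply Finset.prod_congr rfl
      intro j _
      congr 1
      push_cast
      ring

/-- the extreme slots -/
lemma ends_sum (y : ℝ≥0∞) (a cE cW : ℕ) :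
    ∑' q : List St × List St, ind ((Hor q.1 ∧ Hor q.2) ∧
      (q.1.count St.E + q.2.count St.E + cE = a ∧ q.1.count St.W + q.2.count St.W + cW = a)) *
      (y ^ q.1.count St.W * y ^ q.2.count St.E) ≤
      (1 - ((2 * a : ℕ) : ℝ≥0∞) * y)⁻¹ * (1 - ((2 * a : ℕ) : ℝ≥0∞) * y)⁻¹ := by
  set M : ℝ≥0∞ := ((2 * a : ℕ) : ℝ≥0∞) with hM
  have h1 := tsum_cover (fun q : List St × List St => (Hor q.1 ∧ Hor q.2) ∧
      (q.1.count St.E + q.2.count St.E + cE = a ∧ q.1.count St.W + q.2.count St.W + cW = a))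
    (fun r : (ℕ × ℕ) × (List St × List St) => (r.1.1 ≤ a ∧ r.1.2 ≤ a) ∧
      (((∀ l ∈ r.2.1, l = St.W ∨ l = St.E) ∧ r.2.1.count St.W = r.1.1 ∧
        r.2.1.count St.E = a - cE - r.1.2) ∧
      ((∀ l ∈ r.2.2, l = St.E ∨ l = St.W) ∧ r.2.2.count St.E = r.1.2 ∧
        r.2.2.count St.W = a - cW - r.1.1)))
    (fun q => y ^ q.1.count St.W * y ^ q.2.count St.E) (fun r => y ^ r.1.1 * y ^ r.1.2)
    (fun r => r.2) (by
      rintro ⟨z, z'⟩ ⟨⟨g1, g2⟩, g3, g4⟩
      simp only at g1 g2 g3 g4
      refine ⟨((z.count St.W, z'.count St.E), (z, z')), ⟨⟨by simp only; omega,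
        by simp only; omega⟩, ⟨fun l hl => (g1 l hl).symm, rfl, by simp only; omega⟩,
        ⟨g2, rfl, by simp only; omega⟩⟩, rfl, le_rfl⟩)
  refine h1.trans ?_
  rw [ENNReal.tsum_prod']
  calc ∑' p : ℕ × ℕ, ∑' r : List St × List St, ind ((p.1 ≤ a ∧ p.2 ≤ a) ∧
        (((∀ l ∈ r.1, l = St.W ∨ l = St.E) ∧ r.1.count St.W = p.1 ∧
        r.1.count St.E = a - cE - p.2) ∧
        ((∀ l ∈ r.2, l = St.E ∨ l = St.W) ∧ r.2.count St.E = p.2 ∧
        r.2.count St.W = a - cW - p.1))) * (y ^ p.1 * y ^ p.2)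
      ≤ ∑' p : ℕ × ℕ, (M * y) ^ p.1 * (M * y) ^ p.2 := by
        apply ENNReal.tsum_le_tsum
        rintro ⟨k, l⟩
        simp only
        by_cases hkl : k ≤ a ∧ l ≤ a
        · have e1 : ∑' r : List St × List St, ind ((k ≤ a ∧ l ≤ a) ∧
              (((∀ l ∈ r.1, l = St.W ∨ l = St.E) ∧ r.1.count St.W = k ∧
              r.1.count St.E = a - cE - l) ∧
              ((∀ l ∈ r.2, l = St.E ∨ l = St.W) ∧ r.2.count St.E = l ∧
              r.2.count St.W = a - cW - k))) * (y ^ k * y ^ l) =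
              ((∑' z : List St, ind ((∀ l ∈ z, l = St.W ∨ l = St.E) ∧ z.count St.W = k ∧
                z.count St.E = a - cE - l) * 1) *
              (∑' z : List St, ind ((∀ l ∈ z, l = St.E ∨ l = St.W) ∧ z.count St.E = l ∧
                z.count St.W = a - cW - k) * 1)) * (y ^ k * y ^ l) := by
            rw [tsum_mul_tsum', ← ENNReal.tsum_mul_right]
            congr 1; ext r
            rw [ind_and (k ≤ a ∧ l ≤ a), ind_of hkl, ind_and]
            ring
          rw [e1]
          calc _ ≤ (M ^ k * M ^ l) * (y ^ k * y ^ l) := by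
                gcongr
                · exact cntb St.W St.E (by simp) k _ (2 * a) (by omega)
                · exact cntb St.E St.W (by simp) l _ (2 * a) (by omega)
            _ = _ := by rw [mul_pow, mul_pow]; ring
        · have e1 : ∀ r : List St × List St, ind ((k ≤ a ∧ l ≤ a) ∧
              (((∀ l ∈ r.1, l = St.W ∨ l = St.E) ∧ r.1.count St.W = k ∧
              r.1.count St.E = a - cE - l) ∧
              ((∀ l ∈ r.2, l = St.E ∨ l = St.W) ∧ r.2.count St.E = l ∧
              r.2.count St.W = a - cW - k))) * (y ^ k * y ^ l) = 0 := by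
            intro r
            rw [ind_not (fun h => hkl h.1), zero_mul]
          simp_rw [e1]
          simp
    _ = _ := by
        rw [← tsum_mul_tsum' (fun k : ℕ => (M * y) ^ k) (fun k : ℕ => (M * y) ^ k),
          ENNReal.tsum_geometric]

/-- canonical form -/
def Can (b : ℕ) (R : List St) : Prop :=
  ∃ z0 U zb V, R = z0 ++ St.N :: (U ++ (zb ++ St.S :: V)) ∧ Hor z0 ∧ Blk St.N b U ∧ Hor zb ∧
    Blk St.S b V

lemma can_sum (x : ℝ≥0∞) (a b : ℕ) :
    ∑' R : List St, ind (Cl a (b + 1) R ∧ Can b R) * x ^ cst a (b + 1) R ≤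
      ((1 - ((2 * a : ℕ) : ℝ≥0∞) * x ^ (b + 1))⁻¹ * (1 - ((2 * a : ℕ) : ℝ≥0∞) * x ^ (b + 1))⁻¹) *
      ((∏ j ∈ Finset.range b, g x (b + 1 : ℕ) (1 + St.N.dy * j)) *
        ∏ j ∈ Finset.range b, g x (b + 1 : ℕ) ((b : ℕ) + St.S.dy * j)) := by
  have hNS : VP St.N St.S := Or.inl ⟨rfl, rfl⟩
  have hSN : VP St.S St.N := Or.inr ⟨rfl, rfl⟩
  have rN : ∀ j : ℕ, j < b → (0 : ℤ) ≤ 1 + St.N.dy * j ∧ 1 + St.N.dy * j ≤ ((b + 1 : ℕ) : ℤ) := by
    intro j hj
    simp only [St.dy]
    push_cast
    omega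
  have rS : ∀ j : ℕ, j < b → (0 : ℤ) ≤ (b : ℤ) + St.S.dy * j ∧
      (b : ℤ) + St.S.dy * j ≤ ((b + 1 : ℕ) : ℤ) := by
    intro j hj
    simp only [St.dy]
    push_cast
    omega
  have h1 := tsum_cover (fun R : List St => Cl a (b + 1) R ∧ Can b R)
    (fun r : (List St × List St) × (List St × List St) => (Blk St.N b r.1.1 ∧ Blk St.S b r.1.2) ∧
      ((Hor r.2.1 ∧ Hor r.2.2) ∧
      (r.2.1.count St.E + r.2.2.count St.E + (r.1.1.count St.E + r.1.2.count St.E) = a ∧
       r.2.1.count St.W + r.2.2.count St.W + (r.1.1.count St.W + r.1.2.count St.W) = a)))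
    (fun R => x ^ cst a (b + 1) R)
    (fun r => (x ^ (kap (b + 1 : ℕ) 1 r.1.1).toNat * x ^ (kap (b + 1 : ℕ) b r.1.2).toNat) *
      ((x ^ (b + 1)) ^ r.2.1.count St.W * (x ^ (b + 1)) ^ r.2.2.count St.E))
    (fun r => r.2.1 ++ St.N :: (r.1.1 ++ (r.2.2 ++ St.S :: r.1.2))) (by
      rintro R ⟨hc, z0, U, zb, V, rfl, g1, g2, g3, g4⟩
      refine ⟨((U, V), (z0, zb)), ⟨⟨g2, g4⟩, ⟨g1, g3⟩, ?_, ?_⟩, rfl, le_of_eq ?_⟩
      · have := hc.1
        simp only [List.count_append, List.count_cons] at this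
        simp at this
        simp only
        omega
      · have := hc.2.1
        simp only [List.count_append, List.count_cons] at this
        simp at this
        simp only
        omega
      · simp only
        rw [← pow_add, ← pow_mul, ← pow_mul, ← pow_add, ← pow_add]
        congr 1
        have e1 := cst_cast hc
        have e2 : (a : ℤ) * ((b + 1 : ℕ) : ℤ) - A 0 (z0 ++ St.N :: (U ++ (zb ++ St.S :: V))) =
            kap (b + 1 : ℕ) 0 (z0 ++ St.N :: (U ++ (zb ++ St.S :: V))) := by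
          unfold kap
          rw [hc.2.1]; ring
        have e3 : kap (b + 1 : ℕ) 0 (z0 ++ St.N :: (U ++ (zb ++ St.S :: V))) =
            ((b + 1 : ℕ) : ℤ) * z0.count St.W + kap (b + 1 : ℕ) 1 U +
            ((b + 1 : ℕ) : ℤ) * zb.count St.E + kap (b + 1 : ℕ) b V := by
          rw [kap_blk hNS g1, kap_append, blk_Y hNS b U g2, kap_blk hSN g3]
          have f1 : (0 : ℤ) + St.N.dy = 1 := rfl
          have f2 : (1 : ℤ) + St.N.dy * b = ((b + 1 : ℕ) : ℤ) := by
            simp only [St.dy]; push_cast; ring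
          have f3 : ((b + 1 : ℕ) : ℤ) + St.S.dy = b := by
            simp only [St.dy]; push_cast; ring
          rw [f1, f2, f3]
          ring
        rw [e2, e3] at e1
        have n1 := blk_nonneg hNS (b + 1 : ℕ) b 1 U g2 rN
        have n2 := blk_nonneg hSN (b + 1 : ℕ) b b V g4 rS
        have e4 : (((b + 1) * z0.count St.W : ℕ) : ℤ) =
          ((b + 1 : ℕ) : ℤ) * z0.count St.W := by push_cast; ring
        have e5 : (((b + 1) * zb.count St.E : ℕ) : ℤ) =
          ((b + 1 : ℕ) : ℤ) * zb.count St.E := by push_cast; ring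
        omega)
  refine h1.trans ?_
  rw [ENNReal.tsum_prod']
  set Mx := (1 - ((2 * a : ℕ) : ℝ≥0∞) * x ^ (b + 1))⁻¹ * (1 - ((2 * a : ℕ) : ℝ≥0∞) * x ^ (b + 1))⁻¹
    with hMx
  calc _ ≤ ∑' p : List St × List St, ind (Blk St.N b p.1 ∧ Blk St.S b p.2) *
        (x ^ (kap (b + 1 : ℕ) 1 p.1).toNat * x ^ (kap (b + 1 : ℕ) b p.2).toNat) * Mx := by
        apply ENNReal.tsum_le_tsum
        rintro ⟨U, V⟩
        simp only
        have h2 := ends_sum (x ^ (b + 1)) a (U.count St.E + V.count St.E)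
          (U.count St.W + V.count St.W)
        calc _ = ind (Blk St.N b U ∧ Blk St.S b V) *
              (x ^ (kap (b + 1 : ℕ) 1 U).toNat * x ^ (kap (b + 1 : ℕ) b V).toNat) *
              ∑' q : List St × List St, ind ((Hor q.1 ∧ Hor q.2) ∧
              (q.1.count St.E + q.2.count St.E + (U.count St.E + V.count St.E) = a ∧
              q.1.count St.W + q.2.count St.W + (U.count St.W + V.count St.W) = a)) *
              ((x ^ (b + 1)) ^ q.1.count St.W * (x ^ (b + 1)) ^ q.2.count St.E) := by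
              rw [← ENNReal.tsum_mul_left]
              congr 1; ext q
              rw [ind_and]
              ring
          _ ≤ _ := by gcongr
    _ = Mx * ((∑' U : List St, ind (Blk St.N b U) * x ^ (kap (b + 1 : ℕ) 1 U).toNat) *
        (∑' V : List St, ind (Blk St.S b V) * x ^ (kap (b + 1 : ℕ) b V).toNat)) := by
        rw [ENNReal.tsum_mul_right, tsum_mul_tsum', mul_comm]
        congr 2; ext q
        rw [ind_and]; ring
    _ ≤ _ := by
        gcongr
        · exact blk_sum hNS x _ b 1 rN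
        · exact blk_sum hSN x _ b b rS

lemma can_of {a b : ℕ} {P Q : List St} (h : Cl a (b + 1) (P ++ St.N :: (Q ++ [St.S])))
    (hP : St.S ∉ P) (hQ : St.N ∉ Q) : Can b (P ++ St.N :: (Q ++ [St.S])) := by
  have cN : P.count St.N = b := by
    have := h.2.2.1
    simp only [List.count_append, List.count_cons] at this
    rw [List.count_eq_zero.mpr hQ] at this
    simp at this
    omega
  have cS : Q.count St.S = b := by
    have := h.2.2.2
    simp only [List.count_append, List.count_cons] at this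
    rw [List.count_eq_zero.mpr hP] at this
    simp at this
    omega
  obtain ⟨z0, U, g1, g2, g3⟩ := blk_of (s := St.N) (t := St.S) (Or.inl ⟨rfl, rfl⟩) b P hP cN
  obtain ⟨zb, V, g4, g5, g6⟩ := blk_of (s := St.S) (t := St.N) (Or.inr ⟨rfl, rfl⟩) b Q hQ cS
  refine ⟨z0, U, zb, V, ?_, g1, g3, g4, g6⟩
  calc P ++ St.N :: (Q ++ [St.S]) = (P ++ [St.N]) ++ (Q ++ [St.S]) := by simp
    _ = _ := by rw [g2, g5]; simp

/-- **sorted words** -/
lemma srt_sum (x : ℝ≥0∞) (a b : ℕ) :
    ∑' w : List St, ind (Cl a (b + 1) w ∧ Srt w) * x ^ cst a (b + 1) w ≤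
      ((2 * (a + (b + 1)) + 1 : ℕ) : ℝ≥0∞) *
      ∑' R : List St, ind (Cl a (b + 1) R ∧ Can b R) * x ^ cst a (b + 1) R := by
  have h1 := tsum_cover (fun w : List St => Cl a (b + 1) w ∧ Srt w)
    (fun q : ℕ × List St => q.1 < 2 * (a + (b + 1)) + 1 ∧ (Cl a (b + 1) q.2 ∧ Can b q.2))
    (fun w => x ^ cst a (b + 1) w) (fun q => x ^ cst a (b + 1) q.2)
    (fun q => q.2.rotate q.1) (by
      rintro w ⟨hc, hs⟩
      obtain ⟨u, v, P, Q, rfl, h2, h3, h4⟩ := srt_can (by omega) hc hs
      have hc' : Cl a (b + 1) (v ++ u) := by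
        obtain ⟨e1, e2, e3, e4⟩ := hc
        simp only [List.count_append] at e1 e2 e3 e4
        refine ⟨?_, ?_, ?_, ?_⟩ <;> simp only [List.count_append] <;> omega
      have hlen := hc.length
      rw [List.length_append] at hlen
      refine ⟨(v.length, v ++ u), ⟨by simp only; omega, hc', ?_⟩, ?_, le_of_eq ?_⟩
      · simp only
        rw [h2] at hc' ⊢
        exact can_of hc' h3 h4
      · simp only
        exact List.rotate_append_length_eq v u
      · simp only
        congr 1
        unfold cst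
        rw [A_rotate hc.X hc.Y])
  refine h1.trans (le_of_eq ?_)
  rw [ENNReal.tsum_prod']
  rw [← tsum_lt]
  congr 1; ext i
  rw [← ENNReal.tsum_mul_left]
  congr 1; ext R
  rw [ind_and]
  ring

end Run7.h529.AL
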