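import Pool.Agent.Run7.h529.AL.Sap

/-!
Canonical words: all `N` before all `S`, starting with `N`.
-/

set_option autoImplicit false
set_option linter.unusedSimpArgs false
set_option linter.unusedVariables false

namespace Run7.h529.AL

open Finset

/-! ### the upper part and the lower part -/

/-- steps up with a block of horizontal letters at each height -/
def up (c : ℕ → St) (R : ℕ → ℕ) : ℕ → List St
  | 0 => []
  | n + 1 => up c R n ++ St.N :: List.replicate (R (n + 1)) (c (n + 1))

/-- steps down with a block of horizontal letters at each height -/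
def dn (c : ℕ → St) (L : ℕ → ℕ) : ℕ → List St
  | 0 => []
  | n + 1 => St.S :: (List.replicate (L n) (c n) ++ dn c L n)

/-- horizontal letters -/
def Hz (c : ℕ → St) : Prop := ∀ y, c y = St.E ∨ c y = St.W

lemma Hz.neN {c : ℕ → St} (h : Hz c) (y : ℕ) : c y ≠ St.N := by
  rcases h y with h | h <;> rw [h] <;> simp

lemma Hz.neS {c : ℕ → St} (h : Hz c) (y : ℕ) : c y ≠ St.S := by
  rcases h y with h | h <;> rw [h] <;> simp

lemma up_congr {c : ℕ → St} {R R' : ℕ → ℕ} {n : ℕ} (h : ∀ y, 1 ≤ y → y ≤ n → R y = R' y) :
    up c R n = up c R' n := by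
  induction n with
  | zero => rfl
  | succ n ih =>
    rw [up, up, ih (fun y h1 h2 => h y h1 (by omega)), h (n + 1) (by omega) le_rfl]

lemma dn_congr {c : ℕ → St} {L L' : ℕ → ℕ} {n : ℕ} (h : ∀ y, y < n → L y = L' y) :
    dn c L n = dn c L' n := by
  induction n with
  | zero => rfl
  | succ n ih => rw [dn, dn, ih (fun y h2 => h y (by omega)), h n (by omega)]

lemma up_noS {c : ℕ → St} (hc : Hz c) (R : ℕ → ℕ) (n : ℕ) : St.S ∉ up c R n := by
  induction n with
  | zero => simp [up]
  | succ n ih =>
    simp only [up, List.mem_append, List.mem_cons, List.mem_replicate, not_or, not_and]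
    exact ⟨ih, by simp, fun _ h => hc.neS _ h.symm⟩

lemma dn_noN {c : ℕ → St} (hc : Hz c) (L : ℕ → ℕ) (n : ℕ) : St.N ∉ dn c L n := by
  induction n with
  | zero => simp [dn]
  | succ n ih =>
    simp only [dn, List.mem_append, List.mem_cons, List.mem_replicate, not_or, not_and]
    exact ⟨by simp, fun _ h => hc.neN _ h.symm, ih⟩

lemma Y_hz {s : St} (h : s = St.E ∨ s = St.W) (k : ℕ) : Y (List.replicate k s) = 0 := by
  rw [Y_rep]; rcases h with rfl | rfl <;> simp [St.dy]

lemma Y_up {c : ℕ → St} (hc : Hz c) (R : ℕ → ℕ) (n : ℕ) : Y (up c R n) = n := by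
  induction n with
  | zero => simp [up]
  | succ n ih =>
    rw [up, Y_append, ih, Y_cons, Y_hz (hc _)]
    simp [St.dy]

lemma Y_dn {c : ℕ → St} (hc : Hz c) (L : ℕ → ℕ) (n : ℕ) : Y (dn c L n) = -n := by
  induction n with
  | zero => simp [dn]
  | succ n ih =>
    rw [dn, Y_cons, Y_append, ih, Y_hz (hc _)]
    simp [St.dy]

lemma A_hz {s : St} (h : s = St.E ∨ s = St.W) (y : ℤ) (k : ℕ) :
    A y (List.replicate k s) = -(k * (s.dx * y)) := by
  apply A_rep
  rcases h with rfl | rfl <;> rfl

lemma A_up {c : ℕ → St} (hc : Hz c) (R : ℕ → ℕ) (n : ℕ) :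
    A 0 (up c R n) = - ∑ y ∈ range n, (R (y + 1) : ℤ) * ((c (y + 1)).dx * (y + 1)) := by
  induction n with
  | zero => simp [up]
  | succ n ih =>
    rw [up, A_append, ih, Y_up hc, A_cons, A_hz (hc _), sum_range_succ]
    simp [St.dx, St.dy]
    ring

lemma A_dn {c : ℕ → St} (hc : Hz c) (L : ℕ → ℕ) (n : ℕ) :
    A n (dn c L n) = - ∑ y ∈ range n, (L y : ℤ) * ((c y).dx * y) := by
  induction n with
  | zero => simp [dn]
  | succ n ih =>
    rw [dn, A_cons, A_append, A_hz (hc _), Y_hz (hc _), sum_range_succ]
    have e : ((n + 1 : ℕ) : ℤ) + St.S.dy = n := by simp [St.dy]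
    rw [e, add_zero, ih]
    simp [St.dx]

lemma count_up (c : ℕ → St) (R : ℕ → ℕ) (n : ℕ) (s : St) :
    (up c R n).count s = (if s = St.N then n else 0) +
      ∑ y ∈ range n, (if s = c (y + 1) then R (y + 1) else 0) := by
  induction n with
  | zero => simp [up]
  | succ n ih =>
    rw [up, List.count_append, ih, List.count_cons, List.count_replicate, sum_range_succ]
    by_cases h1 : s = St.N
    · subst h1
      by_cases h2 : St.N = c (n + 1)
      · rw [← h2]; simp; ring
      · have h3 : ¬ (c (n + 1) = St.N) := fun h => h2 h.symm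
        simp [h2, h3]
        ring
    · have h4 : ¬ (St.N = s) := fun h => h1 h.symm
      by_cases h2 : s = c (n + 1)
      · subst h2; simp [h1, h4]
      · have h3 : ¬ (c (n + 1) = s) := fun h => h2 h.symm
        simp [h1, h2, h3, h4]

lemma count_dn (c : ℕ → St) (L : ℕ → ℕ) (n : ℕ) (s : St) :
    (dn c L n).count s = (if s = St.S then n else 0) +
      ∑ y ∈ range n, (if s = c y then L y else 0) := by
  induction n with
  | zero => simp [dn]
  | succ n ih =>
    rw [dn, List.count_cons, List.count_append, ih, List.count_replicate, sum_range_succ]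
    by_cases h1 : s = St.S
    · subst h1
      by_cases h2 : St.S = c n
      · rw [← h2]; simp; ring
      · have h3 : ¬ (c n = St.S) := fun h => h2 h.symm
        simp [h2, h3]
        ring
    · have h4 : ¬ (St.S = s) := fun h => h1 h.symm
      by_cases h2 : s = c n
      · subst h2; simp [h1, h4]; ring
      · have h3 : ¬ (c n = s) := fun h => h2 h.symm
        simp [h1, h2, h3, h4]

/-! ### uniqueness -/

lemma first_uniq {s : St} {u u' h h' : List St} (hu : s ∉ u) (hu' : s ∉ u')
    (he : u ++ s :: h = u' ++ s :: h') : u = u' ∧ h = h' := by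
  induction u generalizing u' with
  | nil =>
    cases u' with
    | nil => simpa using he
    | cons t u' =>
      simp only [List.nil_append, List.cons_append, List.cons.injEq] at he
      exact absurd (by rw [he.1]; simp) hu'
  | cons t u ih =>
    cases u' with
    | nil =>
      simp only [List.nil_append, List.cons_append, List.cons.injEq] at he
      exact absurd (by rw [he.1]; simp) hu
    | cons t' u' =>
      simp only [List.cons_append, List.cons.injEq] at he
      simp only [List.mem_cons, not_or] at hu hu'
      obtain ⟨h1, h2⟩ := ih hu.2 hu'.2 he.2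
      exact ⟨by rw [he.1, h1], h2⟩

lemma last_uniq {s : St} {u u' h h' : List St} (hu : s ∉ h) (hu' : s ∉ h')
    (he : u ++ s :: h = u' ++ s :: h') : u = u' ∧ h = h' := by
  have h1 := congrArg List.reverse he
  simp only [List.reverse_append, List.reverse_cons, List.append_assoc, List.singleton_append] at h1
  have h2 := first_uniq (s := s) (u := h.reverse) (u' := h'.reverse) (h := u.reverse)
    (h' := u'.reverse) (by simpa using hu) (by simpa using hu') (by simpa using h1)
  exact ⟨List.reverse_injective h2.2, List.reverse_injective h2.1⟩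

lemma up_inj {c : ℕ → St} (hc : Hz c) {R R' : ℕ → ℕ} {n : ℕ} (h : up c R n = up c R' n) :
    ∀ y, 1 ≤ y → y ≤ n → R y = R' y := by
  induction n with
  | zero => intro y h1 h2; omega
  | succ n ih =>
    rw [up, up] at h
    obtain ⟨h1, h2⟩ := last_uniq (by simp [List.mem_replicate, (hc.neN _).symm])
      (by simp [List.mem_replicate, (hc.neN _).symm]) h
    intro y hy1 hy2
    rcases Nat.lt_or_ge y (n + 1) with h3 | h3
    · exact ih h1 y hy1 (by omega)
    · have : y = n + 1 := by omega
      subst this
      have := congrArg List.length h2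
      simpa using this

lemma dn_inj {c : ℕ → St} (hc : Hz c) {L L' : ℕ → ℕ} {n : ℕ} (h : dn c L n = dn c L' n) :
    ∀ y, y < n → L y = L' y := by
  induction n with
  | zero => intro y h1; omega
  | succ n ih =>
    rw [dn, dn, List.cons.injEq] at h
    have h0 := h.2
    have key : L n = L' n ∧ dn c L n = dn c L' n := by
      cases n with
      | zero =>
        simp only [dn, List.append_nil] at h0
        have := congrArg List.length h0
        exact ⟨by simpa using this, rfl⟩
      | succ n =>
        rw [dn, dn] at h0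
        obtain ⟨h1, h2⟩ := first_uniq (by simp [List.mem_replicate, (hc.neS _).symm])
          (by simp [List.mem_replicate, (hc.neS _).symm]) h0
        have := congrArg List.length h1
        exact ⟨by simpa using this, by rw [dn, dn, h2]⟩
    intro y hy
    rcases Nat.lt_or_ge y n with h3 | h3
    · exact ih key.2 y h3
    · have : y = n := by omega
      subst this
      exact key.1

lemma word_inj {c : ℕ → St} (hc : Hz c) {R R' L L' : ℕ → ℕ} {n : ℕ} (hn : 1 ≤ n)
    (h : up c R n ++ dn c L n = up c R' n ++ dn c L' n) :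
    (∀ y, 1 ≤ y → y ≤ n → R y = R' y) ∧ ∀ y, y < n → L y = L' y := by
  obtain ⟨k, rfl⟩ : ∃ k, n = k + 1 := ⟨n - 1, by omega⟩
  have h1 := first_uniq (s := St.S) (u := up c R (k + 1)) (u' := up c R' (k + 1))
    (h := List.replicate (L k) (c k) ++ dn c L k) (h' := List.replicate (L' k) (c k) ++ dn c L' k)
    (up_noS hc _ _) (up_noS hc _ _) h
  refine ⟨up_inj hc h1.1, dn_inj hc (n := k + 1) ?_⟩
  rw [dn, dn, h1.2]

/-! ### parsing -/

lemma parse_up {c : ℕ → St} (hc : Hz c) : ∀ (n : ℕ) (u : List St), u.count St.N = n → St.S ∉ u →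
    (u = [] ∨ ∃ u', u = St.N :: u') →
    (∀ u1 s u2, u = u1 ++ s :: u2 → (s = St.E ∨ s = St.W) → s = c (Y u1).toNat) →
    ∃ R, u = up c R n := by
  intro n
  induction n with
  | zero =>
    intro u h1 h2 h3 h4
    refine ⟨fun _ => 0, ?_⟩
    rcases h3 with rfl | ⟨u', rfl⟩
    · rfl
    · simp at h1
  | succ n ih =>
    intro u h1 h2 h3 h4
    have hN : St.N ∈ u := by rw [← List.count_pos_iff]; omega
    obtain ⟨u1, h, rfl, hh⟩ := last_split hN
    simp only [List.mem_append, List.mem_cons, not_or] at h2
    have hcnt : u1.count St.N = n := by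
      simp only [List.count_append, List.count_cons_self, List.count_eq_zero_of_not_mem hh] at h1
      omega
    have hu1 : u1 = [] ∨ ∃ u', u1 = St.N :: u' := by
      cases u1 with
      | nil => exact Or.inl rfl
      | cons s u' =>
        right
        rcases h3 with h3 | ⟨u'', h3⟩
        · simp at h3
        · simp only [List.cons_append, List.cons.injEq] at h3
          exact ⟨u', by rw [h3.1]⟩
    obtain ⟨R, hR⟩ := ih u1 hcnt h2.1 hu1 (fun v1 s v2 hv hs => by
      refine h4 v1 s (v2 ++ St.N :: h) ?_ hs
      rw [hv]; simp)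
    have hY : Y u1 = n := by rw [hR, Y_up hc]
    have hrep : h = List.replicate h.length (c (n + 1)) := by
      rw [List.eq_replicate_iff]
      refine ⟨rfl, fun s hs => ?_⟩
      obtain ⟨h1', h2', h3'⟩ := List.append_of_mem hs
      have hhz : s = St.E ∨ s = St.W := by
        cases s
        · exact Or.inl rfl
        · exact Or.inr rfl
        · exact absurd hs hh
        · exact absurd hs h2.2.2
      have h5 := h4 (u1 ++ St.N :: h1') s h2' (by rw [h3']; simp) hhz
      rw [h5]
      congr 1
      have hY1 : Y h1' = 0 := by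
        rw [Y_eq, List.count_eq_zero_of_not_mem, List.count_eq_zero_of_not_mem]
        · simp
        · intro h6; exact h2.2.2 (by rw [h3']; simp [h6])
        · intro h6; exact hh (by rw [h3']; simp [h6])
      rw [Y_append, Y_cons, hY, hY1]
      simp [St.dy]
    refine ⟨fun y => if y = n + 1 then h.length else R y, ?_⟩
    rw [up]
    have e1 : up c (fun y => if y = n + 1 then h.length else R y) n = up c R n := by
      apply up_congr
      intro y _ hy
      rw [if_neg (by omega)]
    rw [e1, ← hR]
    simp only [if_true]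
    rw [← hrep]

lemma parse_dn {c : ℕ → St} (hc : Hz c) : ∀ (n : ℕ) (u : List St), u.count St.S = n → St.N ∉ u →
    (u = [] ∨ ∃ u', u = St.S :: u') →
    (∀ u1 s u2, u = u1 ++ s :: u2 → (s = St.E ∨ s = St.W) → s = c ((n : ℤ) + Y u1).toNat) →
    ∃ L, u = dn c L n := by
  intro n
  induction n with
  | zero =>
    intro u h1 h2 h3 h4
    refine ⟨fun _ => 0, ?_⟩
    rcases h3 with rfl | ⟨u', rfl⟩
    · rfl
    · simp at h1
  | succ n ih =>
    intro u h1 h2 h3 h4
    rcases h3 with rfl | ⟨u', rfl⟩
    · simp at h1
    simp only [List.mem_cons, not_or] at h2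
    -- the block
    obtain ⟨h, v, hv, hh, hv2⟩ := span_split (fun s => s ≠ St.S) u'
    have hhS : St.S ∉ h := fun h6 => hh _ h6 rfl
    have hv3 : v = [] ∨ ∃ v', v = St.S :: v' := by
      rcases hv2 with rfl | ⟨s, v', rfl, hs⟩
      · exact Or.inl rfl
      · exact Or.inr ⟨v', by rw [show s = St.S from by by_contra h'; exact hs h']⟩
    subst hv
    simp only [List.mem_append, not_or] at h2
    have hcnt : v.count St.S = n := by
      simp only [List.count_cons_self, List.count_append, List.count_eq_zero_of_not_mem hhS] at h1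
      omega
    have hYh : ∀ h1' : List St, (∀ s ∈ h1', s ∈ h) → Y h1' = 0 := by
      intro h1' hsub
      rw [Y_eq, List.count_eq_zero_of_not_mem, List.count_eq_zero_of_not_mem]
      · simp
      · intro h6; exact hhS (hsub _ h6)
      · intro h6; exact h2.2.1 (hsub _ h6)
    obtain ⟨L, hL⟩ := ih v hcnt h2.2.2 hv3 (fun v1 s v2 he hs => by
      have h5 := h4 (St.S :: (h ++ v1)) s v2 (by rw [he]; simp) hs
      rw [h5]
      congr 1
      rw [Y_cons, Y_append, hYh h (fun _ h => h)]
      simp [St.dy])
    have hrep : h = List.replicate h.length (c n) := by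
      rw [List.eq_replicate_iff]
      refine ⟨rfl, fun s hs => ?_⟩
      obtain ⟨h1', h2', h3'⟩ := List.append_of_mem hs
      have hhz : s = St.E ∨ s = St.W := by
        cases s
        · exact Or.inl rfl
        · exact Or.inr rfl
        · exact absurd hs h2.2.1
        · exact absurd hs hhS
      have h5 := h4 (St.S :: h1') s (h2' ++ v) (by rw [h3']; simp) hhz
      rw [h5]
      congr 1
      have hY1 : Y h1' = 0 := hYh h1' (fun s hs' => by rw [h3']; simp [hs'])
      rw [Y_cons, hY1]
      simp [St.dy]
    refine ⟨fun y => if y = n then h.length else L y, ?_⟩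
    rw [dn]
    have e1 : dn c (fun y => if y = n then h.length else L y) n = dn c L n := by
      apply dn_congr
      intro y hy
      rw [if_neg (by omega)]
    rw [e1, ← hL]
    simp only [if_true]
    rw [← hrep]

end Run7.h529.AL
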