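import Pool.Agent.Run7.h529.AL.Cn

/-!
Canonical words with a small deficit are given by four partitions.
-/

set_option autoImplicit false
set_option linter.unusedSimpArgs false
set_option linter.unusedVariables false

namespace Run7.h529.AL

open Finset

/-- canonical words -/
def CanW (w : List St) : Prop := ∃ P Q, w = St.N :: P ++ Q ∧ St.S ∉ P ∧ St.N ∉ Q

/-- the deficit -/
def Cs (b : ℕ) (y : ℤ) (w : List St) : ℤ := b * w.count St.W - A y w

lemma Cs_append (b : ℕ) (y : ℤ) (u v : List St) :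
    Cs b y (u ++ v) = Cs b y u + Cs b (y + Y u) v := by
  unfold Cs
  rw [A_append, List.count_append]
  push_cast
  ring

/-- heights between `0` and `b` -/
def Hb (b : ℕ) (y : ℤ) (w : List St) : Prop := ∀ u v, w = u ++ v → 0 ≤ y + Y u ∧ y + Y u ≤ b

lemma Cs_nonneg {b : ℕ} {y : ℤ} {w : List St} (h : Hb b y w) : 0 ≤ Cs b y w := by
  induction w generalizing y with
  | nil => simp [Cs]
  | cons s w ih =>
    have h1 : Hb b (y + s.dy) w := by
      intro u v huv
      have := h (s :: u) v (by rw [huv]; simp)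
      rw [Y_cons] at this
      rw [add_assoc]
      exact this
    have h2 := ih h1
    have h3 := h [] (s :: w) rfl
    unfold Cs at h2 ⊢
    rw [A_cons, List.count_cons]
    simp only [Y_nil, add_zero] at h3
    cases s <;> simp [St.dx, St.dy] at h2 ⊢ <;> nlinarith

lemma Cs_ge {b : ℕ} {y : ℤ} {u1 u2 : List St} {s : St} (h : Hb b y (u1 ++ s :: u2)) :
    (s = St.E → y + Y u1 ≤ Cs b y (u1 ++ s :: u2)) ∧
    (s = St.W → b - (y + Y u1) ≤ Cs b y (u1 ++ s :: u2)) := by
  have h1 : Hb b y u1 := by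
    intro u v huv
    exact h u (v ++ s :: u2) (by rw [huv]; simp)
  have h2 : Hb b (y + Y u1 + s.dy) u2 := by
    intro u v huv
    have := h (u1 ++ s :: u) v (by rw [huv]; simp)
    rw [Y_append, Y_cons] at this
    have e : y + Y u1 + s.dy + Y u = y + (Y u1 + (s.dy + Y u)) := by ring
    rw [e]
    exact this
  have n1 := Cs_nonneg h1
  have n2 := Cs_nonneg h2
  have e : Cs b y (u1 ++ s :: u2) = Cs b y u1 + Cs b (y + Y u1) [s] +
      Cs b (y + Y u1 + s.dy) u2 := by
    rw [show u1 ++ s :: u2 = u1 ++ ([s] ++ u2) by simp, Cs_append, Cs_append]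
    simp
    ring
  rw [e]
  constructor
  · rintro rfl
    have : Cs b (y + Y u1) [St.E] = y + Y u1 := by simp [Cs, St.dx]
    linarith
  · rintro rfl
    have : Cs b (y + Y u1) [St.W] = b - (y + Y u1) := by simp [Cs, St.dx]
    linarith

/-- the letters of the blocks -/
def cd (d y : ℕ) : St := if y ≤ d then St.E else St.W

lemma cd_hz (d : ℕ) : Hz (cd d) := by
  intro y
  unfold cd
  split_ifs <;> simp

lemma parse {a b d : ℕ} {w : List St} (h : Cl a b w) (hc : CanW w) (hb : 2 * d < b)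
    (hA : (a : ℤ) * b - A 0 w ≤ d) : ∃ R L, w = up (cd d) R b ++ dn (cd d) L b := by
  obtain ⟨P, Q, hw, hP, hQ⟩ := hc
  have hS : St.S ∈ Q := by
    have h1 : 0 < w.count St.S := by rw [h.2.2.2]; omega
    rw [List.count_pos_iff, hw] at h1
    simp only [List.mem_append, List.mem_cons] at h1
    rcases h1 with (h1 | h1) | h1
    · simp at h1
    · exact absurd h1 hP
    · exact h1
  obtain ⟨Q1, v, rfl, hQ1⟩ := first_split hS
  simp only [List.mem_append, List.mem_cons, not_or] at hQ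
  obtain ⟨U, hU⟩ : ∃ U, U = St.N :: P ++ Q1 := ⟨_, rfl⟩
  have hUS : St.S ∉ U := by
    rw [hU]
    simp only [List.cons_append, List.mem_cons, List.mem_append, not_or]
    exact ⟨by simp, hP, hQ1⟩
  obtain ⟨V, hV⟩ : ∃ V, V = St.S :: v := ⟨_, rfl⟩
  have hVN : St.N ∉ V := by
    rw [hV]
    simp only [List.mem_cons, not_or]
    exact ⟨by simp, hQ.2.2⟩
  have hwUV : w = U ++ V := by rw [hw, hU, hV]; simp
  have hUN : U.count St.N = b := by
    have := h.2.2.1
    rw [hwUV, List.count_append, List.count_eq_zero_of_not_mem hVN] at this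
    omega
  have hVS : V.count St.S = b := by
    have := h.2.2.2
    rw [hwUV, List.count_append, List.count_eq_zero_of_not_mem hUS] at this
    omega
  have hYU : Y U = b := by
    rw [Y_eq, hUN, List.count_eq_zero_of_not_mem hUS]; simp
  have hbU : Hb b 0 U := by
    intro u v' huv
    have h1 : u.count St.N ≤ b := by
      rw [← hUN, huv, List.count_append]; omega
    have h2 : u.count St.S = 0 := by
      apply List.count_eq_zero_of_not_mem
      intro h3; exact hUS (by rw [huv]; simp [h3])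
    rw [zero_add, Y_eq, h2]
    constructor <;> push_cast <;> omega
  have hbV : Hb b b V := by
    intro u v' huv
    have h1 : u.count St.S ≤ b := by
      rw [← hVS, huv, List.count_append]; omega
    have h2 : u.count St.N = 0 := by
      apply List.count_eq_zero_of_not_mem
      intro h3; exact hVN (by rw [huv]; simp [h3])
    rw [Y_eq, h2]
    constructor <;> push_cast <;> omega
  have hcost : Cs b 0 U + Cs b b V ≤ d := by
    have e : Cs b 0 w = (a : ℤ) * b - A 0 w := by
      unfold Cs; rw [h.2.1]; ring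
    rw [← e, hwUV, Cs_append, hYU, zero_add] at hA
    exact hA
  have n1 := Cs_nonneg hbU
  have n2 := Cs_nonneg hbV
  obtain ⟨R, hR⟩ := parse_up (cd_hz d) b U hUN hUS (Or.inr ⟨P ++ Q1, by rw [hU]; simp⟩) (by
    intro u1 s u2 hu hs
    have h1 := hbU u1 (s :: u2) hu
    have h2 := Cs_ge (b := b) (y := 0) (u1 := u1) (s := s) (u2 := u2) (by rw [← hu]; exact hbU)
    rw [← hu, zero_add] at h2
    rw [zero_add] at h1
    unfold cd
    rcases hs with rfl | rfl
    · have := h2.1 rfl
      rw [if_pos (by omega)]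
    · have := h2.2 rfl
      rw [if_neg (by omega)])
  obtain ⟨L, hL⟩ := parse_dn (cd_hz d) b V hVS hVN (Or.inr ⟨v, hV⟩) (by
    intro u1 s u2 hu hs
    have h1 := hbV u1 (s :: u2) hu
    have h2 := Cs_ge (b := b) (y := b) (u1 := u1) (s := s) (u2 := u2) (by rw [← hu]; exact hbV)
    rw [← hu] at h2
    unfold cd
    rcases hs with rfl | rfl
    · have := h2.1 rfl
      rw [if_pos (by omega)]
    · have := h2.2 rfl
      rw [if_neg (by omega)])
  exact ⟨R, L, by rw [hwUV, hR, hL]⟩

/-- cost of one letter of the block at height `y` -/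
def kd (d b y : ℕ) : ℤ := if y ≤ d then y else b - y

lemma Cs_word (d b : ℕ) (R L : ℕ → ℕ) : Cs b 0 (up (cd d) R b ++ dn (cd d) L b) =
    ∑ y ∈ range b, (R (y + 1) : ℤ) * kd d b (y + 1) + ∑ y ∈ range b, (L y : ℤ) * kd d b y := by
  rw [Cs_append, Y_up (cd_hz d), zero_add]
  unfold Cs
  rw [A_up (cd_hz d), A_dn (cd_hz d), count_up, count_dn]
  have e1 : (St.W = St.N) = False := by simp
  have e2 : (St.W = St.S) = False := by simp
  simp only [e1, e2, if_false, zero_add]
  push_cast
  rw [sub_neg_eq_add, sub_neg_eq_add, mul_sum, mul_sum, ← sum_add_distrib, ← sum_add_distrib]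
  congr 1
  · apply sum_congr rfl
    intro y _
    unfold cd kd
    by_cases h : y + 1 ≤ d
    · simp [h, St.dx]
    · simp [h, St.dx]; ring
  · apply sum_congr rfl
    intro y _
    unfold cd kd
    by_cases h : y ≤ d
    · simp [h, St.dx]
    · simp [h, St.dx]; ring

lemma split_up (d r : ℕ) (F : ℕ → ℤ) : ∑ y ∈ range (d + 1 + r), F (y + 1) =
    ∑ y ∈ range d, F (y + 1) + ∑ z ∈ range r, F (d + r - z) + F (d + 1 + r) := by
  have e : d + 1 + r = d + r + 1 := by ring
  rw [e, sum_range_succ, sum_range_add]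
  congr 2
  rw [← sum_range_reflect]
  apply sum_congr rfl
  intro z hz
  rw [mem_range] at hz
  congr 1
  omega

lemma split_dn (d r : ℕ) (F : ℕ → ℤ) : ∑ y ∈ range (d + 1 + r), F y =
    F 0 + ∑ y ∈ range d, F (y + 1) + ∑ z ∈ range r, F (d + r - z) := by
  rw [sum_range_add, sum_range_succ']
  rw [add_comm (∑ k ∈ range d, F (k + 1)) (F 0)]
  congr 1
  rw [← sum_range_reflect]
  apply sum_congr rfl
  intro z hz
  rw [mem_range] at hz
  congr 1
  omega

variable {d : ℕ}

/-- extension by zero -/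
def ex0 (f : Fin d → ℕ) (y : ℕ) : ℕ := if h : y < d then f ⟨y, h⟩ else 0

lemma ex0_big (f : Fin d → ℕ) {y : ℕ} (h : d ≤ y) : ex0 f y = 0 := by
  unfold ex0; rw [dif_neg (by omega)]

lemma ex0_sum (f : Fin d → ℕ) (G : ℕ → ℤ) {r : ℕ} (hr : d ≤ r) :
    ∑ z ∈ range r, (ex0 f z : ℤ) * G z = ∑ z : Fin d, (f z : ℤ) * G z := by
  rw [← sum_subset (range_mono hr) (fun z _ hz => by
    rw [mem_range, not_lt] at hz
    rw [ex0_big f hz]; simp), Finset.sum_range]
  apply sum_congr rfl
  intro z _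
  unfold ex0
  rw [dif_pos z.2]

/-- the total number of parts -/
def tot (f : Fin d → ℕ) : ℕ := ∑ z, f z

/-- the sum of the parts -/
def wt (f : Fin d → ℕ) : ℕ := ∑ z : Fin d, ((z : ℕ) + 1) * f z

lemma tot_le_wt (f : Fin d → ℕ) : tot f ≤ wt f := by
  apply sum_le_sum
  intro z _
  nlinarith [Nat.zero_le ((z : ℕ) * f z)]

/-- the blocks on the right -/
def Rf (a b : ℕ) (f : Fin 4 → Fin d → ℕ) (y : ℕ) : ℕ :=
  if y = b then a - (tot (f 1) + tot (f 2)) else if y ≤ d then ex0 (f 0) (y - 1)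
    else ex0 (f 1) (b - 1 - y)

/-- the blocks on the left -/
def Lf (a b : ℕ) (f : Fin 4 → Fin d → ℕ) (y : ℕ) : ℕ :=
  if y = 0 then a - (tot (f 0) + tot (f 3)) else if y ≤ d then ex0 (f 3) (y - 1)
    else ex0 (f 2) (b - 1 - y)

/-- the word of four partitions -/
def wf (a b : ℕ) (f : Fin 4 → Fin d → ℕ) : List St :=
  up (cd d) (Rf a b f) b ++ dn (cd d) (Lf a b f) b

lemma sum_Rf {a b : ℕ} (hb : 2 * d < b) (f : Fin 4 → Fin d → ℕ) (G : ℕ → ℤ) :
    ∑ y ∈ range b, (Rf a b f (y + 1) : ℤ) * G (y + 1) =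
      ∑ z : Fin d, (f 0 z : ℤ) * G (z + 1) + ∑ z : Fin d, (f 1 z : ℤ) * G (b - 1 - z) +
        ((a - (tot (f 1) + tot (f 2)) : ℕ) : ℤ) * G b := by
  obtain ⟨r, rfl⟩ := Nat.exists_eq_add_of_le (show d + 1 ≤ b by omega)
  rw [split_up d r (fun y => (Rf a (d + 1 + r) f y : ℤ) * G y)]
  congr 1
  · congr 1
    · rw [← ex0_sum (f 0) (fun z => G (z + 1)) (le_refl d)]
      apply sum_congr rfl
      intro y hy
      rw [mem_range] at hy
      unfold Rf
      rw [if_neg (by omega), if_pos (by omega), Nat.add_sub_cancel]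
    · rw [← ex0_sum (f 1) (fun z => G (d + 1 + r - 1 - z)) (show d ≤ r by omega)]
      apply sum_congr rfl
      intro z hz
      rw [mem_range] at hz
      unfold Rf
      rw [if_neg (by omega), if_neg (by omega)]
      have e1 : d + 1 + r - 1 - (d + r - z) = z := by omega
      have e2 : d + 1 + r - 1 - z = d + r - z := by omega
      rw [e1, e2]
  · unfold Rf
    rw [if_pos rfl]

lemma sum_Lf {a b : ℕ} (hb : 2 * d < b) (f : Fin 4 → Fin d → ℕ) (G : ℕ → ℤ) :
    ∑ y ∈ range b, (Lf a b f y : ℤ) * G y =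
      ((a - (tot (f 0) + tot (f 3)) : ℕ) : ℤ) * G 0 + ∑ z : Fin d, (f 3 z : ℤ) * G (z + 1) +
        ∑ z : Fin d, (f 2 z : ℤ) * G (b - 1 - z) := by
  obtain ⟨r, rfl⟩ := Nat.exists_eq_add_of_le (show d + 1 ≤ b by omega)
  rw [split_dn d r (fun y => (Lf a (d + 1 + r) f y : ℤ) * G y)]
  congr 1
  · congr 1
    rw [← ex0_sum (f 3) (fun z => G (z + 1)) (le_refl d)]
    apply sum_congr rfl
    intro y hy
    rw [mem_range] at hy
    unfold Lf
    rw [if_neg (by omega), if_pos (by omega), Nat.add_sub_cancel]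
  · rw [← ex0_sum (f 2) (fun z => G (d + 1 + r - 1 - z)) (show d ≤ r by omega)]
    apply sum_congr rfl
    intro z hz
    rw [mem_range] at hz
    unfold Lf
    rw [if_neg (by omega), if_neg (by omega)]
    have e1 : d + 1 + r - 1 - (d + r - z) = z := by omega
    have e2 : d + 1 + r - 1 - z = d + r - z := by omega
    rw [e1, e2]

lemma wf_count {a b : ℕ} (hb : 2 * d < b) (f : Fin 4 → Fin d → ℕ) (s : St) :
    ((wf a b f).count s : ℤ) = (if s = St.N then (b : ℤ) else 0) + (if s = St.S then (b : ℤ) else 0) +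
      (if s = St.E then (tot (f 0) : ℤ) + ((a - (tot (f 0) + tot (f 3)) : ℕ) : ℤ) + tot (f 3)
        else 0) +
      (if s = St.W then (tot (f 1) : ℤ) + ((a - (tot (f 1) + tot (f 2)) : ℕ) : ℤ) + tot (f 2)
        else 0) := by
  unfold wf
  rw [List.count_append, count_up, count_dn]
  push_cast
  have e1 : ∑ y ∈ range b, (if s = cd d (y + 1) then (Rf a b f (y + 1) : ℤ) else 0) =
      ∑ y ∈ range b, (Rf a b f (y + 1) : ℤ) * (fun y => if s = cd d y then (1 : ℤ) else 0) (y + 1) := by
    apply sum_congr rfl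
    intro y _
    dsimp only
    split_ifs <;> simp
  have e2 : ∑ y ∈ range b, (if s = cd d y then (Lf a b f y : ℤ) else 0) =
      ∑ y ∈ range b, (Lf a b f y : ℤ) * (fun y => if s = cd d y then (1 : ℤ) else 0) y := by
    apply sum_congr rfl
    intro y _
    dsimp only
    split_ifs <;> simp
  rw [e1, e2, sum_Rf hb f (fun y => if s = cd d y then (1 : ℤ) else 0),
    sum_Lf hb f (fun y => if s = cd d y then (1 : ℤ) else 0)]
  have c1 : ∀ z : Fin d, cd d (z + 1) = St.E := fun z => by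
    unfold cd; rw [if_pos (by have := z.2; omega)]
  have c2 : ∀ z : Fin d, cd d (b - 1 - z) = St.W := fun z => by
    unfold cd; rw [if_neg (by have := z.2; omega)]
  have c3 : cd d b = St.W := by unfold cd; rw [if_neg (by omega)]
  have c4 : cd d 0 = St.E := by unfold cd; rw [if_pos (by omega)]
  simp only [c1, c2, c3, c4]
  unfold tot
  push_cast
  cases s <;> simp <;> ring

lemma wf_cl {a b : ℕ} (hb : 2 * d < b) (f : Fin 4 → Fin d → ℕ)
    (h1 : tot (f 0) + tot (f 3) ≤ a) (h2 : tot (f 1) + tot (f 2) ≤ a) : Cl a b (wf a b f) := by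
  refine ⟨?_, ?_, ?_, ?_⟩
  · have := wf_count (a := a) hb f St.E
    simp at this
    omega
  · have := wf_count (a := a) hb f St.W
    simp at this
    omega
  · have := wf_count (a := a) hb f St.N
    simp at this
    omega
  · have := wf_count (a := a) hb f St.S
    simp at this
    omega

lemma wf_cost {a b : ℕ} (hb : 2 * d < b) (f : Fin 4 → Fin d → ℕ) :
    Cs b 0 (wf a b f) = wt (f 0) + wt (f 1) + wt (f 2) + wt (f 3) := by
  unfold wf
  rw [Cs_word, sum_Rf hb, sum_Lf hb]
  have c1 : ∀ z : Fin d, kd d b (z + 1) = (z : ℤ) + 1 := fun z => by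
    unfold kd; rw [if_pos (by have := z.2; omega)]; push_cast; ring
  have c2 : ∀ z : Fin d, kd d b (b - 1 - z) = (z : ℤ) + 1 := fun z => by
    unfold kd
    have := z.2
    rw [if_neg (by omega)]
    omega
  have c3 : kd d b b = 0 := by unfold kd; rw [if_neg (by omega)]; ring
  have c4 : kd d b 0 = 0 := by unfold kd; rw [if_pos (by omega)]; simp
  simp only [c1, c2, c3, c4, mul_zero, add_zero, zero_add]
  unfold wt
  push_cast
  have e : ∀ g : Fin d → ℕ, ∑ z, (g z : ℤ) * ((z : ℤ) + 1) = ∑ z : Fin d, ((z : ℤ) + 1) * g z :=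
    fun g => sum_congr rfl fun z _ => mul_comm _ _
  rw [e, e, e, e]
  ring

lemma wf_A {a b : ℕ} (hb : 2 * d < b) (f : Fin 4 → Fin d → ℕ)
    (h1 : tot (f 0) + tot (f 3) ≤ a) (h2 : tot (f 1) + tot (f 2) ≤ a) :
    A 0 (wf a b f) = a * b - (wt (f 0) + wt (f 1) + wt (f 2) + wt (f 3)) := by
  have h3 := wf_cost (a := a) hb f
  unfold Cs at h3
  rw [(wf_cl hb f h1 h2).2.1] at h3
  linarith

lemma up_head (c : ℕ → St) (R : ℕ → ℕ) {n : ℕ} (hn : 1 ≤ n) : ∃ P, up c R n = St.N :: P := by
  induction n with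
  | zero => omega
  | succ n ih =>
    rcases Nat.eq_zero_or_pos n with rfl | h0
    · exact ⟨_, rfl⟩
    · obtain ⟨P, hP⟩ := ih h0
      exact ⟨P ++ St.N :: List.replicate (R (n + 1)) (c (n + 1)), by rw [up, hP]; rfl⟩

lemma wf_can {a b : ℕ} (hb : 1 ≤ b) (f : Fin 4 → Fin d → ℕ) : CanW (wf a b f) := by
  obtain ⟨P, hP⟩ := up_head (cd d) (Rf a b f) hb
  refine ⟨P, dn (cd d) (Lf a b f) b, ?_, ?_, dn_noN (cd_hz d) _ _⟩
  · unfold wf; rw [hP]
  · have := up_noS (cd_hz d) (Rf a b f) b
    rw [hP] at this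
    exact fun h => this (List.mem_cons_of_mem _ h)

lemma wf_inj {a b : ℕ} (hb : 2 * d < b) {f g : Fin 4 → Fin d → ℕ} (h : wf a b f = wf a b g) :
    f = g := by
  obtain ⟨h1, h2⟩ := word_inj (cd_hz d) (by omega) h
  have e0 : ∀ (f : Fin 4 → Fin d → ℕ) (z : Fin d), Rf a b f (z + 1) = f 0 z := by
    intro f z
    have := z.2
    unfold Rf ex0
    rw [if_neg (by omega), if_pos (by omega), dif_pos (by omega)]
    congr 1
  have e1 : ∀ (f : Fin 4 → Fin d → ℕ) (z : Fin d), Rf a b f (b - 1 - z) = f 1 z := by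
    intro f z
    have := z.2
    unfold Rf ex0
    rw [if_neg (by omega), if_neg (by omega), dif_pos (by omega)]
    congr 1
    apply Fin.ext
    simp only
    omega
  have e2 : ∀ (f : Fin 4 → Fin d → ℕ) (z : Fin d), Lf a b f (b - 1 - z) = f 2 z := by
    intro f z
    have := z.2
    unfold Lf ex0
    rw [if_neg (by omega), if_neg (by omega), dif_pos (by omega)]
    congr 1
    apply Fin.ext
    simp only
    omega
  have e3 : ∀ (f : Fin 4 → Fin d → ℕ) (z : Fin d), Lf a b f (z + 1) = f 3 z := by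
    intro f z
    have := z.2
    unfold Lf ex0
    rw [if_neg (by omega), if_pos (by omega), dif_pos (by omega)]
    congr 1
  funext i z
  have hz := z.2
  fin_cases i
  · change f 0 z = g 0 z
    rw [← e0 f z, ← e0 g z]
    exact h1 _ (by omega) (by omega)
  · change f 1 z = g 1 z
    rw [← e1 f z, ← e1 g z]
    exact h1 _ (by omega) (by omega)
  · change f 2 z = g 2 z
    rw [← e2 f z, ← e2 g z]
    exact h2 _ (by omega)
  · change f 3 z = g 3 z
    rw [← e3 f z, ← e3 g z]
    exact h2 _ (by omega)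

end Run7.h529.AL
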