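import Pool.Agent.Run7.h529.AL.Sap

/-!
The area in the fixed perimeter ensemble with `q > 1`.
-/

set_option autoImplicit false
set_option linter.unusedSimpArgs false
set_option linter.unusedVariables false

namespace Run7.h529.AL

open Finset Filter Topology MeasureTheory

/-- number of polygons with half-perimeter `m` and area `n` -/
noncomputable def p (m n : ℕ) : ℕ := {P : Set (Sym2 (ℤ × ℤ)) | P ∈ SAP m ∧ area P = n}.ncard

/-- partition function -/
noncomputable def Z (q : ℝ) (m : ℕ) : ℝ := ∑' n : ℕ, (p m n : ℝ) * q ^ n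

/-- law of the area -/
noncomputable def prob (q : ℝ) (m n : ℕ) : ℝ := (p m n : ℝ) * q ^ n / Z q m

/-- mean area -/
noncomputable def mean (q : ℝ) (m : ℕ) : ℝ := ∑' n : ℕ, prob q m n * n

/-- variance of the area -/
noncomputable def var (q : ℝ) (m : ℕ) : ℝ := ∑' n : ℕ, prob q m n * ((n : ℝ) - mean q m) ^ 2

lemma p_card (m n : ℕ) : p m n = ((sap_finite m).toFinset.filter (fun P => area P = n)).card := by
  classical
  unfold p
  rw [← Set.ncard_coe_finset]
  congr 1
  ext P
  simp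

lemma p_zero {m n : ℕ} (h : m * m / 4 < n) : p m n = 0 := by
  rw [p_card, card_eq_zero, filter_eq_empty_iff]
  intro P hP he
  rw [Set.Finite.mem_toFinset] at hP
  have := sap_area_le hP
  omega

lemma p_max {m : ℕ} (hm : 2 ≤ m) : 1 ≤ p m (m * m / 4) := by
  obtain ⟨P, h1, h2⟩ := exists_max hm
  rw [p_card, Nat.one_le_iff_ne_zero, card_ne_zero]
  exact ⟨P, mem_filter.mpr ⟨(sap_finite m).mem_toFinset.mpr h1, h2⟩⟩

lemma tsum_p {m : ℕ} {f : ℕ → ℝ} (hf : ∀ n, p m n = 0 → f n = 0) :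
    ∑' n, f n = ∑ n ∈ range (m * m / 4 + 1), f n := by
  apply tsum_eq_sum
  intro n hn
  rw [mem_range, not_lt] at hn
  exact hf n (p_zero (by omega))

lemma fiber (m : ℕ) (f : ℕ → ℝ) :
    ∑ n ∈ range (m * m / 4 + 1), (p m n : ℝ) * f n =
      ∑ P ∈ (sap_finite m).toFinset, f (area P) := by
  classical
  rw [← sum_fiberwise_of_maps_to (s := (sap_finite m).toFinset) (t := range (m * m / 4 + 1))
    (g := area)]
  · apply sum_congr rfl
    intro n _
    rw [p_card, sum_congr rfl (g := fun _ => f n), sum_const, nsmul_eq_mul]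
    intro P hP
    rw [(mem_filter.mp hP).2]
  · intro P hP
    rw [Set.Finite.mem_toFinset] at hP
    have := sap_area_le hP
    rw [mem_range]
    omega

lemma gen_bound {x : ℝ} (h0 : 0 < x) (h1 : x < 1) :
    ∃ C : ℝ, 0 < C ∧ ∀ m : ℕ,
      ∑ n ∈ range (m * m / 4 + 1), (p m n : ℝ) * x ^ (m * m / 4 - n) ≤ C := by
  obtain ⟨C, hC, hb⟩ := sap_sum h0 h1
  refine ⟨C, hC, fun m => ?_⟩
  rw [fiber m (fun n => x ^ (m * m / 4 - n))]
  exact hb m

lemma Z_eq {q : ℝ} (m : ℕ) : Z q m = ∑ n ∈ range (m * m / 4 + 1), (p m n : ℝ) * q ^ n :=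
  tsum_p (fun n hn => by rw [hn]; simp)

lemma Z_ge {q : ℝ} (hq : 0 < q) {m : ℕ} (hm : 2 ≤ m) : q ^ (m * m / 4) ≤ Z q m := by
  rw [Z_eq]
  refine le_trans ?_ (single_le_sum (f := fun n => (p m n : ℝ) * q ^ n)
    (fun _ _ => by positivity) (mem_range.mpr (Nat.lt_succ_self (m * m / 4))))
  have : (1 : ℝ) ≤ p m (m * m / 4) := by exact_mod_cast p_max hm
  have h2 : 0 < q ^ (m * m / 4) := by positivity
  nlinarith

lemma Z_pos {q : ℝ} (hq : 0 < q) {m : ℕ} (hm : 2 ≤ m) : 0 < Z q m :=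
  lt_of_lt_of_le (by positivity) (Z_ge hq hm)

lemma prob_nonneg {q : ℝ} (hq : 0 < q) {m : ℕ} (hm : 2 ≤ m) (n : ℕ) : 0 ≤ prob q m n := by
  have := Z_pos hq hm
  unfold prob
  positivity

lemma prob_zero {q : ℝ} {m n : ℕ} (h : p m n = 0) : prob q m n = 0 := by
  unfold prob; rw [h]; simp

lemma sum_prob {q : ℝ} (hq : 0 < q) {m : ℕ} (hm : 2 ≤ m) :
    ∑ n ∈ range (m * m / 4 + 1), prob q m n = 1 := by
  have := Z_pos hq hm
  unfold prob
  rw [← sum_div, ← Z_eq, div_self this.ne']

/-- **Exponential moments.** -/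
theorem moment {q s : ℝ} (hs : 0 < s) (hsq : s < q) : ∃ C : ℝ, 0 < C ∧ ∀ m : ℕ, 2 ≤ m →
    ∑ n ∈ range (m * m / 4 + 1), prob q m n * s ^ (m * m / 4 - n) ≤ C := by
  have hq : 0 < q := hs.trans hsq
  obtain ⟨C, hC, hb⟩ := gen_bound (x := s / q) (by positivity) ((div_lt_one hq).mpr hsq)
  refine ⟨C, hC, fun m hm => ?_⟩
  have hZ := Z_pos hq hm
  have h1 : ∑ n ∈ range (m * m / 4 + 1), prob q m n * s ^ (m * m / 4 - n) =
      q ^ (m * m / 4) / Z q m *
        ∑ n ∈ range (m * m / 4 + 1), (p m n : ℝ) * (s / q) ^ (m * m / 4 - n) := by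
    rw [mul_sum]
    apply sum_congr rfl
    intro n hn
    rw [mem_range] at hn
    unfold prob
    have e1 : q ^ (m * m / 4) = q ^ n * q ^ (m * m / 4 - n) := by
      rw [← pow_add]; congr 1; omega
    rw [e1, div_pow]
    field_simp
  rw [h1]
  have h2 : q ^ (m * m / 4) / Z q m ≤ 1 := (div_le_one hZ).mpr (Z_ge hq hm)
  have h3 : 0 ≤ q ^ (m * m / 4) / Z q m := by positivity
  calc _ ≤ 1 * C := mul_le_mul h2 (hb m) (sum_nonneg fun n _ => by positivity) (by norm_num)
    _ = C := one_mul C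

/-- **The largest area has positive probability.** -/
theorem atom {q : ℝ} (hq : 1 < q) : ∃ c : ℝ, 0 < c ∧ ∀ m : ℕ, 2 ≤ m →
    c ≤ prob q m (m * m / 4) := by
  have hq0 : 0 < q := by linarith
  obtain ⟨C, hC, hb⟩ := gen_bound (x := 1 / q) (by positivity)
    (by rw [div_lt_one hq0]; exact hq)
  refine ⟨1 / C, by positivity, fun m hm => ?_⟩
  have hZ := Z_pos hq0 hm
  have h1 : Z q m = q ^ (m * m / 4) *
        ∑ n ∈ range (m * m / 4 + 1), (p m n : ℝ) * (1 / q) ^ (m * m / 4 - n) := by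
    rw [Z_eq, mul_sum]
    apply sum_congr rfl
    intro n hn
    rw [mem_range] at hn
    have e1 : q ^ (m * m / 4) = q ^ n * q ^ (m * m / 4 - n) := by
      rw [← pow_add]; congr 1; omega
    rw [e1, one_div, inv_pow]
    field_simp
  have h2 : Z q m ≤ q ^ (m * m / 4) * C := by
    rw [h1]
    exact mul_le_mul_of_nonneg_left (hb m) (by positivity)
  unfold prob
  rw [div_le_div_iff₀ hC hZ]
  have h3 : (1 : ℝ) ≤ p m (m * m / 4) := by exact_mod_cast p_max hm
  have h4 : 0 < q ^ (m * m / 4) := by positivity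
  calc 1 * Z q m ≤ 1 * (q ^ (m * m / 4) * C) := by linarith
    _ ≤ (p m (m * m / 4) : ℝ) * (q ^ (m * m / 4) * C) :=
        mul_le_mul_of_nonneg_right h3 (by positivity)
    _ = _ := by ring

/-- **Bounded variance.** -/
theorem var_bound {q : ℝ} (hq : 1 < q) : ∃ C : ℝ, ∀ m : ℕ, 2 ≤ m → var q m ≤ C := by
  have hq0 : 0 < q := by linarith
  -- `t > 1` with `t ^ 2 < q`
  obtain ⟨t, ht1, htq⟩ : ∃ t : ℝ, 1 < t ∧ t ^ 2 < q := by
    refine ⟨√((1 + q) / 2), ?_, ?_⟩
    · rw [Real.lt_sqrt (by norm_num)]; linarith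
    · rw [Real.sq_sqrt (by linarith)]; linarith
  obtain ⟨C, hC, hb⟩ := moment (q := q) (s := t ^ 2) (by positivity) htq
  refine ⟨C / (t - 1) ^ 2, fun m hm => ?_⟩
  have ht0 : 0 < t - 1 := by linarith
  obtain ⟨M, hM⟩ : ∃ M, M = m * m / 4 := ⟨_, rfl⟩
  have hb' := hb m hm
  have hs := sum_prob hq0 hm
  rw [← hM] at hb' hs
  have hmean : mean q m = ∑ n ∈ range (M + 1), prob q m n * n := by
    rw [hM]; exact tsum_p (fun n hn => by rw [prob_zero hn]; simp)
  have hvar : var q m = ∑ n ∈ range (M + 1), prob q m n * ((n : ℝ) - mean q m) ^ 2 := by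
    rw [hM]; exact tsum_p (fun n hn => by rw [prob_zero hn]; simp)
  have h1 : var q m ≤ ∑ n ∈ range (M + 1), prob q m n * ((n : ℝ) - M) ^ 2 := by
    have e1 : ∑ n ∈ range (M + 1), prob q m n * ((n : ℝ) - M) ^ 2 =
        var q m + (mean q m - M) ^ 2 := by
      have e2 : ∀ n ∈ range (M + 1), prob q m n * ((n : ℝ) - M) ^ 2 =
          prob q m n * ((n : ℝ) - mean q m) ^ 2 + (2 * (mean q m - M)) * (prob q m n * n) +
            (-(2 * (mean q m - M) * mean q m) + (mean q m - M) ^ 2) * prob q m n := by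
        intro n _; ring
      rw [sum_congr rfl e2, sum_add_distrib, sum_add_distrib, ← mul_sum, ← mul_sum, ← hmean,
        ← hvar, hs]
      ring
    rw [e1]
    have := sq_nonneg (mean q m - M)
    linarith
  have h2 : ∑ n ∈ range (M + 1), prob q m n * ((n : ℝ) - M) ^ 2 ≤
      ∑ n ∈ range (M + 1), (prob q m n * (t ^ 2) ^ (M - n)) / (t - 1) ^ 2 := by
    apply sum_le_sum
    intro n hn
    rw [mem_range] at hn
    have h3 := prob_nonneg hq0 hm n
    rw [mul_div_assoc]
    apply mul_le_mul_of_nonneg_left _ h3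
    rw [le_div_iff₀ (by positivity)]
    obtain ⟨d, hd⟩ := Nat.exists_eq_add_of_le (show n ≤ M by omega)
    have e3 : M - n = d := by omega
    have e4 : ((n : ℝ) - M) ^ 2 = (d : ℝ) ^ 2 := by rw [hd]; push_cast; ring
    rw [e3, e4, ← pow_mul, mul_comm 2 d, pow_mul, ← mul_pow]
    have h5 := one_add_mul_sub_le_pow (show (-1 : ℝ) ≤ t by linarith) d
    have h6 : 0 ≤ (d : ℝ) * (t - 1) := by positivity
    apply pow_le_pow_left₀ h6
    linarith
  refine h1.trans (h2.trans ?_)
  rw [← sum_div]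
  exact div_le_div_of_nonneg_right hb' (by positivity)

/-! ### No continuous limit law -/

/-- functions with a jump of size at least `c` do not converge to a continuous distribution
function -/
lemma no_limit {F : ℝ → ℝ} (hF : Continuous F) (hbot : Tendsto F atBot (𝓝 0))
    (htop : Tendsto F atTop (𝓝 1)) {G : ℕ → ℝ → ℝ} {c : ℝ} (hc : 0 < c)
    (h0 : ∀ᶠ k in atTop, ∀ t, 0 ≤ G k t) (h1 : ∀ᶠ k in atTop, ∀ t, G k t ≤ 1)
    (hj : ∀ᶠ k in atTop, ∃ a, ∀ s t, s < a → a ≤ t → c ≤ G k t - G k s)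
    (hl : ∀ t, Tendsto (fun k => G k t) atTop (𝓝 (F t))) : False := by
  obtain ⟨N, hN⟩ := exists_nat_gt (3 / c)
  have hN0 : (0 : ℝ) < N := lt_trans (by positivity) hN
  have hNc : 3 / (N : ℝ) < c := by
    rw [div_lt_iff₀ hN0]
    rw [div_lt_iff₀ hc] at hN
    linarith
  have hlt : ∀ j : ℕ, 0 < j → j < N → ∃ t, F t = (j : ℝ) / N := by
    intro j hj0 hjN
    have e1 : 0 < (j : ℝ) / N := by
      have : (0 : ℝ) < j := by exact_mod_cast hj0
      positivity
    have e2 : (j : ℝ) / N < 1 := by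
      rw [div_lt_one hN0]; exact_mod_cast hjN
    have h3 : ∃ a, F a ≤ (j : ℝ) / N :=
      ((hbot.eventually (gt_mem_nhds e1)).exists).imp fun _ h => h.le
    have h4 : ∃ a, (j : ℝ) / N ≤ F a :=
      ((htop.eventually (lt_mem_nhds e2)).exists).imp fun _ h => h.le
    exact mem_range_of_exists_le_of_exists_ge hF h3 h4
  choose! t ht using hlt
  have hev : ∀ᶠ k in atTop, ∀ j ∈ range N, 0 < j → |G k (t j) - (j : ℝ) / N| < 1 / N := by
    rw [Finset.eventually_all]
    intro j hjN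
    rw [mem_range] at hjN
    by_cases hj0 : 0 < j
    · have h3 := hl (t j)
      rw [ht j hj0 hjN] at h3
      have h4 := (Metric.tendsto_nhds.mp h3) (1 / N) (by positivity)
      filter_upwards [h4] with k hk _
      rw [Real.dist_eq] at hk
      exact hk
    · exact Eventually.of_forall fun k h => absurd h hj0
  obtain ⟨k, k0, k1, ⟨a, ka⟩, kt⟩ := (h0.and (h1.and (hj.and hev))).exists
  -- the jump has size at most one
  have hc1 : c ≤ 1 := by
    have h5 := ka (a - 1) a (by linarith) le_rfl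
    have h6 := k0 (a - 1)
    have h7 := k1 a
    linarith
  have hN3 : (3 : ℝ) < N := by
    rw [div_lt_iff₀ hc] at hN
    nlinarith
  have hN3' : 3 < N := by exact_mod_cast hN3
  have e3 : 3 / (N : ℝ) = 1 / N + 1 / N + 1 / N := by ring
  have hpos : 0 < 1 / (N : ℝ) := by positivity
  have key : ∀ j, j + 1 < N → t (j + 1) < a := by
    intro j
    induction j with
    | zero =>
      intro h8
      by_contra h9
      rw [not_lt] at h9
      have h5 := ka (a - 1) (t (0 + 1)) (by linarith) h9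
      have h6 := k0 (a - 1)
      have h7 := abs_lt.mp (kt (0 + 1) (mem_range.mpr h8) (by norm_num))
      have e4 : ((0 + 1 : ℕ) : ℝ) / N = 1 / N := by push_cast; ring
      rw [e4] at h7
      linarith [h7.2]
    | succ j ih =>
      intro h8
      by_contra h9
      rw [not_lt] at h9
      have h5 := ka (t (j + 1)) (t (j + 1 + 1)) (ih (by omega)) h9
      have h6 := abs_lt.mp (kt (j + 1) (mem_range.mpr (by omega)) (by omega))
      have h7 := abs_lt.mp (kt (j + 1 + 1) (mem_range.mpr h8) (by omega))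
      have e4 : ((j + 1 + 1 : ℕ) : ℝ) / N = ((j + 1 : ℕ) : ℝ) / N + 1 / N := by push_cast; ring
      rw [e4] at h7
      linarith [h7.2, h6.1]
  have h8 := key (N - 2) (by omega)
  have h5 := ka (t (N - 2 + 1)) a h8 le_rfl
  have h7 := k1 a
  have h6 := abs_lt.mp (kt (N - 2 + 1) (mem_range.mpr (by omega)) (by omega))
  have e4 : ((N - 2 + 1 : ℕ) : ℝ) / N = 1 - 1 / N := by
    have : ((N - 2 + 1 : ℕ) : ℝ) = N - 1 := by
      have h9 : N - 2 + 1 = N - 1 := by omega
      rw [h9, Nat.cast_sub (by omega)]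
      simp
    rw [this]
    field_simp
  rw [e4] at h6
  linarith [h6.1]

lemma continuous_cdf (μ : Measure ℝ) [IsProbabilityMeasure μ] (hμ : ∀ t, μ {t} = 0) :
    Continuous (fun t => μ.real (Set.Iic t)) := by
  have e : (fun t => μ.real (Set.Iic t)) = ProbabilityTheory.cdf μ := by
    funext t
    rw [ProbabilityTheory.cdf_eq_real]
  rw [e, continuous_iff_continuousAt]
  intro a
  rw [(ProbabilityTheory.cdf μ).mono.continuousAt_iff_leftLim_eq_rightLim,
    (ProbabilityTheory.cdf μ).rightLim_eq]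
  have h1 := (ProbabilityTheory.cdf μ).measure_singleton a
  rw [ProbabilityTheory.measure_cdf, hμ] at h1
  have h2 := ENNReal.ofReal_eq_zero.mp h1.symm
  have h3 := (ProbabilityTheory.cdf μ).mono.leftLim_le (le_refl a)
  linarith

/-- **No limit law without atoms.** -/
theorem no_cont {q : ℝ} (hq : 1 < q) (μ : Measure ℝ) [IsProbabilityMeasure μ]
    (hμ : ∀ t, μ {t} = 0) (φ : ℕ → ℕ) (hφ : Tendsto φ atTop atTop) (g : ℕ → ℕ → ℝ) :
    ¬ ∀ t : ℝ, Tendsto (fun k => ∑' n, if g k n ≤ t then prob q (φ k) n else 0) atTop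
      (𝓝 (μ.real (Set.Iic t))) := by
  intro hl
  have hq0 : 0 < q := by linarith
  obtain ⟨c, hc, hat⟩ := atom hq
  have hm : ∀ᶠ k in atTop, 2 ≤ φ k := hφ.eventually_ge_atTop 2
  have hs : ∀ k t, (∑' n, if g k n ≤ t then prob q (φ k) n else 0) =
      ∑ n ∈ range (φ k * φ k / 4 + 1), if g k n ≤ t then prob q (φ k) n else 0 := by
    intro k t
    exact tsum_p (fun n hn => by rw [prob_zero hn]; simp)
  have hbot : Tendsto (fun t => μ.real (Set.Iic t)) atBot (𝓝 0) := by
    have e : (fun t => μ.real (Set.Iic t)) = ProbabilityTheory.cdf μ := by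
      funext t
      rw [ProbabilityTheory.cdf_eq_real]
    rw [e]
    exact ProbabilityTheory.tendsto_cdf_atBot μ
  have htop : Tendsto (fun t => μ.real (Set.Iic t)) atTop (𝓝 1) := by
    have e : (fun t => μ.real (Set.Iic t)) = ProbabilityTheory.cdf μ := by
      funext t
      rw [ProbabilityTheory.cdf_eq_real]
    rw [e]
    exact ProbabilityTheory.tendsto_cdf_atTop μ
  refine no_limit (continuous_cdf μ hμ) hbot htop hc (G := fun k t =>
    ∑' n, if g k n ≤ t then prob q (φ k) n else 0) ?_ ?_ ?_ hl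
  · filter_upwards [hm] with k hk t
    rw [hs]
    apply sum_nonneg
    intro n _
    have := prob_nonneg hq0 hk n
    split_ifs
    · exact this
    · exact le_rfl
  · filter_upwards [hm] with k hk t
    rw [hs, ← sum_prob hq0 hk]
    apply sum_le_sum
    intro n _
    have := prob_nonneg hq0 hk n
    split_ifs
    · exact le_rfl
    · exact this
  · filter_upwards [hm] with k hk
    refine ⟨g k (φ k * φ k / 4), fun s t hs1 ht1 => ?_⟩
    rw [hs, hs, ← sum_sub_distrib]
    refine (hat (φ k) hk).trans ?_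
    refine le_trans ?_ (single_le_sum (f := fun n => (if g k n ≤ t then prob q (φ k) n else 0) -
      (if g k n ≤ s then prob q (φ k) n else 0)) ?_
      (mem_range.mpr (Nat.lt_succ_self (φ k * φ k / 4))))
    · rw [if_pos ht1, if_neg (not_le.mpr hs1), sub_zero]
    · intro n _
      have := prob_nonneg hq0 hk n
      have hst : s ≤ t := (hs1.trans_le ht1).le
      split_ifs with h1 h2 h2
      · simp
      · simpa using this
      · exact absurd (h2.trans hst) h1
      · simp

end Run7.h529.AL
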