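import Pool.Agent.Run7.h529.AL.Pz
import Pool.Agent.Run7.h529.AL.Lim

/-!
The number of polygons with a given deficit.
-/

set_option autoImplicit false
set_option linter.unusedSimpArgs false
set_option linter.unusedVariables false

namespace Run7.h529.AL

open Finset

/-- a closed word with a small deficit is simple -/
lemma ps_loop' {a b : ℕ} {w : List St} (h : Cl a b w)
    (hA1 : (a : ℤ) * b - A 0 w < a) (hA2 : (a : ℤ) * b - A 0 w < b) :
    IsLoop (2 * (a + b)) (ps w) := by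
  have hl := h.length
  have hX := h.X
  have hY := h.Y
  have hAle := A_le h
  have ha : 1 ≤ a := by omega
  have hb : 1 ≤ b := by omega
  have key : ∀ i j, i < j → j < w.length → X (w.take i) = X (w.take j) →
      Y (w.take i) = Y (w.take j) → False := by
    intro i j hij hj h1 h2
    obtain ⟨v, hv⟩ : ∃ v, v = (w.take j).drop i := ⟨_, rfl⟩
    have e1 : w.take j = w.take i ++ v := by
      rw [hv]
      conv_lhs => rw [← List.take_append_drop i (w.take j)]
      rw [List.take_take, min_eq_left hij.le]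
    have hXv : X v = 0 := by rw [e1, X_append] at h1; linarith
    have hYv : Y v = 0 := by rw [e1, Y_append] at h2; linarith
    have e2 : w = w.take i ++ v ++ w.drop j := by
      rw [← e1, List.take_append_drop]
    have hlv : v.length = j - i := by rw [hv]; simp; omega
    have hcut := A_cut (u := w.take i) (w := w.drop j) hXv hYv
    rw [← e2] at hcut
    have hlr : (w.take i ++ w.drop j).length = w.length - (j - i) := by simp; omega
    have hXr : X (w.take i ++ w.drop j) = 0 := by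
      have : X w = X (w.take i ++ v ++ w.drop j) := by rw [← e2]
      rw [X_append, X_append, hXv, hX] at this
      rw [X_append]; linarith
    have hYr : Y (w.take i ++ w.drop j) = 0 := by
      have : Y w = Y (w.take i ++ v ++ w.drop j) := by rw [← e2]
      rw [Y_append, Y_append, hYv, hY] at this
      rw [Y_append]; linarith
    have hc : ∀ s, w.count s = (w.take i ++ w.drop j).count s + v.count s := by
      intro s
      conv_lhs => rw [e2]
      simp only [List.count_append]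
      ring
    rw [X_eq] at hXv hXr
    rw [Y_eq] at hYv hYr
    have hcv : Cl (v.count St.E) (v.count St.N) v := ⟨rfl, by omega, rfl, by omega⟩
    have hcr : Cl ((w.take i ++ w.drop j).count St.E) ((w.take i ++ w.drop j).count St.N)
      (w.take i ++ w.drop j) := ⟨rfl, by omega, rfl, by omega⟩
    have l1 := hcv.length
    have l2 := hcr.length
    have A1 := A_le hcv
    have A2 := A_le hcr
    have hE := hc St.E
    have hN := hc St.N
    rw [h.1] at hE
    rw [h.2.2.1] at hN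
    generalize v.count St.E = a1 at *
    generalize v.count St.N = b1 at *
    generalize (w.take i ++ w.drop j).count St.E = a2 at *
    generalize (w.take i ++ w.drop j).count St.N = b2 at *
    have p1 : 1 ≤ a1 + b1 := by omega
    have p2 : 1 ≤ a2 + b2 := by omega
    have hEz : (a : ℤ) = a2 + a1 := by exact_mod_cast hE
    have hNz : (b : ℤ) = b2 + b1 := by exact_mod_cast hN
    have h5 : (a2 : ℤ) * b1 + a1 * b2 ≤ (a : ℤ) * b - A 0 w := by
      have e3 : ((a2 : ℤ) + a1) * (b2 + b1) = a2 * b2 + a2 * b1 + a1 * b2 + a1 * b1 := by ring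
      rw [hEz, hNz, e3]; linarith
    have h6 : (a2 : ℤ) * b1 + a1 * b2 < a := by linarith
    have h7 : (a2 : ℤ) * b1 + a1 * b2 < b := by linarith
    have h6' : a2 * b1 + a1 * b2 < a := by exact_mod_cast h6
    have h7' : a2 * b1 + a1 * b2 < b := by exact_mod_cast h7
    clear h5 h6 h7 A1 A2 hcut
    clear hEz hNz l1 l2 hcv hcr hlr hlv hXr hYr hXv hYv hc h1 h2 e1 e2
    rcases Nat.eq_zero_or_pos a1 with z1 | z1
    · have q1 : 1 ≤ b1 := by omega
      have q2 : a2 ≤ a2 * b1 := Nat.le_mul_of_pos_right _ q1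
      omega
    rcases Nat.eq_zero_or_pos a2 with z2 | z2
    · have q1 : 1 ≤ b2 := by omega
      have q2 : a1 ≤ a1 * b2 := Nat.le_mul_of_pos_right _ q1
      omega
    rcases Nat.eq_zero_or_pos b1 with z3 | z3
    · have q2 : b2 ≤ a1 * b2 := Nat.le_mul_of_pos_left _ z1
      omega
    rcases Nat.eq_zero_or_pos b2 with z4 | z4
    · have q2 : b1 ≤ a2 * b1 := Nat.le_mul_of_pos_left _ z2
      omega
    have q2 : a2 ≤ a2 * b1 := Nat.le_mul_of_pos_right _ z3
    have q3 : a1 ≤ a1 * b2 := Nat.le_mul_of_pos_right _ z4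
    omega
  constructor
  · intro i
    unfold ps
    rw [← hl, Nat.add_mod_right]
  · intro i
    obtain ⟨_, h1, h2⟩ := ps_succ (by omega) hX hY i
    exact adj_of_step h1 h2
  · intro i j hi hj he
    rw [← hl] at hi hj
    unfold ps at he
    rw [Nat.mod_eq_of_lt hi, Nat.mod_eq_of_lt hj, Prod.mk.injEq] at he
    rcases lt_trichotomy i j with hij | hij | hij
    · exact (key i j hij hj he.1 he.2).elim
    · exact hij
    · exact (key j i hij hi he.1.symm he.2.symm).elim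

lemma not_red {a b d : ℕ} {w : List St} (h : Cl a b w) (ha : 2 * d < a)
    (hA : (a : ℤ) * b - A 0 w ≤ d) : ¬ Red a w := by
  rintro ⟨s, t, u, v, z, hst, hw, hr⟩
  obtain ⟨h1, h2, h3, h4⟩ := h
  rw [hw] at h1 h2 h3 h4
  simp only [List.count_append, List.count_cons] at h1 h2 h3 h4
  obtain ⟨b', rfl, hcl⟩ : ∃ b', b = b' + 1 ∧ Cl a b' (u ++ (v ++ z)) := by
    rcases hst with ⟨rfl, rfl⟩ | ⟨rfl, rfl⟩
    · simp at h1 h2 h3 h4
      refine ⟨b - 1, by omega, ?_, ?_, ?_, ?_⟩ <;> simp only [List.count_append] <;> omega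
    · simp at h1 h2 h3 h4
      refine ⟨b - 1, by omega, ?_, ?_, ?_, ?_⟩ <;> simp only [List.count_append] <;> omega
  have h5 := A_le hcl
  push_cast at hA
  have h6 : (2 * d : ℤ) < a := by exact_mod_cast ha
  have e : (a : ℤ) * (b' + 1) = a * b' + a := by ring
  rw [e] at hA
  linarith

lemma srt_canw {a b : ℕ} (hb : 1 ≤ b) {w : List St} (h : Cl a b w) (hs : Srt w) :
    ∃ u v, w = u ++ v ∧ CanW (v ++ u) := by
  obtain ⟨u, v, P, Q, h1, h2, h3, h4⟩ := hs
  have hc : ∀ s, w.count s = P.count s + Q.count s := by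
    intro s
    rw [h1, List.count_append, add_comm, ← List.count_append, h2, List.count_append]
  have hN : St.N ∈ P := by
    rw [← List.count_pos_iff]
    have := hc St.N
    rw [h.2.2.1, List.count_eq_zero_of_not_mem h4] at this
    omega
  obtain ⟨P1, P2, rfl, hP⟩ := first_split hN
  simp only [List.mem_append, List.mem_cons, not_or] at h3
  have hR : v ++ u = P1 ++ (St.N :: P2 ++ Q) := by rw [h2]; simp
  have key : ∀ (u v R1 R2 : List St), v ++ u = R1 ++ R2 →
      ∃ u' v', u ++ v = u' ++ v' ∧ v' ++ u' = R2 ++ R1 := by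
    intro u v R1 R2 he
    rcases List.append_eq_append_iff.mp he with ⟨c, h5, h6⟩ | ⟨c, h5, h6⟩
    · refine ⟨c, R2 ++ v, by rw [h6]; simp, by rw [h5]; simp⟩
    · refine ⟨u ++ R1, c, by rw [h5]; simp, by rw [h6]; simp⟩
  obtain ⟨u', v', h5, h6⟩ := key u v _ _ hR
  refine ⟨u', v', h1.trans h5, P2, Q ++ P1, by rw [h6]; simp, h3.2.2, ?_⟩
  simp only [List.mem_append, not_or]
  exact ⟨h4, hP⟩

lemma exists_can {m d : ℕ} {P : Set (Sym2 (ℤ × ℤ))} (hP : P ∈ SAP m)
    (hd : m * m / 4 ≤ area P + d) (hm : 8 * d + 7 ≤ m) : ∃ (η : ℕ → ℤ × ℤ) (a : ℕ), a ≤ m ∧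
      IsLoop (2 * m) η ∧ edges (2 * m) η = P ∧ Cl a (m - a) (wd (2 * m) η) ∧ 2 * d < a ∧
      2 * d < m - a ∧ CanW (wd (2 * m) η) ∧ A 0 (wd (2 * m) η) = area P := by
  obtain ⟨hm2, ⟨ω, hω, rfl⟩, hN⟩ := hP
  obtain ⟨η, hη, he, hA⟩ : ∃ η, IsLoop (2 * m) η ∧ edges (2 * m) η = edges (2 * m) ω ∧
      A 0 (wd (2 * m) η) = area (edges (2 * m) ω) := by
    have h1 := area_wd hω (by omega)
    rcases le_total 0 (A 0 (wd (2 * m) ω)) with h2 | h2
    · exact ⟨ω, hω, rfl, by rw [h1, abs_of_nonneg h2]⟩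
    · refine ⟨rl (2 * m) ω, hω.rl (by omega), edges_rl hω (by omega), ?_⟩
      have h0 : ω (2 * m) = ω 0 := by have := hω.per 0; rwa [zero_add] at this
      have hY : Y (wd (2 * m) ω) = 0 := by rw [Y_wd hω.adj, h0, sub_self]
      have h3 := A_rv 0 (wd (2 * m) ω)
      rw [hY, add_zero] at h3
      rw [wd_rl hω, h3, h1, abs_of_nonpos h2]
  obtain ⟨a, ha, hc⟩ := cl_wd hη
  rw [← he] at hd ⊢
  rw [← he] at hA
  obtain ⟨b, rfl⟩ := Nat.exists_eq_add_of_le ha
  rw [Nat.add_sub_cancel_left] at hc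
  have hAle := A_le hc
  rw [hA] at hAle
  have hle : area (edges (2 * (a + b)) η) ≤ a * b := by exact_mod_cast hAle
  have hq : (a + b) * (a + b) / 4 * 4 + 3 ≥ (a + b) * (a + b) := by omega
  have hq2 : (a + b) * (a + b) ≤ 4 * (a * b) + 4 * d + 3 := by omega
  have g1 : 2 * d < a := by
    by_contra h1
    rw [not_lt] at h1
    obtain ⟨e, he'⟩ : ∃ e, b = a + e := ⟨b - a, by omega⟩
    have h3 : (a + (a + e)) * (a + (a + e)) = 4 * (a * (a + e)) + e * e := by ring
    have h4 := Nat.le_mul_self e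
    rw [he', h3] at hq2
    omega
  have g2 : 2 * d < b := by
    by_contra h1
    rw [not_lt] at h1
    obtain ⟨e, he'⟩ : ∃ e, a = b + e := ⟨a - b, by omega⟩
    have h3 : (b + e + b) * (b + e + b) = 4 * ((b + e) * b) + e * e := by ring
    have h4 := Nat.le_mul_self e
    rw [he', h3] at hq2
    omega
  have hdef : (a : ℤ) * b - A 0 (wd (2 * (a + b)) η) ≤ d := by
    rw [hA]
    have h3 : a * b ≤ (a + b) * (a + b) / 4 := by
      have := quart ha
      rwa [Nat.add_sub_cancel_left] at this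
    have h4 : a * b ≤ area (edges (2 * (a + b)) η) + d := h3.trans hd
    have h5 : (a : ℤ) * b ≤ area (edges (2 * (a + b)) η) + d := by exact_mod_cast h4
    linarith
  have hs : Srt (wd (2 * (a + b)) η) := (srt_or_red hc).resolve_right (not_red hc g1 hdef)
  obtain ⟨u, v, h1, h2⟩ := srt_canw (by omega) hc hs
  have hlen : u.length ≤ 2 * (a + b) := by
    have := wd_length (2 * (a + b)) η
    rw [h1, List.length_append] at this
    omega
  have hw := wd_shift hη hlen
  rw [h1, List.drop_left, List.take_left] at hw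
  have hX := hc.X
  have hY := hc.Y
  rw [h1] at hX hY
  refine ⟨fun k => η (u.length + k), a, by omega, hη.shift _ (by omega),
    edges_shift hη (by omega) _, ?_, g1, by omega, by rw [hw]; exact h2, ?_⟩
  · rw [Nat.add_sub_cancel_left, hw]
    obtain ⟨c1, c2, c3, c4⟩ := hc
    rw [h1] at c1 c2 c3 c4
    simp only [List.count_append] at c1 c2 c3 c4
    refine ⟨?_, ?_, ?_, ?_⟩ <;> simp only [List.count_append] <;> omega
  · rw [hw, A_rotate hX hY, ← h1, hA]

/-- the tuples which describe the polygons with deficit `d` -/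
def T (ε d : ℕ) : Set (ℤ × (Fin 4 → Fin d → ℕ)) :=
  {x | x.1 * (x.1 + ε) + ((∑ i, wt (x.2 i) : ℕ) : ℤ) = d}

lemma T_k {ε d : ℕ} (hε : ε ≤ 1) {x : ℤ × (Fin 4 → Fin d → ℕ)} (hx : x ∈ T ε d) :
    |x.1| ≤ d + 1 := by
  have h1 : x.1 * (x.1 + ε) + ((∑ i, wt (x.2 i) : ℕ) : ℤ) = d := hx
  have h2 : (0 : ℤ) ≤ ((∑ i, wt (x.2 i) : ℕ) : ℤ) := Int.natCast_nonneg _
  generalize x.1 = k at *
  have h3 : k * (k + ε) ≤ d := by linarith
  have h4 : (ε : ℤ) ≤ 1 := by exact_mod_cast hε
  have h5 : (0 : ℤ) ≤ ε := Int.natCast_nonneg _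
  have h6 : (0 : ℤ) ≤ d := Int.natCast_nonneg _
  rw [abs_le]
  constructor
  · by_contra h7
    have h8 : 0 ≤ (-k - (d + 2)) * (-(k + ε)) := mul_nonneg (by omega) (by omega)
    have h9 : 0 ≤ ((d : ℤ) + 2) * (-(k + ε) - (d + 1)) := mul_nonneg (by omega) (by omega)
    have h10 : 0 ≤ (d : ℤ) * d := mul_nonneg h6 h6
    linarith
  · by_contra h7
    have h8 : 0 ≤ (k - (d + 2)) * (k + ε) := mul_nonneg (by omega) (by omega)
    have h9 : 0 ≤ ((d : ℤ) + 2) * ((k + ε) - (d + 2)) := mul_nonneg (by omega) (by omega)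
    have h10 : 0 ≤ (d : ℤ) * d := mul_nonneg h6 h6
    linarith

lemma T_wt {ε d : ℕ} (hε : ε ≤ 1) {x : ℤ × (Fin 4 → Fin d → ℕ)} (hx : x ∈ T ε d) :
    wt (x.2 0) + wt (x.2 1) + wt (x.2 2) + wt (x.2 3) ≤ d := by
  have h1 : x.1 * (x.1 + ε) + ((∑ i, wt (x.2 i) : ℕ) : ℤ) = d := hx
  rw [Fin.sum_univ_four] at h1
  have h2 : 0 ≤ x.1 * (x.1 + ε) := by
    rcases Nat.le_one_iff_eq_zero_or_eq_one.mp hε with rfl | rfl
    · have e : x.1 * (x.1 + ((0 : ℕ) : ℤ)) = x.1 * x.1 := by push_cast; ring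
      rw [e]
      exact mul_self_nonneg _
    · rcases le_or_gt 0 x.1 with h | h
      · exact mul_nonneg h (by push_cast; omega)
      · exact mul_nonneg_of_nonpos_of_nonpos h.le (by push_cast; omega)
  omega

lemma real {ε d l : ℕ} (hε : ε ≤ 1) (hl : 4 * d + 4 ≤ l) {x : ℤ × (Fin 4 → Fin d → ℕ)}
    (hx : x ∈ T ε d) : ∃ (a b : ℕ), (a : ℤ) = l + x.1 + ε ∧ (b : ℤ) = l - x.1 ∧
      a + b = 2 * l + ε ∧ 2 * d < b ∧ 2 * d < a ∧ Cl a b (wf a b x.2) ∧
      A 0 (wf a b x.2) = l * l + ε * l - d ∧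
      ∃ η, IsLoop (2 * (2 * l + ε)) η ∧ Nrm (edges (2 * (2 * l + ε)) η) ∧
        wd (2 * (2 * l + ε)) η = wf a b x.2 := by
  have hk := abs_le.mp (T_k hε hx)
  have hw := T_wt hε hx
  have h1 : x.1 * (x.1 + ε) + ((∑ i, wt (x.2 i) : ℕ) : ℤ) = d := hx
  rw [Fin.sum_univ_four] at h1
  obtain ⟨k, f⟩ := x
  dsimp only at *
  have t0 := tot_le_wt (f 0)
  have t1 := tot_le_wt (f 1)
  have t2 := tot_le_wt (f 2)
  have t3 := tot_le_wt (f 3)
  obtain ⟨a, ha⟩ : ∃ a : ℕ, (a : ℤ) = l + k + ε := ⟨(l + k + ε).toNat, by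
    rw [Int.toNat_of_nonneg]; omega⟩
  obtain ⟨b, hb⟩ : ∃ b : ℕ, (b : ℤ) = l - k := ⟨(l - k).toNat, by
    rw [Int.toNat_of_nonneg]; omega⟩
  have ha2 : 2 * d < a := by omega
  have hb2 : 2 * d < b := by omega
  have hcl := wf_cl (a := a) hb2 f (by omega) (by omega)
  have hA := wf_A (a := a) hb2 f (by omega) (by omega)
  have hAv : A 0 (wf a b f) = l * l + ε * l - d := by
    rw [hA, ha, hb]
    push_cast at h1
    linarith
  have hab : (a : ℤ) * b = l * l + ε * l - k * (k + ε) := by rw [ha, hb]; ring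
  have hdef : (a : ℤ) * b - A 0 (wf a b f) ≤ d := by
    rw [hA]; omega
  have hloop := ps_loop' hcl (by omega) (by omega)
  have hlen := hcl.length
  have hm : a + b = 2 * l + ε := by omega
  obtain ⟨η, e1, e2, e3⟩ := exists_nrm hloop (by omega)
  have h5 := wd_ps (w := wf a b f) (by omega) hcl.X hcl.Y
  rw [hlen] at h5
  rw [h5] at e3
  rw [hm] at e1 e2 e3
  exact ⟨a, b, ha, hb, hm, hb2, ha2, hcl, hAv, η, e1, e2, e3⟩

lemma quarter {ε l : ℕ} (hε : ε ≤ 1) :
    (2 * l + ε) * (2 * l + ε) / 4 = l * l + ε * l := by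
  rcases Nat.le_one_iff_eq_zero_or_eq_one.mp hε with rfl | rfl
  · have : (2 * l + 0) * (2 * l + 0) = 4 * (l * l) := by ring
    rw [this]; omega
  · have : (2 * l + 1) * (2 * l + 1) = 4 * (l * l + 1 * l) + 1 := by ring
    rw [this]; omega

/-- **the number of polygons with a given deficit** -/
theorem p_eq_T {ε d l : ℕ} (hε : ε ≤ 1) (hl : 4 * d + 4 ≤ l) :
    p (2 * l + ε) ((2 * l + ε) * (2 * l + ε) / 4 - d) = (T ε d).ncard := by
  have hll := Nat.le_mul_self l
  have hld : d ≤ l * l + ε * l := by omega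
  rw [quarter hε]
  unfold p
  symm
  -- the data of a tuple
  let a : ∀ x ∈ T ε d, ℕ := fun x hx => (real hε hl hx).choose
  let b : ∀ x ∈ T ε d, ℕ := fun x hx => (real hε hl hx).choose_spec.choose
  have hab : ∀ x (hx : x ∈ T ε d), ((a x hx : ℕ) : ℤ) = l + x.1 + ε ∧ ((b x hx : ℕ) : ℤ) = l - x.1 ∧
      a x hx + b x hx = 2 * l + ε ∧ 2 * d < b x hx ∧ 2 * d < a x hx ∧
      Cl (a x hx) (b x hx) (wf (a x hx) (b x hx) x.2) ∧
      A 0 (wf (a x hx) (b x hx) x.2) = l * l + ε * l - d ∧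
      ∃ η, IsLoop (2 * (2 * l + ε)) η ∧ Nrm (edges (2 * (2 * l + ε)) η) ∧
        wd (2 * (2 * l + ε)) η = wf (a x hx) (b x hx) x.2 :=
    fun x hx => (real hε hl hx).choose_spec.choose_spec
  let η : ∀ x ∈ T ε d, (ℕ → ℤ × ℤ) := fun x hx => (hab x hx).2.2.2.2.2.2.2.choose
  have hη : ∀ x (hx : x ∈ T ε d), IsLoop (2 * (2 * l + ε)) (η x hx) ∧
      Nrm (edges (2 * (2 * l + ε)) (η x hx)) ∧
      wd (2 * (2 * l + ε)) (η x hx) = wf (a x hx) (b x hx) x.2 :=
    fun x hx => (hab x hx).2.2.2.2.2.2.2.choose_spec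
  have hm3 : 3 ≤ 2 * (2 * l + ε) := by omega
  have hpos : (0 : ℤ) < l * l + ε * l - d := by
    have h1 : d < l * l + ε * l := by omega
    have h2 : (d : ℤ) < ((l * l + ε * l : ℕ) : ℤ) := by exact_mod_cast h1
    push_cast at h2
    linarith
  apply Set.ncard_congr (fun x hx => edges (2 * (2 * l + ε)) (η x hx))
  · intro x hx
    obtain ⟨g1, g2, g3⟩ := hη x hx
    obtain ⟨-, -, h3, h4, h5, h6, h7, -⟩ := hab x hx
    refine ⟨⟨by omega, ⟨_, g1, rfl⟩, g2⟩, ?_⟩
    have h8 := area_wd g1 hm3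
    rw [g3, h7, abs_of_pos hpos] at h8
    have h9 : (area (edges (2 * (2 * l + ε)) (η x hx)) : ℤ) = ((l * l + ε * l - d : ℕ) : ℤ) := by
      rw [h8]; push_cast [hld]; rfl
    exact_mod_cast h9
  · intro x y hx hy he
    obtain ⟨g1, g2, g3⟩ := hη x hx
    obtain ⟨k1, k2, k3⟩ := hη y hy
    obtain ⟨h1, h2, h3, h4, h5, h6, h7, -⟩ := hab x hx
    obtain ⟨j1, j2, j3, j4, j5, j6, j7, -⟩ := hab y hy
    have hw := word_of_edges g1 k1 hm3 he (by
        rw [g3, ← List.count_pos_iff, h6.2.2.2]; omega)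
      (by rw [g3]; exact wf_can (by omega) _) (by rw [k3]; exact wf_can (by omega) _)
      (by rw [g3, h7]; exact hpos) (by rw [k3, j7]; exact hpos)
    rw [g3, k3] at hw
    have hae : a x hx = a y hy := by
      rw [← h6.1, ← j6.1, hw]
    have hbe : b x hx = b y hy := by omega
    rw [hae, hbe] at hw
    have hf := wf_inj (by omega) hw
    apply Prod.ext
    · omega
    · exact hf
  · rintro P ⟨hP, hPa⟩
    obtain ⟨η', a', ha', e1, e2, e3, e4, e5, e6, e7⟩ := exists_can (d := d) hP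
      (by rw [quarter hε, hPa]; omega) (by omega)
    obtain ⟨b', hb'⟩ : ∃ b', b' = 2 * l + ε - a' := ⟨_, rfl⟩
    rw [← hb'] at e3 e5
    have hdef : (a' : ℤ) * b' - A 0 (wd (2 * (2 * l + ε)) η') ≤ d := by
      rw [e7, hPa]
      have h3 := quart ha'
      rw [quarter hε, ← hb'] at h3
      have h4 : a' * b' ≤ l * l + ε * l - d + d := by omega
      have h5 : ((a' * b' : ℕ) : ℤ) ≤ ((l * l + ε * l - d + d : ℕ) : ℤ) := by exact_mod_cast h4
      push_cast at h5
      push_cast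
      linarith
    obtain ⟨f, f1, f2, f3⟩ := wf_surj e3 e6 (by omega) hdef
    have hA := wf_A (a := a') (b := b') (by omega) f f2 f3
    rw [← f1, e7, hPa] at hA
    have hx : ((a' : ℤ) - l - ε, f) ∈ T ε d := by
      change ((a' : ℤ) - l - ε) * ((a' : ℤ) - l - ε + ε) + ((∑ i, wt (f i) : ℕ) : ℤ) = d
      rw [Fin.sum_univ_four]
      have hb2 : (b' : ℤ) = 2 * l + ε - a' := by omega
      rw [hb2] at hA
      push_cast [hld] at hA ⊢
      linarith
    refine ⟨_, hx, ?_⟩
    obtain ⟨g1, g2, g3⟩ := hη _ hx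
    obtain ⟨h1, h2, h3, h4, h5, h6, h7, -⟩ := hab _ hx
    dsimp only at h1 h2
    have hae : a _ hx = a' := by omega
    have hbe : b _ hx = b' := by omega
    rw [hae, hbe, ← f1] at g3
    rw [← e2]
    refine eq_of_wd (by omega) g1 e1 g2 ?_ g3
    rw [e2]
    exact hP.2.2

end Run7.h529.AL
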