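import Pool.Agent.Run7.h529.AL.Lw

/-!
Even and odd half-perimeters have different limit laws.
-/

set_option autoImplicit false
set_option linter.unusedSimpArgs false
set_option linter.unusedVariables false

namespace Run7.h529.AL

open Finset Filter Topology MeasureTheory

lemma wt0 (f : Fin 0 → ℕ) : wt f = 0 := by unfold wt; simp
lemma wt1 (f : Fin 1 → ℕ) : wt f = f 0 := by unfold wt; simp

lemma fin1_ext {f g : Fin 1 → ℕ} (h : f 0 = g 0) : f = g := by
  funext j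
  rw [Fin.eq_zero j, h]

/-- the unit tuple -/
def un (i : Fin 4) : Fin 4 → Fin 1 → ℕ := fun j _ => if j = i then 1 else 0

lemma t00 : t 0 0 = 1 := by
  unfold t
  rw [Set.ncard_eq_one]
  refine ⟨(0, fun _ _ => 0), ?_⟩
  ext x
  simp only [T, Set.mem_ofPred_eq, Set.mem_singleton_iff, wt0, sum_const_zero]
  constructor
  · intro h
    apply Prod.ext
    · have : x.1 * x.1 = 0 := by
        push_cast at h
        linarith
      exact mul_self_eq_zero.mp this
    · funext i j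
      exact j.elim0
  · rintro rfl
    simp

lemma t10 : t 1 0 = 2 := by
  unfold t
  rw [Set.ncard_eq_two]
  refine ⟨(0, fun _ _ => 0), (-1, fun _ _ => 0), by simp, ?_⟩
  ext x
  simp only [T, Set.mem_ofPred_eq, Set.mem_insert_iff, Set.mem_singleton_iff, wt0, sum_const_zero]
  constructor
  · intro h
    have h2 : x.1 * (x.1 + 1) = 0 := by
      push_cast at h
      linarith
    rcases mul_eq_zero.mp h2 with h3 | h3
    · left
      apply Prod.ext
      · exact h3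
      · funext i j
        exact j.elim0
    · right
      apply Prod.ext
      · change x.1 = -1
        linarith
      · funext i j
        exact j.elim0
  · rintro (rfl | rfl) <;> simp

/-- explicit list of the tuples of weight one, even case -/
def F01 : Finset (ℤ × (Fin 4 → Fin 1 → ℕ)) :=
  {(1, fun _ _ => 0), (-1, fun _ _ => 0), (0, un 0), (0, un 1), (0, un 2), (0, un 3)}

/-- explicit list of the tuples of weight one, odd case -/
def F11 : Finset (ℤ × (Fin 4 → Fin 1 → ℕ)) :=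
  {(0, un 0), (0, un 1), (0, un 2), (0, un 3), (-1, un 0), (-1, un 1), (-1, un 2), (-1, un 3)}

lemma un_of {f : Fin 4 → Fin 1 → ℕ} (h : f 0 0 + f 1 0 + f 2 0 + f 3 0 = 1) :
    f = un 0 ∨ f = un 1 ∨ f = un 2 ∨ f = un 3 := by
  have key : ∀ g : Fin 4 → Fin 1 → ℕ, f 0 0 = g 0 0 → f 1 0 = g 1 0 → f 2 0 = g 2 0 →
      f 3 0 = g 3 0 → f = g := by
    intro g h0 h1 h2 h3
    funext i
    fin_cases i
    · exact fin1_ext h0
    · exact fin1_ext h1
    · exact fin1_ext h2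
    · exact fin1_ext h3
  rcases (show (f 0 0 = 1 ∧ f 1 0 = 0 ∧ f 2 0 = 0 ∧ f 3 0 = 0) ∨
      (f 0 0 = 0 ∧ f 1 0 = 1 ∧ f 2 0 = 0 ∧ f 3 0 = 0) ∨
      (f 0 0 = 0 ∧ f 1 0 = 0 ∧ f 2 0 = 1 ∧ f 3 0 = 0) ∨
      (f 0 0 = 0 ∧ f 1 0 = 0 ∧ f 2 0 = 0 ∧ f 3 0 = 1) by omega) with
    ⟨h0, h1, h2, h3⟩ | ⟨h0, h1, h2, h3⟩ | ⟨h0, h1, h2, h3⟩ | ⟨h0, h1, h2, h3⟩
  · left; exact key _ h0 h1 h2 h3
  · right; left; exact key _ h0 h1 h2 h3
  · right; right; left; exact key _ h0 h1 h2 h3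
  · right; right; right; exact key _ h0 h1 h2 h3

lemma z_of {f : Fin 4 → Fin 1 → ℕ} (h : f 0 0 + f 1 0 + f 2 0 + f 3 0 = 0) :
    f = fun _ _ => 0 := by
  funext i
  apply fin1_ext
  fin_cases i
  · change f 0 0 = 0; omega
  · change f 1 0 = 0; omega
  · change f 2 0 = 0; omega
  · change f 3 0 = 0; omega

lemma T01 : T 0 1 = (F01 : Set (ℤ × (Fin 4 → Fin 1 → ℕ))) := by
  ext ⟨k, f⟩
  simp only [T, Set.mem_ofPred_eq, wt1, Fin.sum_univ_four, F01, mem_coe, mem_insert,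
    mem_singleton, Prod.mk.injEq]
  constructor
  · intro h
    push_cast at h
    have hk : k * k ≤ 1 := by
      have h0 : (0 : ℤ) ≤ (f 0 0 : ℤ) + f 1 0 + f 2 0 + f 3 0 := by positivity
      linarith
    have hk1 : k ≤ 1 := by nlinarith
    have hk2 : -1 ≤ k := by nlinarith
    rcases (show k = -1 ∨ k = 0 ∨ k = 1 by omega) with rfl | rfl | rfl
    · have := z_of (f := f) (by omega)
      simp [this]
    · have := un_of (f := f) (by omega)
      simpa using this
    · have := z_of (f := f) (by omega)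
      simp [this]
  · rintro (⟨rfl, rfl⟩ | ⟨rfl, rfl⟩ | ⟨rfl, rfl⟩ | ⟨rfl, rfl⟩ | ⟨rfl, rfl⟩ | ⟨rfl, rfl⟩) <;>
      simp [un]

lemma T11 : T 1 1 = (F11 : Set (ℤ × (Fin 4 → Fin 1 → ℕ))) := by
  ext ⟨k, f⟩
  simp only [T, Set.mem_ofPred_eq, wt1, Fin.sum_univ_four, F11, mem_coe, mem_insert,
    mem_singleton, Prod.mk.injEq]
  constructor
  · intro h
    push_cast at h
    have hk : k * (k + 1) ≤ 1 := by
      have h0 : (0 : ℤ) ≤ (f 0 0 : ℤ) + f 1 0 + f 2 0 + f 3 0 := by positivity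
      linarith
    have hk1 : k ≤ 0 := by
      by_contra h1
      nlinarith
    have hk2 : -1 ≤ k := by
      by_contra h1
      nlinarith
    rcases (show k = -1 ∨ k = 0 by omega) with rfl | rfl
    · have := un_of (f := f) (by omega)
      simpa using this
    · have := un_of (f := f) (by omega)
      simpa using this
  · rintro (⟨rfl, rfl⟩ | ⟨rfl, rfl⟩ | ⟨rfl, rfl⟩ | ⟨rfl, rfl⟩ | ⟨rfl, rfl⟩ | ⟨rfl, rfl⟩ |
      ⟨rfl, rfl⟩ | ⟨rfl, rfl⟩) <;>
      simp [un]

lemma t01 : t 0 1 = 6 := by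
  unfold t
  rw [T01, Set.ncard_coe_finset]
  decide

lemma t11 : t 1 1 = 8 := by
  unfold t
  rw [T11, Set.ncard_coe_finset]
  decide

/-- the two limit laws are different -/
theorem L_ne {q : ℝ} (hq : 1 < q) : ¬ (L q 0 0 = L q 1 0 ∧ L q 0 1 = L q 1 1) := by
  have hx0 : 0 < q⁻¹ := inv_pos.mpr (by linarith)
  have hx1 : q⁻¹ < 1 := inv_lt_one_of_one_lt₀ hq
  have h0 := Th_pos hx0 hx1 (ε := 0) (by norm_num)
  have h1 := Th_pos hx0 hx1 (ε := 1) (by norm_num)
  rintro ⟨h2, h3⟩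
  unfold L at h2 h3
  rw [t00, t10] at h2
  rw [t01, t11] at h3
  rw [div_eq_div_iff h0.ne' h1.ne'] at h2 h3
  simp only [pow_zero, pow_one, mul_one, Nat.cast_one, one_mul, Nat.cast_ofNat] at h2 h3
  rw [h2] at h3
  nlinarith [mul_pos hx0 h0]

/-- **There is no limit law along all half-perimeters.** -/
theorem no_common {q : ℝ} (hq : 1 < q) : ¬ ∃ P : ℕ → ℝ, ∀ d,
    Tendsto (fun m => prob q m (m * m / 4 - d)) atTop (𝓝 (P d)) := by
  rintro ⟨P, hP⟩
  have key : ∀ ε : ℕ, ε ≤ 1 → ∀ d, L q ε d = P d := by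
    intro ε hε d
    have h1 := lim_law hq hε d
    have h2 : Tendsto (fun l : ℕ => 2 * l + ε) atTop atTop :=
      tendsto_atTop_mono (fun l => by simp only [id]; omega) tendsto_id
    exact tendsto_nhds_unique h1 ((hP d).comp h2)
  apply L_ne hq
  rw [key 0 (by norm_num), key 1 (by norm_num), key 0 (by norm_num), key 1 (by norm_num)]
  exact ⟨rfl, rfl⟩

end Run7.h529.AL
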