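import Pool.Agent.Run7.h529.AL.Lp

/-!
The number of enclosed unit squares is given by Green's formula.
-/

set_option autoImplicit false
set_option linter.unusedSimpArgs false
set_option linter.unusedVariables false

namespace Run7.h529.AL

open Finset

/-- edge set of a path with `n` steps -/
def edges (n : ℕ) (ω : ℕ → ℤ × ℤ) : Set (Sym2 (ℤ × ℤ)) := {e | ∃ k, k < n ∧ e = s(ω k, ω (k + 1))}

/-- the unit square with lower left corner `c` is enclosed by `P` -/
def Encl (P : Set (Sym2 (ℤ × ℤ))) (c : ℤ × ℤ) : Prop :=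
  Odd {h : ℤ | c.2 < h ∧ s((c.1, h), (c.1 + 1, h)) ∈ P}.ncard

/-- the number of enclosed unit squares -/
noncomputable def area (P : Set (Sym2 (ℤ × ℤ))) : ℕ := {c : ℤ × ℤ | Encl P c}.ncard

/-- Green's sum -/
def grn (n : ℕ) (ω : ℕ → ℤ × ℤ) : ℤ := ∑ k ∈ range n, (ω k).2 * ((ω (k + 1)).1 - (ω k).1)

/-- horizontal step in column `i` above `j` -/
def HC (ω : ℕ → ℤ × ℤ) (i j : ℤ) (k : ℕ) : Prop :=
  (((ω k).1 = i ∧ (ω (k + 1)).1 = i + 1) ∨ ((ω k).1 = i + 1 ∧ (ω (k + 1)).1 = i)) ∧ j < (ω k).2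

instance (ω : ℕ → ℤ × ℤ) (i j : ℤ) (k : ℕ) : Decidable (HC ω i j k) := by
  unfold HC; infer_instance

lemma hc_cases {n : ℕ} {ω : ℕ → ℤ × ℤ} (h : IsLoop n ω) {i j : ℤ} {k : ℕ} (hk : HC ω i j k) :
    (ω k = (i, (ω k).2) ∧ ω (k + 1) = (i + 1, (ω k).2)) ∨
      (ω k = (i + 1, (ω k).2) ∧ ω (k + 1) = (i, (ω k).2)) := by
  obtain ⟨h1, h2⟩ := hk
  have hc := (h.adj k).cases
  generalize ω k = a at *
  generalize ω (k + 1) = b at *
  obtain ⟨a1, a2⟩ := a
  dsimp only at *
  rcases hc with rfl | rfl | rfl | rfl <;> simp at h1 ⊢ <;> omega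

lemma hc_inj {n : ℕ} {ω : ℕ → ℤ × ℤ} (h : IsLoop n ω) (hn : 3 ≤ n) {i j : ℤ} {k l : ℕ}
    (hk : k < n) (hl : l < n) (h1 : HC ω i j k) (h2 : HC ω i j l) (he : (ω k).2 = (ω l).2) :
    k = l := by
  have key : ∀ k l, ω k = ω (l + 1) → ω (k + 1) = ω l → False := by
    intro k l h3 h4
    have e3 : k + 1 ≡ l + 1 + 1 [MOD n] := Nat.ModEq.add_right 1 (h.eq_mod (by omega) h3)
    have : ω (k + 1) = ω (l + 2) := by
      rw [← h.mod (k + 1), ← h.mod (l + 2)]
      congr 1
    exact h.ne_two hn l (by rw [← this, h4])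
  rcases hc_cases h h1 with ⟨a1, a2⟩ | ⟨a1, a2⟩ <;> rcases hc_cases h h2 with ⟨b1, b2⟩ | ⟨b1, b2⟩
  · exact h.inj k l hk hl (by rw [a1, b1, he])
  · exact (key k l (by rw [a1, b2, he]) (by rw [a2, b1, he])).elim
  · exact (key k l (by rw [a1, b2, he]) (by rw [a2, b1, he])).elim
  · exact h.inj k l hk hl (by rw [a1, b1, he])

lemma encl_iff {n : ℕ} {ω : ℕ → ℤ × ℤ} (h : IsLoop n ω) (hn : 3 ≤ n) (i j : ℤ) :
    Encl (edges n ω) (i, j) ↔ Odd (wnd n ω i j) := by
  have h1 : {t : ℤ | j < t ∧ s((i, t), (i + 1, t)) ∈ edges n ω} =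
      (((range n).filter (HC ω i j)).image (fun k => (ω k).2) : Finset ℤ) := by
    ext t
    simp only [Set.mem_ofPred_eq, coe_image, Set.mem_image, mem_coe, mem_filter, mem_range, edges]
    constructor
    · rintro ⟨ht, k, hk, he⟩
      rw [Sym2.eq_iff] at he
      rcases he with ⟨e1, e2⟩ | ⟨e1, e2⟩
      · exact ⟨k, ⟨hk, Or.inl ⟨by rw [← e1], by rw [← e2]⟩, by rw [← e1]; exact ht⟩,
          by rw [← e1]⟩
      · exact ⟨k, ⟨hk, Or.inr ⟨by rw [← e2], by rw [← e1]⟩, by rw [← e2]; exact ht⟩,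
          by rw [← e2]⟩
    · rintro ⟨k, ⟨hk, hc⟩, rfl⟩
      refine ⟨hc.2, k, hk, ?_⟩
      rcases hc_cases h hc with ⟨a1, a2⟩ | ⟨a1, a2⟩
      · rw [a2]; conv_rhs => rw [a1]
      · rw [a2]; conv_rhs => rw [a1]
        rw [Sym2.eq_swap]
  have h2 : (((range n).filter (HC ω i j)).image (fun k => (ω k).2)).card =
      ((range n).filter (HC ω i j)).card := by
    apply card_image_of_injOn
    intro k hk l hl he
    rw [mem_coe, mem_filter, mem_range] at hk hl
    exact hc_inj h hn hk.1 hl.1 hk.2 hl.2 he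
  unfold Encl
  dsimp only
  rw [h1, Set.ncard_coe_finset, h2]
  have h3 : (2 : ℤ) ∣ wnd n ω i j - ((range n).filter (HC ω i j)).card := by
    rw [card_filter]
    push_cast
    unfold wnd
    rw [← sum_sub_distrib]
    apply dvd_sum
    intro k _
    unfold kp HC
    split_ifs <;> omega
  have h4 : Odd ((range n).filter (HC ω i j)).card ↔
      Odd ((((range n).filter (HC ω i j)).card : ℕ) : ℤ) := by
    rw [Int.odd_coe_nat]
  rw [h4]
  generalize (((range n).filter (HC ω i j)).card : ℤ) = c at *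
  generalize wnd n ω i j = w at *
  rw [Int.odd_iff, Int.odd_iff]
  omega

lemma wnd_low {n : ℕ} {ω : ℕ → ℤ × ℤ} (h : IsLoop n ω) {i j : ℤ} (hj : ∀ k, j < (ω k).2) :
    wnd n ω i j = 0 := by
  have h1 : ∀ k ∈ range n, kp (ω k) (ω (k + 1)) i j =
      ((if i + 1 ≤ (ω k).1 then (1 : ℤ) else 0) - (if i + 1 ≤ (ω (k + 1)).1 then (1 : ℤ) else 0)) := by
    intro k _
    have h2 := hj k
    have hc := (h.adj k).cases
    generalize ω k = a at *
    generalize ω (k + 1) = b at *
    obtain ⟨a1, a2⟩ := a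
    unfold kp
    rcases hc with rfl | rfl | rfl | rfl <;> dsimp only at * <;> split_ifs <;> omega
  unfold wnd
  rw [sum_congr rfl h1, Finset.sum_range_sub' (fun k => if i + 1 ≤ (ω k).1 then (1 : ℤ) else 0)]
  have h2 : ω n = ω 0 := by have := h.per 0; rwa [zero_add] at this
  rw [h2, sub_self]

lemma cnt (M : ℕ) {t : ℤ} (h1 : -(M : ℤ) ≤ t) (h2 : t ≤ M) :
    ∑ j ∈ Ico (-(M : ℤ)) M, (if j < t then (1 : ℤ) else 0) = t + M := by
  rw [sum_boole]
  have : (Ico (-(M : ℤ)) M).filter (fun j => j < t) = Ico (-(M : ℤ)) t := by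
    ext j
    simp only [mem_filter, mem_Ico]
    omega
  rw [this, Int.card_Ico]
  rw [Int.toNat_of_nonneg (by omega)]
  ring

lemma step_sum {M : ℕ} {a b : ℤ × ℤ} (hc : Adj a b) (ha : |a.1| ≤ M ∧ |a.2| ≤ M)
    (hb : |b.1| ≤ M ∧ |b.2| ≤ M) :
    ∑ i ∈ Icc (-(M : ℤ)) M, ∑ j ∈ Ico (-(M : ℤ)) M, kp a b i j = -((b.1 - a.1) * (a.2 + M)) := by
  have h1 := abs_le.mp ha.1
  have h2 := abs_le.mp ha.2
  have h3 := abs_le.mp hb.1
  have h4 : ∀ i ∈ Icc (-(M : ℤ)) M, ∑ j ∈ Ico (-(M : ℤ)) M, kp a b i j =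
      (if i = b.1 then (if a.1 = b.1 + 1 then a.2 + M else 0) else 0) -
        (if i = a.1 then (if b.1 = a.1 + 1 then a.2 + M else 0) else 0) := by
    intro i _
    unfold kp
    rw [sum_sub_distrib]
    congr 1
    · by_cases h5 : i = b.1
      · subst h5
        by_cases h6 : a.1 = b.1 + 1
        · rw [if_pos rfl, if_pos h6, ← cnt M h2.1 h2.2]
          apply sum_congr rfl
          intro j _
          simp [h6]
        · rw [if_pos rfl, if_neg h6]
          apply sum_eq_zero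
          intro j _
          rw [if_neg (fun h => h6 h.1)]
      · rw [if_neg h5]
        apply sum_eq_zero
        intro j _
        rw [if_neg (fun h => h5 h.2.1.symm)]
    · by_cases h5 : i = a.1
      · subst h5
        by_cases h6 : b.1 = a.1 + 1
        · rw [if_pos rfl, if_pos h6, ← cnt M h2.1 h2.2]
          apply sum_congr rfl
          intro j _
          simp [h6]
        · rw [if_pos rfl, if_neg h6]
          apply sum_eq_zero
          intro j _
          rw [if_neg (fun h => h6 h.2.1)]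
      · rw [if_neg h5]
        apply sum_eq_zero
        intro j _
        rw [if_neg (fun h => h5 h.1.symm)]
  rw [sum_congr rfl h4, sum_sub_distrib, sum_ite_eq', sum_ite_eq',
    if_pos (mem_Icc.mpr h3), if_pos (mem_Icc.mpr h1)]
  rcases hc.cases with rfl | rfl | rfl | rfl <;> dsimp only
  · rw [if_neg (by omega), if_pos (by omega)]; ring
  · rw [if_pos (by omega), if_neg (by omega)]; ring
  · rw [if_neg (by omega)]; ring
  · rw [if_neg (by omega)]; ring

/-- **Green's formula.** -/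
theorem area_eq {n : ℕ} {ω : ℕ → ℤ × ℤ} (h : IsLoop n ω) (hn : 3 ≤ n) :
    (area (edges n ω) : ℤ) = |grn n ω| := by
  obtain ⟨M, hM⟩ := exists_box h (by omega)
  have h0 : ω n = ω 0 := by have := h.per 0; rwa [zero_add] at this
  -- total winding
  have hS : ∑ c ∈ Icc (-(M : ℤ)) M ×ˢ Ico (-(M : ℤ)) M, wnd n ω c.1 c.2 = - grn n ω := by
    rw [sum_product]
    unfold wnd
    have e1 : ∑ i ∈ Icc (-(M : ℤ)) M, ∑ j ∈ Ico (-(M : ℤ)) M, ∑ k ∈ range n,
        kp (ω k) (ω (k + 1)) i j =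
        ∑ k ∈ range n, ∑ i ∈ Icc (-(M : ℤ)) M, ∑ j ∈ Ico (-(M : ℤ)) M,
          kp (ω k) (ω (k + 1)) i j := by
      exact (sum_congr rfl (fun i _ => sum_comm)).trans sum_comm
    rw [e1, sum_congr rfl (fun k _ => step_sum (h.adj k) (hM k) (hM (k + 1)))]
    unfold grn
    rw [sum_neg_distrib]
    congr 1
    have e2 : ∀ k ∈ range n, ((ω (k + 1)).1 - (ω k).1) * ((ω k).2 + M) =
        (ω k).2 * ((ω (k + 1)).1 - (ω k).1) + M * ((ω (k + 1)).1 - (ω k).1) := by
      intro k _; ring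
    rw [sum_congr rfl e2, sum_add_distrib, ← mul_sum,
      Finset.sum_range_sub (fun k => (ω k).1), h0, sub_self, mul_zero, add_zero]
  -- the enclosed cells lie in the box
  have hA : {c : ℤ × ℤ | Encl (edges n ω) c} =
      ((Icc (-(M : ℤ)) M ×ˢ Ico (-(M : ℤ)) M).filter
        (fun c : ℤ × ℤ => Odd (wnd n ω c.1 c.2)) : Finset (ℤ × ℤ)) := by
    ext c
    obtain ⟨i, j⟩ := c
    rw [Set.mem_ofPred_eq, encl_iff h hn, mem_coe, mem_filter, mem_product, mem_Icc, mem_Ico]
    constructor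
    · intro ho
      have hne : wnd n ω i j ≠ 0 := by
        intro h5
        rw [h5] at ho
        simp at ho
      refine ⟨⟨⟨?_, ?_⟩, ⟨?_, ?_⟩⟩, ho⟩
      · by_contra h6
        apply hne
        unfold wnd
        apply sum_eq_zero
        intro k _
        have e1 := abs_le.mp (hM k).1
        have e2 := abs_le.mp (hM (k + 1)).1
        dsimp only at h6
        unfold kp
        rw [if_neg (by omega), if_neg (by omega), sub_zero]
      · by_contra h6
        apply hne
        unfold wnd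
        apply sum_eq_zero
        intro k _
        have e1 := abs_le.mp (hM k).1
        have e2 := abs_le.mp (hM (k + 1)).1
        dsimp only at h6
        unfold kp
        rw [if_neg (by omega), if_neg (by omega), sub_zero]
      · by_contra h6
        apply hne
        apply wnd_low h
        intro k
        have e1 := abs_le.mp (hM k).2
        dsimp only at h6
        omega
      · by_contra h6
        apply hne
        apply wnd_high
        intro k
        have e1 := abs_le.mp (hM k).2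
        dsimp only at h6
        omega
    · exact fun h5 => h5.2
  have hN : (area (edges n ω) : ℤ) = ∑ c ∈ Icc (-(M : ℤ)) M ×ˢ Ico (-(M : ℤ)) M,
      (if Odd (wnd n ω c.1 c.2) then (1 : ℤ) else 0) := by
    unfold area
    rw [hA, Set.ncard_coe_finset, card_filter]
    push_cast
    rfl
  have hpos : (0 : ℤ) ≤ area (edges n ω) := Int.natCast_nonneg _
  rcases lw_mem h hn with hl | hl
  · have e3 : (area (edges n ω) : ℤ) = grn n ω := by
      rw [hN, ← neg_neg (grn n ω), ← hS, ← sum_neg_distrib]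
      apply sum_congr rfl
      intro c _
      have := wnd_mem h hn c.1 c.2
      rw [hl] at this
      rcases this with h5 | h5 | h5 <;> rw [h5] <;> decide
    rw [e3] at hpos ⊢
    exact (abs_of_nonneg hpos).symm
  · have e3 : (area (edges n ω) : ℤ) = - grn n ω := by
      rw [hN, ← hS]
      apply sum_congr rfl
      intro c _
      have := wnd_mem h hn c.1 c.2
      rw [hl] at this
      rcases this with h5 | h5 | h5 <;> rw [h5] <;> decide
    rw [e3] at hpos ⊢
    rw [← abs_neg]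
    exact (abs_of_nonneg hpos).symm

end Run7.h529.AL
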