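import Pool.Agent.Run7.h529.AL.Tot

/-!
Simple closed lattice paths, the winding number of the cells.
-/

set_option autoImplicit false
set_option linter.unusedSimpArgs false
set_option linter.unusedVariables false
set_option linter.unusedTactic false

namespace Run7.h529.AL

open Finset

/-- nearest neighbours in the square lattice -/
def Adj (u v : ℤ × ℤ) : Prop := |u.1 - v.1| + |u.2 - v.2| = 1

/-- simple closed path with `n` steps, written as a periodic sequence -/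
structure IsLoop (n : ℕ) (ω : ℕ → ℤ × ℤ) : Prop where
  per : ∀ i, ω (i + n) = ω i
  adj : ∀ i, Adj (ω i) (ω (i + 1))
  inj : ∀ i j, i < n → j < n → ω i = ω j → i = j

lemma Adj.symm {u v : ℤ × ℤ} (h : Adj u v) : Adj v u := by
  unfold Adj at h ⊢
  rw [abs_sub_comm v.1, abs_sub_comm v.2]; exact h

lemma Adj.cases {u v : ℤ × ℤ} (h : Adj u v) :
    v = (u.1 + 1, u.2) ∨ v = (u.1 - 1, u.2) ∨ v = (u.1, u.2 + 1) ∨ v = (u.1, u.2 - 1) := by
  obtain ⟨a, b⟩ := u
  obtain ⟨c, d⟩ := v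
  unfold Adj at h
  simp only [Prod.mk.injEq] at *
  rcases abs_cases (a - c) with h1 | h1 <;> rcases abs_cases (b - d) with h2 | h2 <;> omega

namespace IsLoop

variable {n : ℕ} {ω : ℕ → ℤ × ℤ}

lemma mod (h : IsLoop n ω) (i : ℕ) : ω (i % n) = ω i := by
  conv_rhs => rw [← Nat.mod_add_div i n]
  generalize i / n = t
  induction t with
  | zero => simp
  | succ t ih => rw [Nat.mul_succ, ← add_assoc, h.per, ih]

lemma eq_mod (h : IsLoop n ω) (hn : 0 < n) {i j : ℕ} (he : ω i = ω j) : i % n = j % n := by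
  rw [← h.mod i, ← h.mod j] at he
  exact h.inj _ _ (Nat.mod_lt _ hn) (Nat.mod_lt _ hn) he

lemma shift (h : IsLoop n ω) (s : ℕ) (hn : 0 < n) : IsLoop n (fun i => ω (s + i)) where
  per i := by rw [← add_assoc]; exact h.per _
  adj i := by rw [← add_assoc]; exact h.adj _
  inj i j hi hj he := by
    have := h.eq_mod hn he
    have h2 : i ≡ j [MOD n] := Nat.ModEq.add_left_cancel' s this
    rw [Nat.ModEq, Nat.mod_eq_of_lt hi, Nat.mod_eq_of_lt hj] at h2
    exact h2

lemma ne_two (h : IsLoop n ω) (hn : 3 ≤ n) (i : ℕ) : ω i ≠ ω (i + 2) := by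
  intro he
  have h1 := h.eq_mod (by omega) he
  have h2 : i + 0 ≡ i + 2 [MOD n] := h1
  have h3 := Nat.ModEq.add_left_cancel' i h2
  rw [Nat.ModEq, Nat.mod_eq_of_lt (by omega), Nat.mod_eq_of_lt (by omega)] at h3
  omega

end IsLoop

/-- signed number of uses of the edge from `p` to `r` -/
def flw (n : ℕ) (ω : ℕ → ℤ × ℤ) (p r : ℤ × ℤ) : ℤ :=
  ∑ k ∈ range n, ((if ω k = p ∧ ω (k + 1) = r then 1 else 0) -
    (if ω k = r ∧ ω (k + 1) = p then 1 else 0))

/-- contribution of one step to the winding number of the cell with lower left corner `(i, j)` -/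
def kp (a b : ℤ × ℤ) (i j : ℤ) : ℤ :=
  (if a.1 = i + 1 ∧ b.1 = i ∧ j < a.2 then 1 else 0) -
    (if a.1 = i ∧ b.1 = i + 1 ∧ j < a.2 then 1 else 0)

/-- winding number of a cell -/
def wnd (n : ℕ) (ω : ℕ → ℤ × ℤ) (i j : ℤ) : ℤ := ∑ k ∈ range n, kp (ω k) (ω (k + 1)) i j

lemma wnd_vert {n : ℕ} {ω : ℕ → ℤ × ℤ} (h : IsLoop n ω) (i j : ℤ) :
    wnd n ω i j - wnd n ω i (j - 1) = flw n ω (i, j) (i + 1, j) := by
  unfold wnd flw
  rw [← sum_sub_distrib]
  apply sum_congr rfl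
  intro k _
  have ha := (h.adj k).cases
  generalize ω k = a at *
  generalize ω (k + 1) = b at *
  obtain ⟨a1, a2⟩ := a
  unfold kp
  rcases ha with rfl | rfl | rfl | rfl <;> simp only [Prod.mk.injEq] <;>
    split_ifs <;> omega

lemma wnd_horiz {n : ℕ} {ω : ℕ → ℤ × ℤ} (h : IsLoop n ω) (i j : ℤ) :
    wnd n ω (i - 1) j - wnd n ω i j = flw n ω (i, j) (i, j + 1) := by
  have h1 : ∀ k ∈ range n, kp (ω k) (ω (k + 1)) (i - 1) j - kp (ω k) (ω (k + 1)) i j =
      ((if ω k = (i, j) ∧ ω (k + 1) = (i, j + 1) then 1 else 0) -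
        (if ω k = (i, j + 1) ∧ ω (k + 1) = (i, j) then 1 else 0)) +
      ((if (ω k).1 = i ∧ j < (ω k).2 then (1 : ℤ) else 0) -
        (if (ω (k + 1)).1 = i ∧ j < (ω (k + 1)).2 then (1 : ℤ) else 0)) := by
    intro k _
    have ha := (h.adj k).cases
    generalize ω k = a at *
    generalize ω (k + 1) = b at *
    obtain ⟨a1, a2⟩ := a
    unfold kp
    rcases ha with rfl | rfl | rfl | rfl <;> simp only [Prod.mk.injEq] <;>
      split_ifs <;> omega
  unfold wnd flw
  rw [← sum_sub_distrib, sum_congr rfl h1, sum_add_distrib,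
    Finset.sum_range_sub' (fun k => if (ω k).1 = i ∧ j < (ω k).2 then (1 : ℤ) else 0)]
  have h2 : ω n = ω 0 := by have := h.per 0; rwa [zero_add] at this
  rw [h2, sub_self, add_zero]

lemma flw_zero {n : ℕ} {ω : ℕ → ℤ × ℤ} {p r : ℤ × ℤ}
    (h1 : ∀ k, ¬ (ω k = p ∧ ω (k + 1) = r)) (h2 : ∀ k, ¬ (ω k = r ∧ ω (k + 1) = p)) :
    flw n ω p r = 0 := by
  unfold flw
  apply sum_eq_zero
  intro k _
  rw [if_neg (h1 k), if_neg (h2 k), sub_zero]

lemma flw_one {n : ℕ} {ω : ℕ → ℤ × ℤ} (h : IsLoop n ω) (hn : 3 ≤ n) (k : ℕ) :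
    flw n ω (ω k) (ω (k + 1)) = 1 := by
  unfold flw
  have hk : k % n < n := Nat.mod_lt _ (by omega)
  rw [sum_eq_single (k % n)]
  · have e1 : ω (k % n) = ω k := h.mod k
    have e2 : ω (k % n + 1) = ω (k + 1) := by
      rw [← h.mod (k % n + 1), ← h.mod (k + 1)]
      congr 1
      simp [Nat.add_mod]
    rw [e1, e2, if_pos ⟨rfl, rfl⟩, if_neg, sub_zero]
    rintro ⟨h3, h4⟩
    have := (h.adj k).cases
    rw [← h3] at this
    generalize ω k = a at *
    obtain ⟨a1, a2⟩ := a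
    simp at this
    omega
  · intro j hj hjk
    rw [mem_range] at hj
    have h1 : ¬ (ω j = ω k ∧ ω (j + 1) = ω (k + 1)) := by
      rintro ⟨h3, -⟩
      have := h.eq_mod (by omega) h3
      rw [Nat.mod_eq_of_lt hj] at this
      exact hjk this
    have h2 : ¬ (ω j = ω (k + 1) ∧ ω (j + 1) = ω k) := by
      rintro ⟨h3, h4⟩
      have e3 : j + 1 ≡ k + 1 + 1 [MOD n] := Nat.ModEq.add_right 1 (h.eq_mod (by omega) h3)
      have e4 : j + 1 ≡ k [MOD n] := h.eq_mod (by omega) h4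
      have e5 : k + 2 ≡ k + 0 [MOD n] := e3.symm.trans e4
      have e6 := Nat.ModEq.add_left_cancel' k e5
      rw [Nat.ModEq, Nat.mod_eq_of_lt (by omega), Nat.mod_eq_of_lt (by omega)] at e6
      omega
    rw [if_neg h1, if_neg h2, sub_zero]
  · intro h3
    exact absurd (mem_range.mpr hk) h3

lemma flw_symm (n : ℕ) (ω : ℕ → ℤ × ℤ) (p r : ℤ × ℤ) : flw n ω r p = - flw n ω p r := by
  unfold flw
  rw [← sum_neg_distrib]
  apply sum_congr rfl
  intro k _
  ring

/-- the cell to the left of a step -/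
def lc (a b : ℤ × ℤ) : ℤ × ℤ :=
  if b.1 = a.1 + 1 then (a.1, a.2) else if b.1 = a.1 - 1 then (a.1 - 1, a.2 - 1)
    else if b.2 = a.2 + 1 then (a.1 - 1, a.2) else (a.1, a.2 - 1)

/-- the cell to the right of a step -/
def rc (a b : ℤ × ℤ) : ℤ × ℤ :=
  if b.1 = a.1 + 1 then (a.1, a.2 - 1) else if b.1 = a.1 - 1 then (a.1 - 1, a.2)
    else if b.2 = a.2 + 1 then (a.1, a.2) else (a.1 - 1, a.2 - 1)

lemma left_right {n : ℕ} {ω : ℕ → ℤ × ℤ} (h : IsLoop n ω) (hn : 3 ≤ n) (k : ℕ) :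
    wnd n ω (lc (ω k) (ω (k + 1))).1 (lc (ω k) (ω (k + 1))).2 =
      wnd n ω (rc (ω k) (ω (k + 1))).1 (rc (ω k) (ω (k + 1))).2 + 1 := by
  have h1 := flw_one h hn k
  have hc := (h.adj k).cases
  have hv := wnd_vert h
  have hh := wnd_horiz h
  generalize ω k = a at *
  generalize ω (k + 1) = b at *
  obtain ⟨a1, a2⟩ := a
  rcases hc with rfl | rfl | rfl | rfl
  · simp only [lc, rc, if_true]
    have := hv a1 a2
    rw [h1] at this
    linarith
  · have e1 : ¬ (a1 - 1 = a1 + 1) := by omega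
    simp only [lc, rc, if_neg e1, if_true]
    have := hv (a1 - 1) a2
    rw [flw_symm, sub_add_cancel, h1] at this
    linarith
  · have e1 : ¬ (a1 = a1 + 1) := by omega
    have e2 : ¬ (a1 = a1 - 1) := by omega
    simp only [lc, rc, if_neg e1, if_neg e2, if_true]
    have := hh a1 a2
    rw [h1] at this
    linarith
  · have e1 : ¬ (a1 = a1 + 1) := by omega
    have e2 : ¬ (a1 = a1 - 1) := by omega
    have e3 : ¬ (a2 - 1 = a2 + 1) := by omega
    simp only [lc, rc, if_neg e1, if_neg e2, if_neg e3]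
    have := hh a1 (a2 - 1)
    rw [flw_symm, sub_add_cancel, h1] at this
    linarith

lemma left_const_step {n : ℕ} {ω : ℕ → ℤ × ℤ} (h : IsLoop n ω) (hn : 3 ≤ n) (k : ℕ) :
    wnd n ω (lc (ω k) (ω (k + 1))).1 (lc (ω k) (ω (k + 1))).2 =
      wnd n ω (lc (ω (k + 1)) (ω (k + 2))).1 (lc (ω (k + 1)) (ω (k + 2))).2 := by
  have hz : ∀ p, p ≠ ω k → p ≠ ω (k + 2) → flw n ω (ω (k + 1)) p = 0 := by
    intro p h1 h2
    apply flw_zero
    · rintro j ⟨h3, h4⟩
      have e3 : j + 1 ≡ k + 1 + 1 [MOD n] := Nat.ModEq.add_right 1 (h.eq_mod (by omega) h3)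
      apply h2
      rw [← h4, ← h.mod (j + 1), ← h.mod (k + 2)]
      congr 1
    · rintro j ⟨h3, h4⟩
      have e3 : j + 1 ≡ k + 1 [MOD n] := h.eq_mod (by omega) h4
      have e4 : j ≡ k [MOD n] := Nat.ModEq.add_right_cancel' 1 e3
      apply h1
      rw [← h3, ← h.mod j, ← h.mod k]
      congr 1
  have hne := h.ne_two hn k
  have hc1 := (h.adj k).symm.cases
  have hc2 := (h.adj (k + 1)).cases
  rw [show k + 1 + 1 = k + 2 from rfl] at hc2
  have hv := wnd_vert h
  have hh := wnd_horiz h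
  generalize ω (k + 1) = v at *
  generalize ω k = a at *
  generalize ω (k + 2) = c at *
  obtain ⟨v1, v2⟩ := v
  have r1 := hh v1 v2
  have r2 := hh v1 (v2 - 1)
  have r3 := hv v1 v2
  have r4 := hv (v1 - 1) v2
  rw [sub_add_cancel, flw_symm] at r2
  rw [sub_add_cancel, flw_symm] at r4
  have zN := hz (v1, v2 + 1)
  have zS := hz (v1, v2 - 1)
  have zE := hz (v1 + 1, v2)
  have zW := hz (v1 - 1, v2)
  clear hz hv hh
  dsimp only at hc1 hc2
  generalize flw n ω (v1, v2) (v1, v2 + 1) = fN at *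
  generalize flw n ω (v1, v2) (v1, v2 - 1) = fS at *
  generalize flw n ω (v1, v2) (v1 + 1, v2) = fE at *
  generalize flw n ω (v1, v2) (v1 - 1, v2) = fW at *
  have c1 : ¬ (v1 = v1 + 1) := by omega
  have c2 : ¬ (v1 = v1 - 1) := by omega
  have c3 : ¬ (v2 = v2 + 1) := by omega
  have c4 : ¬ (v2 = v2 - 1) := by omega
  have c5 : ¬ (v1 + 1 = v1 - 1) := by omega
  have c6 : ¬ (v2 + 1 = v2 - 1) := by omega
  have c7 : ¬ (v1 - 1 = v1 + 1) := by omega
  have c8 : ¬ (v2 - 1 = v2 + 1) := by omega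
  have c9 : ¬ (v1 = v1 + 1 + 1) := by omega
  have c10 : ¬ (v2 = v2 + 1 + 1) := by omega
  rcases hc1 with rfl | rfl | rfl | rfl <;> rcases hc2 with rfl | rfl | rfl | rfl <;>
    simp [c1, c2, c3, c4, c5, c6, c7, c8] at hne zN zS zE zW <;>
    simp [lc, c1, c2, c3, c4, c5, c6, c7, c8, c9, c10] <;>
    linarith

lemma left_const {n : ℕ} {ω : ℕ → ℤ × ℤ} (h : IsLoop n ω) (hn : 3 ≤ n) (k : ℕ) :
    wnd n ω (lc (ω k) (ω (k + 1))).1 (lc (ω k) (ω (k + 1))).2 =
      wnd n ω (lc (ω 0) (ω 1)).1 (lc (ω 0) (ω 1)).2 := by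
  induction k with
  | zero => rfl
  | succ k ih => rw [← ih]; exact (left_const_step h hn k).symm

/-- winding number to the left of the path -/
def lw (n : ℕ) (ω : ℕ → ℤ × ℤ) : ℤ := wnd n ω (lc (ω 0) (ω 1)).1 (lc (ω 0) (ω 1)).2

/-- a bound for the coordinates -/
lemma exists_box {n : ℕ} {ω : ℕ → ℤ × ℤ} (h : IsLoop n ω) (hn : 0 < n) :
    ∃ M : ℕ, ∀ k, |(ω k).1| ≤ M ∧ |(ω k).2| ≤ M := by
  refine ⟨∑ k ∈ range n, ((ω k).1.natAbs + (ω k).2.natAbs), fun k => ?_⟩
  rw [← h.mod k]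
  have h1 : (ω (k % n)).1.natAbs + (ω (k % n)).2.natAbs ≤
      ∑ k ∈ range n, ((ω k).1.natAbs + (ω k).2.natAbs) :=
    single_le_sum (f := fun k => (ω k).1.natAbs + (ω k).2.natAbs) (fun _ _ => Nat.zero_le _)
      (mem_range.mpr (Nat.mod_lt k hn))
  constructor
  · rw [Int.abs_eq_natAbs]
    exact_mod_cast (by omega : (ω (k % n)).1.natAbs ≤ _)
  · rw [Int.abs_eq_natAbs]
    exact_mod_cast (by omega : (ω (k % n)).2.natAbs ≤ _)

lemma wnd_high {n : ℕ} {ω : ℕ → ℤ × ℤ} {i j : ℤ} (h : ∀ k, (ω k).2 ≤ j) : wnd n ω i j = 0 := by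
  unfold wnd
  apply sum_eq_zero
  intro k _
  have := h k
  unfold kp
  rw [if_neg (by omega), if_neg (by omega), sub_zero]

/-- all winding numbers are `0`, `L` or `L - 1` -/
lemma wnd_mem {n : ℕ} {ω : ℕ → ℤ × ℤ} (h : IsLoop n ω) (hn : 3 ≤ n) (i j : ℤ) :
    wnd n ω i j = 0 ∨ wnd n ω i j = lw n ω ∨ wnd n ω i j = lw n ω - 1 := by
  obtain ⟨M, hM⟩ := exists_box h (by omega)
  have key : ∀ d : ℕ, ∀ j : ℤ, j = M - d →
      wnd n ω i j = 0 ∨ wnd n ω i j = lw n ω ∨ wnd n ω i j = lw n ω - 1 := by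
    intro d
    induction d with
    | zero =>
      intro j hj
      left
      apply wnd_high
      intro k
      have := abs_le.mp (hM k).2
      simp at hj
      omega
    | succ d ih =>
      intro j hj
      have ih' := ih (j + 1) (by rw [hj]; push_cast; ring)
      have hv := wnd_vert h i (j + 1)
      rw [add_sub_cancel_right] at hv
      by_cases h1 : ∃ k, ω k = (i, j + 1) ∧ ω (k + 1) = (i + 1, j + 1)
      · obtain ⟨k, h2, h3⟩ := h1
        have h4 := left_right h hn k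
        have h5 := left_const h hn k
        rw [← lw] at h5
        have e1 : lc (ω k) (ω (k + 1)) = (i, j + 1) := by rw [h2, h3]; simp [lc]
        have e2 : rc (ω k) (ω (k + 1)) = (i, j) := by rw [h2, h3]; simp [rc]
        rw [e1] at h4 h5
        rw [e2] at h4
        dsimp only at h4 h5
        right; right
        linarith
      · by_cases h6 : ∃ k, ω k = (i + 1, j + 1) ∧ ω (k + 1) = (i, j + 1)
        · obtain ⟨k, h2, h3⟩ := h6
          have h5 := left_const h hn k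
          rw [← lw] at h5
          have c1 : ¬ (i = i + 1 + 1) := by omega
          have e1 : lc (ω k) (ω (k + 1)) = (i, j) := by rw [h2, h3]; simp [lc, c1]
          rw [e1] at h5
          right; left
          exact h5
        · rw [flw_zero (fun k hk => h1 ⟨k, hk⟩) (fun k hk => h6 ⟨k, hk⟩)] at hv
          have : wnd n ω i j = wnd n ω i (j + 1) := by linarith
          rw [this]
          exact ih'
  rcases le_total (M : ℤ) j with hj | hj
  · left
    apply wnd_high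
    intro k
    have := abs_le.mp (hM k).2
    omega
  · exact key (M - j).toNat j (by rw [Int.toNat_of_nonneg (by omega)]; ring)

/-- the winding number to the left is `0` or `1` -/
lemma lw_mem {n : ℕ} {ω : ℕ → ℤ × ℤ} (h : IsLoop n ω) (hn : 3 ≤ n) :
    lw n ω = 0 ∨ lw n ω = 1 := by
  -- a vertex of largest height
  obtain ⟨k0, hk0, hmax⟩ := exists_max_image (range n) (fun k => (ω k).2)
    ⟨0, mem_range.mpr (by omega)⟩
  have hmax' : ∀ j, (ω j).2 ≤ (ω k0).2 := by
    intro j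
    rw [← h.mod j]
    exact hmax _ (mem_range.mpr (Nat.mod_lt _ (by omega)))
  -- write it as `k + 1`
  obtain ⟨k, hk⟩ : ∃ k, ω (k + 1) = ω k0 := ⟨k0 + n - 1, by
    rw [show k0 + n - 1 + 1 = k0 + n by omega]; exact h.per k0⟩
  rw [← hk] at hmax'
  have hne := h.ne_two hn k
  have hc1 := (h.adj k).symm.cases
  have hc2 := (h.adj (k + 1)).cases
  rw [show k + 1 + 1 = k + 2 from rfl] at hc2
  have hl1 := left_const h hn k
  have hl2 := left_const h hn (k + 1)
  have hr1 := left_right h hn k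
  have hr2 := left_right h hn (k + 1)
  rw [← lw] at hl1 hl2
  rw [show k + 1 + 1 = k + 2 from rfl] at hl2 hr2
  have hz : ∀ i, wnd n ω i (ω (k + 1)).2 = 0 := fun i => wnd_high hmax'
  have hm1 := hmax' k
  have hm2 := hmax' (k + 2)
  clear hmax' hmax hk
  generalize ω (k + 1) = v at *
  generalize ω k = a at *
  generalize ω (k + 2) = c at *
  obtain ⟨v1, v2⟩ := v
  dsimp only at hc1 hc2 hz hm1 hm2
  have c1 : ¬ (v1 = v1 + 1) := by omega
  have c2 : ¬ (v1 = v1 - 1) := by omega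
  have c3 : ¬ (v2 = v2 + 1) := by omega
  have c4 : ¬ (v2 = v2 - 1) := by omega
  have c5 : ¬ (v1 + 1 = v1 - 1) := by omega
  have c6 : ¬ (v2 + 1 = v2 - 1) := by omega
  have c7 : ¬ (v1 - 1 = v1 + 1) := by omega
  have c8 : ¬ (v2 - 1 = v2 + 1) := by omega
  have c9 : ¬ (v1 = v1 + 1 + 1) := by omega
  have c10 : ¬ (v2 = v2 + 1 + 1) := by omega
  rcases hc1 with rfl | rfl | rfl | rfl
  · -- the step into `v` goes to the west
    simp [lc, rc, c9] at hl1 hr1
    have := hz v1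
    right; linarith
  · simp [lc, rc] at hl1 hr1
    have := hz (v1 - 1)
    left; linarith
  · simp at hm1
  · rcases hc2 with rfl | rfl | rfl | rfl
    · simp [lc, rc] at hl2 hr2
      have := hz v1
      left; linarith
    · simp [lc, rc, c7] at hl2 hr2
      have := hz (v1 - 1)
      right; linarith
    · simp at hm2
    · simp at hne

end Run7.h529.AL
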