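import Pool.Agent.Run7.h529.AL.Ct

/-!
The limit law of the deficit.
-/

set_option autoImplicit false
set_option linter.unusedSimpArgs false
set_option linter.unusedVariables false

namespace Run7.h529.AL

open Finset Filter Topology MeasureTheory

/-- number of polygons with deficit `e` -/
noncomputable def r (m e : ℕ) : ℕ := if e ≤ m * m / 4 then p m (m * m / 4 - e) else 0

/-- number of tuples with weight `d` -/
noncomputable def t (ε d : ℕ) : ℕ := (T ε d).ncard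

lemma T_finite {ε d : ℕ} (hε : ε ≤ 1) : (T ε d).Finite := by
  apply ((Set.finite_Icc (-(d + 1) : ℤ) (d + 1)).prod (Set.Finite.pi' (fun _ : Fin 4 =>
    Set.Finite.pi' (fun _ : Fin d => Set.finite_Iic d)))).subset
  intro x hx
  have hk := abs_le.mp (T_k hε hx)
  have hw := T_wt hε hx
  have h1 : ∀ i, wt (x.2 i) ≤ d := by
    intro i
    fin_cases i
    · change wt (x.2 0) ≤ d; omega
    · change wt (x.2 1) ≤ d; omega
    · change wt (x.2 2) ≤ d; omega
    · change wt (x.2 3) ≤ d; omega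
  refine ⟨⟨hk.1, hk.2⟩, fun i j => ?_⟩
  refine le_trans ?_ (h1 i)
  have h2 : ((j : ℕ) + 1) * x.2 i j ≤ wt (x.2 i) :=
    single_le_sum (f := fun z : Fin d => ((z : ℕ) + 1) * x.2 i z) (fun _ _ => Nat.zero_le _)
      (mem_univ j)
  refine le_trans ?_ h2
  exact Nat.le_mul_of_pos_left _ (Nat.succ_pos _)

lemma r_eq {ε d l : ℕ} (hε : ε ≤ 1) (hl : 4 * d + 4 ≤ l) : r (2 * l + ε) d = t ε d := by
  unfold r t
  have hll := Nat.le_mul_self l
  rw [if_pos (by rw [quarter hε]; omega), p_eq_T hε hl]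

lemma tsum_r (m : ℕ) (g : ℕ → ℝ) : ∑' e, (r m e : ℝ) * g e =
    ∑ n ∈ range (m * m / 4 + 1), (p m n : ℝ) * g (m * m / 4 - n) := by
  rw [tsum_eq_sum (s := range (m * m / 4 + 1)), ← sum_range_reflect]
  · apply sum_congr rfl
    intro n hn
    rw [mem_range] at hn
    unfold r
    rw [if_pos (by omega)]
    congr 2
    · congr 1
      omega
  · intro e he
    rw [mem_range, not_lt] at he
    unfold r
    rw [if_neg (by omega)]
    simp

lemma r_bound {y : ℝ} (h0 : 0 < y) (h1 : y < 1) :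
    ∃ C : ℝ, 0 < C ∧ ∀ m e : ℕ, (r m e : ℝ) * y ^ e ≤ C := by
  obtain ⟨C, hC, hb⟩ := gen_bound h0 h1
  refine ⟨C, hC, fun m e => ?_⟩
  unfold r
  split_ifs with h
  · have h2 := single_le_sum (f := fun n => (p m n : ℝ) * y ^ (m * m / 4 - n))
      (s := range (m * m / 4 + 1)) (fun _ _ => by positivity)
      (mem_range.mpr (show m * m / 4 - e < m * m / 4 + 1 by omega))
    have e1 : m * m / 4 - (m * m / 4 - e) = e := by omega
    rw [e1] at h2
    exact h2.trans (hb m)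
  · simp [hC.le]

lemma t_bound {y : ℝ} (h0 : 0 < y) (h1 : y < 1) :
    ∃ C : ℝ, 0 < C ∧ ∀ ε e : ℕ, ε ≤ 1 → (t ε e : ℝ) * y ^ e ≤ C := by
  obtain ⟨C, hC, hb⟩ := r_bound h0 h1
  refine ⟨C, hC, fun ε e hε => ?_⟩
  rw [← r_eq hε (le_refl (4 * e + 4))]
  exact hb _ _

/-- dominated convergence -/
lemma conv {ε : ℕ} (hε : ε ≤ 1) {y K : ℝ} (h0 : 0 < y) (h1 : y < 1) {g : ℕ → ℝ}
    (hg : ∀ e, |g e| ≤ K * y ^ e) :
    Tendsto (fun l => ∑' e, (r (2 * l + ε) e : ℝ) * g e) atTop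
      (𝓝 (∑' e, (t ε e : ℝ) * g e)) ∧ Summable (fun e => (t ε e : ℝ) * g e) := by
  obtain ⟨z, hz0, hz1, hz2⟩ : ∃ z : ℝ, 0 < z ∧ z < 1 ∧ y = z * z := by
    refine ⟨√y, Real.sqrt_pos.mpr h0, ?_, (Real.mul_self_sqrt h0.le).symm⟩
    rw [Real.sqrt_lt' (by norm_num)]
    simpa using h1
  have hK : 0 ≤ K := by
    have := (abs_nonneg _).trans (hg 0)
    simpa using this
  obtain ⟨C, hC, hb⟩ := r_bound hz0 hz1
  obtain ⟨C', hC', hb'⟩ := t_bound hz0 hz1
  have gen : ∀ (c : ℝ) (B : ℝ) (e : ℕ), 0 ≤ c → c * z ^ e ≤ B → |c * g e| ≤ B * K * z ^ e := by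
    intro c B e hc hB
    rw [abs_mul, abs_of_nonneg hc]
    calc c * |g e| ≤ c * (K * y ^ e) := mul_le_mul_of_nonneg_left (hg e) hc
      _ = (c * z ^ e) * (K * z ^ e) := by rw [hz2, mul_pow]; ring
      _ ≤ B * (K * z ^ e) := mul_le_mul_of_nonneg_right hB (by positivity)
      _ = _ := by ring
  have hs : ∀ B : ℝ, Summable (fun e : ℕ => B * K * z ^ e) := fun B =>
    (summable_geometric_of_lt_one hz0.le hz1).mul_left _
  constructor
  · apply tendsto_tsum_of_dominated_convergence (hs C)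
    · intro e
      apply tendsto_const_nhds.congr'
      filter_upwards [eventually_ge_atTop (4 * e + 4)] with l hl
      rw [r_eq hε hl]
    · filter_upwards with l
      intro e
      rw [Real.norm_eq_abs]
      exact gen _ _ _ (Nat.cast_nonneg _) (hb _ _)
  · apply Summable.of_norm_bounded (hs C')
    intro e
    rw [Real.norm_eq_abs]
    exact gen _ _ _ (Nat.cast_nonneg _) (hb' _ _ hε)

lemma t_zero {ε : ℕ} (hε : ε ≤ 1) : 1 ≤ t ε 0 := by
  rw [← r_eq hε (le_refl (4 * 0 + 4))]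
  unfold r
  rw [if_pos (Nat.zero_le _)]
  exact p_max (by omega)

/-- normalisation of the limit law -/
noncomputable def Th (x : ℝ) (ε : ℕ) : ℝ := ∑' e, (t ε e : ℝ) * x ^ e

/-- the limit law -/
noncomputable def L (q : ℝ) (ε d : ℕ) : ℝ := (t ε d : ℝ) * q⁻¹ ^ d / Th q⁻¹ ε

lemma Th_sum {x : ℝ} (h0 : 0 < x) (h1 : x < 1) {ε : ℕ} (hε : ε ≤ 1) :
    Summable (fun e => (t ε e : ℝ) * x ^ e) :=
  (conv hε h0 h1 (K := 1) (g := fun e => x ^ e)
    (fun e => by rw [abs_of_nonneg (by positivity), one_mul])).2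

lemma Th_pos {x : ℝ} (h0 : 0 < x) (h1 : x < 1) {ε : ℕ} (hε : ε ≤ 1) : 0 < Th x ε := by
  have h2 := (Th_sum h0 h1 hε).le_tsum 0 (fun e _ => by positivity)
  have h3 : (1 : ℝ) ≤ t ε 0 := by exact_mod_cast t_zero hε
  rw [pow_zero, mul_one] at h2
  unfold Th
  linarith

lemma Z_r {q : ℝ} (hq : 0 < q) (m : ℕ) :
    Z q m = q ^ (m * m / 4) * ∑' e, (r m e : ℝ) * q⁻¹ ^ e := by
  rw [tsum_r m (fun e => q⁻¹ ^ e), Z_eq, mul_sum]
  apply sum_congr rfl
  intro n hn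
  rw [mem_range] at hn
  have e1 : q ^ (m * m / 4) = q ^ n * q ^ (m * m / 4 - n) := by
    rw [← pow_add]; congr 1; omega
  rw [e1, inv_pow]
  field_simp

lemma E_r {q : ℝ} (hq : 0 < q) {m : ℕ} (hm : 2 ≤ m) (g : ℕ → ℝ) :
    ∑' n, prob q m n * g (m * m / 4 - n) =
      (∑' e, (r m e : ℝ) * (q⁻¹ ^ e * g e)) / ∑' e, (r m e : ℝ) * q⁻¹ ^ e := by
  have hZ := Z_pos hq hm
  have hR : 0 < ∑' e, (r m e : ℝ) * q⁻¹ ^ e := by
    rw [Z_r hq] at hZ
    exact pos_of_mul_pos_right hZ (by positivity)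
  rw [tsum_p (fun n hn => by rw [prob_zero hn]; simp), eq_div_iff hR.ne',
    tsum_r m (fun e => q⁻¹ ^ e * g e), sum_mul]
  apply sum_congr rfl
  intro n hn
  rw [mem_range] at hn
  unfold prob
  rw [Z_r hq]
  have e1 : q ^ (m * m / 4) = q ^ n * q ^ (m * m / 4 - n) := by
    rw [← pow_add]; congr 1; omega
  rw [e1]
  generalize ∑' e, (r m e : ℝ) * q⁻¹ ^ e = R at *
  rw [inv_pow]
  field_simp

/-- **Convergence of the expectations of functions of the deficit.** -/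
theorem lim_E {q : ℝ} (hq : 1 < q) {ε : ℕ} (hε : ε ≤ 1) {s K : ℝ} (hs0 : 0 < s) (hs : s < q)
    {g : ℕ → ℝ} (hg : ∀ e, |g e| ≤ K * s ^ e) :
    Tendsto (fun l => ∑' n, prob q (2 * l + ε) n * g ((2 * l + ε) * (2 * l + ε) / 4 - n)) atTop
      (𝓝 (∑' e, L q ε e * g e)) ∧ Summable (fun e => L q ε e * g e) := by
  have hq0 : 0 < q := by linarith
  have hx0 : 0 < q⁻¹ := inv_pos.mpr hq0
  have hx1 : q⁻¹ < 1 := inv_lt_one_of_one_lt₀ hq
  have hy1 : q⁻¹ * s < 1 := by rw [inv_mul_lt_iff₀ hq0, mul_one]; exact hs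
  obtain ⟨c1, c2⟩ := conv hε (y := q⁻¹ * s) (K := K) (by positivity) hy1
    (g := fun e => q⁻¹ ^ e * g e) (fun e => by
      rw [abs_mul, abs_of_nonneg (by positivity), mul_pow]
      calc q⁻¹ ^ e * |g e| ≤ q⁻¹ ^ e * (K * s ^ e) :=
            mul_le_mul_of_nonneg_left (hg e) (by positivity)
        _ = _ := by ring)
  obtain ⟨c3, -⟩ := conv hε (K := 1) hx0 hx1 (g := fun e => q⁻¹ ^ e)
    (fun e => by rw [abs_of_nonneg (by positivity), one_mul])
  have hT := Th_pos hx0 hx1 hε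
  have e1 : ∀ e, L q ε e * g e = (t ε e : ℝ) * (q⁻¹ ^ e * g e) / Th q⁻¹ ε := by
    intro e
    unfold L
    ring
  constructor
  · simp_rw [e1]
    rw [tsum_div_const]
    apply (c1.div c3 hT.ne').congr'
    filter_upwards [eventually_ge_atTop 1] with l hl
    rw [E_r hq0 (by omega)]
    rfl
  · simp_rw [e1]
    exact c2.div_const _

/-- **The limit law.** -/
theorem lim_law {q : ℝ} (hq : 1 < q) {ε : ℕ} (hε : ε ≤ 1) (d : ℕ) :
    Tendsto (fun l => prob q (2 * l + ε) ((2 * l + ε) * (2 * l + ε) / 4 - d)) atTop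
      (𝓝 (L q ε d)) := by
  obtain ⟨h1, -⟩ := lim_E hq hε (s := 1) (K := 1) (by norm_num) hq
    (g := fun e => if e = d then 1 else 0) (fun e => by split_ifs <;> simp)
  have e1 : ∑' e, L q ε e * (if e = d then (1 : ℝ) else 0) = L q ε d := by
    rw [tsum_eq_single d]
    · simp
    · intro e he
      rw [if_neg he, mul_zero]
  rw [e1] at h1
  apply h1.congr'
  filter_upwards [eventually_ge_atTop (d + 1)] with l hl
  have hll := Nat.le_mul_self l
  have hM := quarter (l := l) hε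
  have hdM : d ≤ (2 * l + ε) * (2 * l + ε) / 4 := by omega
  rw [tsum_eq_single ((2 * l + ε) * (2 * l + ε) / 4 - d)]
  · rw [if_pos (by omega), mul_one]
  · intro n hn
    by_cases h2 : (2 * l + ε) * (2 * l + ε) / 4 < n
    · rw [prob_zero (p_zero h2), zero_mul]
    · rw [if_neg (by omega), mul_zero]

lemma L_nonneg {q : ℝ} (hq : 1 < q) {ε : ℕ} (hε : ε ≤ 1) (d : ℕ) : 0 ≤ L q ε d := by
  have hx0 : 0 < q⁻¹ := inv_pos.mpr (by linarith)
  have := Th_pos hx0 (inv_lt_one_of_one_lt₀ hq) hε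
  unfold L
  positivity

lemma L_hasSum {q : ℝ} (hq : 1 < q) {ε : ℕ} (hε : ε ≤ 1) : HasSum (L q ε) 1 := by
  have hx0 : 0 < q⁻¹ := inv_pos.mpr (by linarith)
  have hx1 : q⁻¹ < 1 := inv_lt_one_of_one_lt₀ hq
  have h1 := (Th_sum hx0 hx1 hε).hasSum.div_const (Th q⁻¹ ε)
  have h2 : (∑' e, (t ε e : ℝ) * q⁻¹ ^ e) / Th q⁻¹ ε = 1 :=
    div_self (Th_pos hx0 hx1 hε).ne'
  rw [h2] at h1
  exact h1

end Run7.h529.AL
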