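import Pool.Agent.Run7.h529.AL.Sd

/-!
The standardised area has no limit law along all half-perimeters.
-/

set_option autoImplicit false
set_option linter.unusedSimpArgs false
set_option linter.unusedVariables false

namespace Run7.h529.AL

open Finset Filter Topology MeasureTheory

/-- distribution function of the standardised limit law -/
noncomputable def Fs (q : ℝ) (ε : ℕ) (τ : ℝ) : ℝ :=
  ∑' e : ℕ, if (mu q ε - e) / √(sq q ε) ≤ τ then L q ε e else 0

lemma step_val {w : ℕ → ℝ} (hw : HasSum w 1) (k : ℕ) {P : ℕ → Prop} [DecidablePred P]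
    (hP : ∀ e, P e ↔ k ≤ e) : ∑' e, (if P e then w e else 0) = 1 - ∑ i ∈ range k, w i := by
  have h1 : HasSum (fun e => if e < k then w e else 0) (∑ i ∈ range k, w i) := by
    have h2 := hasSum_sum_of_ne_finset_zero (s := range k) (f := fun e => if e < k then w e else 0)
      (L := SummationFilter.unconditional ℕ)
      (fun e he => by rw [mem_range] at he; rw [if_neg he])
    have h3 : ∑ i ∈ range k, (if i < k then w i else 0) = ∑ i ∈ range k, w i :=
      sum_congr rfl fun i hi => by rw [if_pos (mem_range.mp hi)]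
    rw [h3] at h2
    exact h2
  have h4 := hw.sub h1
  rw [← h4.tsum_eq]
  apply tsum_congr
  intro e
  by_cases he : k ≤ e
  · rw [if_pos ((hP e).mpr he), if_neg (by omega), sub_zero]
  · rw [if_neg (fun h => he ((hP e).mp h)), if_pos (by omega), sub_self]

lemma Fs_val {q : ℝ} (hq : 1 < q) {ε : ℕ} (hε : ε ≤ 1) (k : ℕ) {τ : ℝ}
    (h1 : (mu q ε - k) / √(sq q ε) ≤ τ) (h2 : ∀ j : ℕ, j + 1 = k → τ < (mu q ε - j) / √(sq q ε)) :
    Fs q ε τ = 1 - ∑ i ∈ range k, L q ε i := by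
  have hσ : 0 < √(sq q ε) := Real.sqrt_pos.mpr (sq_pos' hq hε)
  unfold Fs
  apply step_val (L_hasSum hq hε) k
  intro e
  rw [div_le_iff₀ hσ] at h1 ⊢
  constructor
  · intro h
    by_contra hk
    rw [not_le] at hk
    obtain ⟨j, rfl⟩ : ∃ j, k = j + 1 := ⟨k - 1, by omega⟩
    have h3 := h2 j rfl
    rw [lt_div_iff₀ hσ] at h3
    have h4 : (e : ℝ) ≤ j := by exact_mod_cast Nat.lt_succ_iff.mp hk
    linarith
  · intro h
    have h4 : (k : ℝ) ≤ e := by exact_mod_cast h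
    linarith

/-- the standardised limit laws of even and odd half-perimeters are different -/
lemma Fs_ne {q : ℝ} (hq : 1 < q) {C : Set ℝ} (hC : C.Countable) :
    ¬ ∀ τ, τ ∉ C → Fs q 0 τ = Fs q 1 τ := by
  intro h
  have hd : Dense Cᶜ := hC.dense_compl ℝ
  -- the two laws
  have pick : ∀ a b : ℝ, a < b → ∃ τ, τ ∉ C ∧ a < τ ∧ τ < b := by
    intro a b hab
    obtain ⟨τ, h1, h2, h3⟩ := hd.exists_between hab
    exact ⟨τ, h1, h2, h3⟩
  have h' : ∀ ε ε' : ℕ, ε ≤ 1 → ε' ≤ 1 → ∀ τ, τ ∉ C → Fs q ε τ = Fs q ε' τ := by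
    intro ε ε' hε hε' τ hτ
    rcases Nat.le_one_iff_eq_zero_or_eq_one.mp hε with rfl | rfl <;>
      rcases Nat.le_one_iff_eq_zero_or_eq_one.mp hε' with rfl | rfl
    · rfl
    · exact h τ hτ
    · exact (h τ hτ).symm
    · rfl
  obtain ⟨a, ha⟩ : ∃ a : ℕ → ℕ → ℝ, ∀ ε j, a ε j = (mu q ε - j) / √(sq q ε) :=
    ⟨fun ε j => (mu q ε - j) / √(sq q ε), fun _ _ => rfl⟩
  have hσ : ∀ ε, ε ≤ 1 → 0 < √(sq q ε) := fun ε hε => Real.sqrt_pos.mpr (sq_pos' hq hε)
  have hdec : ∀ ε, ε ≤ 1 → ∀ j, a ε (j + 1) < a ε j := by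
    intro ε hε j
    rw [ha, ha, div_lt_div_iff_of_pos_right (hσ ε hε)]
    push_cast
    linarith
  have v0 : ∀ ε, ε ≤ 1 → ∀ τ, a ε 0 ≤ τ → Fs q ε τ = 1 := by
    intro ε hε τ h1
    rw [Fs_val hq hε 0 (by rw [← ha]; exact h1) (fun j hj => by omega)]
    simp
  have vs : ∀ ε, ε ≤ 1 → ∀ k τ, a ε (k + 1) ≤ τ → τ < a ε k →
      Fs q ε τ = 1 - ∑ i ∈ range (k + 1), L q ε i := by
    intro ε hε k τ h1 h2
    rw [Fs_val hq hε (k + 1) (by rw [← ha]; exact h1) (fun j hj => by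
      have : j = k := by omega
      rw [this, ← ha]; exact h2)]
  have p0 : ∀ ε, ε ≤ 1 → 0 < L q ε 0 := fun ε hε => L_pos hq hε (t_zero hε)
  have p1 : ∀ ε, ε ≤ 1 → 0 < L q ε 1 := fun ε hε => L_pos hq hε (t_one hε)
  -- step 1
  have s1 : ∀ ε ε', ε ≤ 1 → ε' ≤ 1 → a ε' 0 ≤ a ε 0 := by
    intro ε ε' hε hε'
    by_contra hlt
    rw [not_le] at hlt
    obtain ⟨τ, t1, t2, t3⟩ := pick (max (a ε 0) (a ε' 1)) (a ε' 0)
      (max_lt hlt (hdec ε' hε' 0))
    have e1 := v0 ε hε τ ((le_max_left _ _).trans t2.le)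
    have e2 := vs ε' hε' 0 τ ((le_max_right _ _).trans t2.le) t3
    rw [h' ε ε' hε hε' τ t1, e2] at e1
    simp at e1
    have := p0 ε' hε'
    linarith
  have a0 : a 0 0 = a 1 0 := le_antisymm (s1 1 0 (by norm_num) (by norm_num))
    (s1 0 1 (by norm_num) (by norm_num))
  -- step 2
  have l0 : L q 0 0 = L q 1 0 := by
    obtain ⟨τ, t1, t2, t3⟩ := pick (max (a 0 1) (a 1 1)) (a 0 0)
      (max_lt (hdec 0 (by norm_num) 0) (by rw [a0]; exact hdec 1 (by norm_num) 0))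
    have e1 := vs 0 (by norm_num) 0 τ ((le_max_left _ _).trans t2.le) t3
    have e2 := vs 1 (by norm_num) 0 τ ((le_max_right _ _).trans t2.le) (by rw [← a0]; exact t3)
    rw [h τ t1, e2] at e1
    simp at e1
    linarith
  have l0' : ∀ ε ε', ε ≤ 1 → ε' ≤ 1 → L q ε 0 = L q ε' 0 := by
    intro ε ε' hε hε'
    rcases Nat.le_one_iff_eq_zero_or_eq_one.mp hε with rfl | rfl <;>
      rcases Nat.le_one_iff_eq_zero_or_eq_one.mp hε' with rfl | rfl
    · rfl
    · exact l0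
    · exact l0.symm
    · rfl
  -- step 3
  have s2 : ∀ ε ε', ε ≤ 1 → ε' ≤ 1 → a ε' 1 ≤ a ε 1 := by
    intro ε ε' hε hε'
    by_contra hlt
    rw [not_le] at hlt
    obtain ⟨τ, t1, t2, t3⟩ := pick (max (a ε 1) (a ε' 2)) (a ε' 1)
      (max_lt hlt (hdec ε' hε' 1))
    have e1 := vs ε hε 0 τ ((le_max_left _ _).trans t2.le)
      (t3.trans (lt_of_lt_of_le (hdec ε' hε' 0) (s1 ε ε' hε hε')))
    have e2 := vs ε' hε' 1 τ ((le_max_right _ _).trans t2.le) t3
    rw [h' ε ε' hε hε' τ t1, e2] at e1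
    simp [sum_range_succ] at e1
    have h3 := l0' ε ε' hε hε'
    have := p1 ε' hε'
    linarith
  have a1 : a 0 1 = a 1 1 := le_antisymm (s2 1 0 (by norm_num) (by norm_num))
    (s2 0 1 (by norm_num) (by norm_num))
  -- step 4
  obtain ⟨τ, t1, t2, t3⟩ := pick (max (a 0 2) (a 1 2)) (a 0 1)
    (max_lt (hdec 0 (by norm_num) 1) (by rw [a1]; exact hdec 1 (by norm_num) 1))
  have e1 := vs 0 (by norm_num) 1 τ ((le_max_left _ _).trans t2.le) t3
  have e2 := vs 1 (by norm_num) 1 τ ((le_max_right _ _).trans t2.le) (by rw [← a1]; exact t3)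
  rw [h τ t1, e2] at e1
  simp [sum_range_succ] at e1
  exact L_ne hq ⟨l0, by linarith⟩

/-- **The standardised area does not converge in distribution.** -/
theorem no_std {q : ℝ} (hq : 1 < q) (ν : Measure ℝ) [IsProbabilityMeasure ν] :
    ¬ ∀ τ : ℝ, ν {τ} = 0 → Tendsto (fun m => ∑' n : ℕ,
      if ((n : ℝ) - mean q m) / √(var q m) ≤ τ then prob q m n else 0) atTop
      (𝓝 (ν.real (Set.Iic τ))) := by
  intro h
  obtain ⟨C, hC⟩ : ∃ C : Set ℝ, C = {τ | ν {τ} ≠ 0} ∪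
    (Set.range (fun e : ℕ => (mu q 0 - e) / √(sq q 0)) ∪
      Set.range (fun e : ℕ => (mu q 1 - e) / √(sq q 1))) := ⟨_, rfl⟩
  have hcount : C.Countable := by
    rw [hC]
    apply Set.Countable.union _ ((Set.countable_range _).union (Set.countable_range _))
    have := Measure.countable_meas_pos_of_disjoint_iUnion (μ := ν) (As := fun τ : ℝ => {τ})
      (fun τ => measurableSet_singleton τ) (fun a b hab => by
        simpa [Function.onFun] using hab)
    apply this.mono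
    intro τ hτ
    exact pos_iff_ne_zero.mpr hτ
  apply Fs_ne hq hcount
  intro τ hτ
  rw [hC] at hτ
  simp only [Set.mem_union, not_or, Set.mem_ofPred_eq, not_not, Set.mem_range, not_exists] at hτ
  obtain ⟨h1, h2, h3⟩ := hτ
  have h4 := h τ h1
  have key : ∀ ε : ℕ, ε ≤ 1 → (∀ e : ℕ, (mu q ε - e) / √(sq q ε) ≠ τ) →
      Fs q ε τ = ν.real (Set.Iic τ) := by
    intro ε hε hne
    have h5 := std_lim hq hε τ hne
    have h6 : Tendsto (fun l : ℕ => 2 * l + ε) atTop atTop :=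
      tendsto_atTop_mono (fun l => by simp only [id]; omega) tendsto_id
    exact tendsto_nhds_unique h5 (h4.comp h6)
  rw [key 0 (by norm_num) h2, key 1 (by norm_num) h3]

end Run7.h529.AL
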