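import Pool.Agent.Run7.h529.AL.Su

/-!
Reversal, rotation, the loops with a given set of edges, canonical loops.
-/

set_option autoImplicit false
set_option linter.unusedSimpArgs false
set_option linter.unusedVariables false

namespace Run7.h529.AL

open Finset

/-! ### reversal -/

/-- opposite letter -/
def ng : St → St
  | St.E => St.W
  | St.W => St.E
  | St.N => St.S
  | St.S => St.N

lemma ng_dx (s : St) : (ng s).dx = - s.dx := by cases s <;> rfl
lemma ng_dy (s : St) : (ng s).dy = - s.dy := by cases s <;> rfl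

/-- the reversed word -/
def rv (w : List St) : List St := (w.map ng).reverse

lemma rv_cons (s : St) (w : List St) : rv (s :: w) = rv w ++ [ng s] := by simp [rv]

lemma Y_rv (w : List St) : Y (rv w) = - Y w := by
  induction w with
  | nil => simp [rv]
  | cons s w ih => rw [rv_cons, Y_append, ih, Y_cons, Y_cons, ng_dy, Y_nil]; ring

lemma A_rv (y : ℤ) (w : List St) : A (y + Y w) (rv w) = - A y w := by
  induction w generalizing y with
  | nil => simp [rv]
  | cons s w ih =>
    have h := ih (y + s.dy)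
    rw [rv_cons, A_append, Y_cons, ← add_assoc, h, Y_rv, A_cons, A_cons, A_nil, ng_dx]
    cases s <;> simp [St.dx, St.dy] <;> ring

lemma st_ng {u v : ℤ × ℤ} (h : Adj u v) : st v u = ng (st u v) := by
  apply st_eq
  · rw [ng_dx, st_dx h]; ring
  · rw [ng_dy, st_dy h]; ring

/-- the reversed loop -/
def rl (n : ℕ) (ω : ℕ → ℤ × ℤ) (k : ℕ) : ℤ × ℤ := ω ((n - 1) * k)

namespace IsLoop

variable {n : ℕ} {ω : ℕ → ℤ × ℤ}

lemma add_mul (h : IsLoop n ω) (j t : ℕ) : ω (j + n * t) = ω j := by
  rw [← h.mod (j + n * t), Nat.add_mul_mod_self_left, h.mod]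

lemma rl (h : IsLoop n ω) (hn : 1 ≤ n) : IsLoop n (rl n ω) where
  per i := by
    change ω ((n - 1) * (i + n)) = ω ((n - 1) * i)
    rw [mul_add, mul_comm (n - 1) n]
    exact h.add_mul _ _
  adj i := by
    change Adj (ω ((n - 1) * i)) (ω ((n - 1) * (i + 1)))
    rw [mul_add, mul_one]
    have h1 := h.adj ((n - 1) * i + (n - 1))
    rw [add_assoc, Nat.sub_add_cancel hn, h.per] at h1
    exact h1.symm
  inj i j hi hj he := by
    have h1 : (n - 1) * i ≡ (n - 1) * j [MOD n] := h.eq_mod (by omega) he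
    have h2 : (n - 1) * i + (i + j) ≡ (n - 1) * j + (i + j) [MOD n] := Nat.ModEq.add_right _ h1
    have e1 : (n - 1) * i + (i + j) = j + n * i := by
      obtain ⟨k, rfl⟩ : ∃ k, n = k + 1 := ⟨n - 1, by omega⟩
      rw [Nat.add_sub_cancel]; ring
    have e2 : (n - 1) * j + (i + j) = i + n * j := by
      obtain ⟨k, rfl⟩ : ∃ k, n = k + 1 := ⟨n - 1, by omega⟩
      rw [Nat.add_sub_cancel]; ring
    rw [e1, e2, Nat.ModEq, Nat.add_mul_mod_self_left, Nat.add_mul_mod_self_left,
      Nat.mod_eq_of_lt hi, Nat.mod_eq_of_lt hj] at h2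
    exact h2.symm

end IsLoop

lemma rl_eq {n : ℕ} {ω : ℕ → ℤ × ℤ} (h : IsLoop n ω) {k : ℕ} (hk : k ≤ n) :
    rl n ω k = ω (n - k) := by
  unfold rl
  rcases Nat.eq_zero_or_pos k with rfl | h0
  · have := h.per 0
    rw [zero_add] at this
    rw [mul_zero, Nat.sub_zero, this]
  · have e : (n - 1) * k = (n - k) + n * (k - 1) := by
      obtain ⟨j, rfl⟩ : ∃ j, k = j + 1 := ⟨k - 1, by omega⟩
      obtain ⟨r, rfl⟩ := Nat.exists_eq_add_of_le hk
      rw [Nat.add_sub_cancel, Nat.add_sub_cancel_left, show j + 1 + r - 1 = j + r by omega]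
      ring
    rw [e, h.add_mul]

lemma wd_rl {n : ℕ} {ω : ℕ → ℤ × ℤ} (h : IsLoop n ω) : wd n (rl n ω) = rv (wd n ω) := by
  apply List.ext_getElem
  · simp [rv, wd]
  · intro k h1 h2
    rw [wd_length] at h1
    have e1 : (wd n (rl n ω))[k] = st (rl n ω k) (rl n ω (k + 1)) := by simp [wd]
    have e2 : (rv (wd n ω))[k] = ng (st (ω (n - 1 - k)) (ω (n - 1 - k + 1))) := by
      simp [rv, wd]
    rw [e1, e2, rl_eq h h1.le, rl_eq h (show k + 1 ≤ n by omega),
      show n - k = n - 1 - k + 1 by omega, show n - (k + 1) = n - 1 - k by omega]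
    exact st_ng (h.adj _)

lemma edges_rl {n : ℕ} {ω : ℕ → ℤ × ℤ} (h : IsLoop n ω) (hn : 2 ≤ n) :
    edges n (rl n ω) = edges n ω := by
  ext e
  rw [mem_edges (h.rl (by omega)) (by omega), mem_edges h (by omega)]
  constructor
  · rintro ⟨k, rfl⟩
    refine ⟨(n - 1) * k + (n - 1), ?_⟩
    unfold rl
    rw [mul_add, mul_one, add_assoc, Nat.sub_add_cancel (by omega), h.per, Sym2.eq_swap]
  · rintro ⟨k, rfl⟩
    refine ⟨(n - 1) * (k + 1), ?_⟩
    have e1 : rl n ω ((n - 1) * (k + 1)) = ω (k + 1) := by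
      unfold rl
      have : (n - 1) * ((n - 1) * (k + 1)) = (k + 1) + n * ((n - 2) * (k + 1)) := by
        obtain ⟨r, rfl⟩ := Nat.exists_eq_add_of_le hn
        rw [show 2 + r - 1 = r + 1 by omega, show 2 + r - 2 = r by omega]
        ring
      rw [this, h.add_mul]
    have e2 : rl n ω ((n - 1) * (k + 1) + 1) = ω k := by
      unfold rl
      have : (n - 1) * ((n - 1) * (k + 1) + 1) = k + n * ((n - 2) * (k + 1) + 1) := by
        obtain ⟨r, rfl⟩ := Nat.exists_eq_add_of_le hn
        rw [show 2 + r - 1 = r + 1 by omega, show 2 + r - 2 = r by omega]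
        ring
      rw [this, h.add_mul]
    rw [e1, e2, Sym2.eq_swap]

/-! ### loops with the same edges -/

lemma nb {n : ℕ} {ω : ℕ → ℤ × ℤ} (h : IsLoop n ω) (hn : 1 ≤ n) {J : ℕ} {v : ℤ × ℤ}
    (he : s(ω J, v) ∈ edges n ω) : v = ω (J + 1) ∨ v = ω (J + (n - 1)) := by
  obtain ⟨j, hj⟩ := (mem_edges h (by omega)).mp he
  rw [Sym2.eq_iff] at hj
  rcases hj with ⟨h1, h2⟩ | ⟨h1, h2⟩
  · left
    have e : J + 1 ≡ j + 1 [MOD n] := Nat.ModEq.add_right 1 (h.eq_mod (by omega) h1)
    rw [h2, ← h.mod (j + 1), ← h.mod (J + 1)]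
    congr 1
    exact e.symm
  · right
    have e : J + (n - 1) ≡ j + 1 + (n - 1) [MOD n] :=
      Nat.ModEq.add_right (n - 1) (h.eq_mod (by omega) h1)
    rw [add_assoc, Nat.add_sub_cancel' hn] at e
    have e2 : ω (j + n) = ω j := h.per j
    rw [h2, ← e2, ← h.mod (j + n), ← h.mod (J + (n - 1))]
    congr 1
    exact e.symm

lemma same_edges {n : ℕ} {ω η : ℕ → ℤ × ℤ} (h : IsLoop n ω) (g : IsLoop n η) (hn : 3 ≤ n)
    (he : edges n ω = edges n η) : ∃ i, i < n ∧
      ((∀ k, η k = ω (i + k)) ∨ (∀ k, η k = ω (i + (n - 1) * k))) := by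
  have hmem : ∀ k, s(η k, η (k + 1)) ∈ edges n ω := by
    intro k
    rw [he, mem_edges g (by omega)]
    exact ⟨k, rfl⟩
  obtain ⟨i, hi, h0⟩ : ∃ i, i < n ∧ η 0 = ω i := by
    obtain ⟨j, hj, h1⟩ := hmem 0
    rw [Sym2.eq_iff] at h1
    rcases h1 with ⟨h1, -⟩ | ⟨h1, -⟩
    · exact ⟨j, hj, h1⟩
    · refine ⟨(j + 1) % n, Nat.mod_lt _ (by omega), ?_⟩
      rw [h.mod]; exact h1
  refine ⟨i, hi, ?_⟩
  have h1 := hmem 0
  rw [h0] at h1
  rcases nb h (by omega) h1 with h2 | h2
  · left
    have key : ∀ k, η k = ω (i + k) ∧ η (k + 1) = ω (i + (k + 1)) := by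
      intro k
      induction k with
      | zero => exact ⟨h0, h2⟩
      | succ k ih =>
        refine ⟨ih.2, ?_⟩
        have h3 := hmem (k + 1)
        rw [ih.2] at h3
        rcases nb h (by omega) h3 with h4 | h4
        · exact h4
        · exfalso
          apply g.ne_two hn k
          rw [show k + 2 = k + 1 + 1 from rfl, h4, ih.1,
            show i + (k + 1) + (n - 1) = i + k + n by omega, h.per]
    exact fun k => (key k).1
  · right
    have key : ∀ k, η k = ω (i + (n - 1) * k) ∧ η (k + 1) = ω (i + (n - 1) * (k + 1)) := by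
      intro k
      induction k with
      | zero => exact ⟨by simpa using h0, by simpa using h2⟩
      | succ k ih =>
        refine ⟨ih.2, ?_⟩
        have h3 := hmem (k + 1)
        rw [ih.2] at h3
        rcases nb h (by omega) h3 with h4 | h4
        · exfalso
          apply g.ne_two hn k
          have e : i + (n - 1) * (k + 1) + 1 = i + (n - 1) * k + n := by
            rw [mul_add, mul_one]; omega
          rw [show k + 2 = k + 1 + 1 from rfl, h4, ih.1, e, h.per]
        · rw [h4]
          congr 1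
          ring
    exact fun k => (key k).1

/-! ### rotation -/

lemma wd_shift {n : ℕ} {ω : ℕ → ℤ × ℤ} (h : IsLoop n ω) {i : ℕ} (hi : i ≤ n) :
    wd n (fun k => ω (i + k)) = (wd n ω).drop i ++ (wd n ω).take i := by
  obtain ⟨r, rfl⟩ := Nat.exists_eq_add_of_le hi
  have e1 : wd (i + r) ω = (List.range i).map (fun k => st (ω k) (ω (k + 1))) ++
      (List.range r).map (fun k => st (ω (i + k)) (ω (i + k + 1))) := by
    unfold wd
    rw [List.range_add, List.map_append, List.map_map]
    rfl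
  have e2 : wd (i + r) (fun k => ω (i + k)) =
      (List.range r).map (fun k => st (ω (i + k)) (ω (i + k + 1))) ++
      (List.range i).map (fun k => st (ω k) (ω (k + 1))) := by
    unfold wd
    rw [add_comm i r, List.range_add, List.map_append, List.map_map]
    congr 1
    apply List.map_congr_left
    intro k _
    simp only [Function.comp]
    have p1 : ω (i + (r + k)) = ω k := by
      rw [show i + (r + k) = k + (i + r) by ring]; exact h.per k
    have p2 : ω (i + (r + k + 1)) = ω (k + 1) := by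
      rw [show i + (r + k + 1) = (k + 1) + (i + r) by ring]; exact h.per (k + 1)
    rw [p1, p2]
  rw [e1, e2, List.drop_left' (by simp), List.take_left' (by simp)]

lemma can_uniq {w : List St} (hS : St.S ∈ w) (h : CanW w) {i : ℕ} (hi : i < w.length)
    (h' : CanW (w.drop i ++ w.take i)) : i = 0 := by
  by_contra h0
  obtain ⟨P, Q, hw, hP, hQ⟩ := h
  obtain ⟨P', Q', hw', hP', hQ'⟩ := h'
  have hSQ : St.S ∈ Q := by
    rw [hw] at hS
    simp only [List.cons_append, List.mem_cons, List.mem_append] at hS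
    rcases hS with h1 | h1 | h1
    · simp at h1
    · exact absurd h1 hP
    · exact h1
  -- the letter number `i` is `N`
  have hN : St.N ∈ w.drop i := by
    have hne : w.drop i ≠ [] := by
      intro h1
      have := congrArg List.length h1
      simp at this
      omega
    obtain ⟨s, v, hv⟩ := List.exists_cons_of_ne_nil hne
    rw [hv] at hw'
    simp only [List.cons_append, List.cons.injEq] at hw'
    rw [hv, hw'.1]
    simp
  have hile : i ≤ (St.N :: P).length := by
    by_contra h1
    rw [not_le] at h1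
    rw [hw, List.drop_append, List.drop_eq_nil_of_le h1.le, List.nil_append] at hN
    exact hQ (List.mem_of_mem_drop hN)
  have hd : w.drop i = (St.N :: P).drop i ++ Q := by
    rw [hw, List.drop_append_of_le_length hile]
  have ht : St.N ∈ w.take i := by
    rw [hw, List.take_append_of_le_length hile]
    obtain ⟨j, rfl⟩ : ∃ j, i = j + 1 := ⟨i - 1, by omega⟩
    rw [List.take_succ_cons]
    simp
  rw [hd] at hw'
  rcases List.append_eq_append_iff.mp hw' with ⟨c, h1, h2⟩ | ⟨c, h1, h2⟩
  · have : St.S ∈ St.N :: P' := by rw [h1]; simp [hSQ]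
    simp only [List.mem_cons] at this
    rcases this with h3 | h3
    · simp at h3
    · exact hP' h3
  · exact hQ' (by rw [h2]; simp [ht])

lemma word_of_edges {n : ℕ} {ω η : ℕ → ℤ × ℤ} (h : IsLoop n ω) (g : IsLoop n η) (hn : 3 ≤ n)
    (he : edges n ω = edges n η) (hS : St.S ∈ wd n ω) (hc : CanW (wd n ω)) (gc : CanW (wd n η))
    (hA : 0 < A 0 (wd n ω)) (gA : 0 < A 0 (wd n η)) : wd n ω = wd n η := by
  have h0 : ω n = ω 0 := by have := h.per 0; rwa [zero_add] at this
  obtain ⟨i, hi, h1 | h1⟩ := same_edges h g hn he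
  · have e : η = fun k => ω (i + k) := funext h1
    have e2 := wd_shift h hi.le
    rw [← e] at e2
    have h2 := can_uniq hS hc (i := i) (by rw [wd_length]; exact hi) (by rw [← e2]; exact gc)
    rw [e2, h2]
    simp
  · exfalso
    have hs := h.shift i (by omega)
    have e : η = rl n (fun k => ω (i + k)) := funext fun k => h1 k
    have e2 := wd_rl hs
    rw [← e] at e2
    have hX : X (wd n ω) = 0 := by rw [X_wd h.adj, h0, sub_self]
    have hY : Y (wd n ω) = 0 := by rw [Y_wd h.adj, h0, sub_self]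
    have e3 : A 0 (wd n (fun k => ω (i + k))) = A 0 (wd n ω) := by
      rw [wd_shift h hi.le]
      have := A_rotate (u := (wd n ω).take i) (v := (wd n ω).drop i)
        (by rw [List.take_append_drop]; exact hX) (by rw [List.take_append_drop]; exact hY)
      rw [List.take_append_drop] at this
      exact this
    have hY2 : Y (wd n (fun k => ω (i + k))) = 0 := by
      rw [wd_shift h hi.le, Y_append, add_comm, ← Y_append, List.take_append_drop]
      exact hY
    have e4 := A_rv 0 (wd n (fun k => ω (i + k)))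
    rw [hY2, add_zero, ← e2, e3] at e4
    linarith

/-- normalised loops with the same word have the same edges -/
lemma eq_of_wd {n : ℕ} {ω η : ℕ → ℤ × ℤ} (hn : 0 < n) (h : IsLoop n ω) (g : IsLoop n η)
    (hN : Nrm (edges n ω)) (gN : Nrm (edges n η)) (he : wd n ω = wd n η) :
    edges n ω = edges n η := by
  have h1 := wd_inj hn h g he
  rw [nrm_iff h hn] at hN
  rw [nrm_iff g hn] at gN
  obtain ⟨p1, ⟨k1, p2⟩, ⟨k2, p3⟩⟩ := hN
  obtain ⟨r1, ⟨l1, r2⟩, ⟨l2, r3⟩⟩ := gN
  obtain ⟨t1, ht1⟩ : ∃ t, t = (η 0).1 - (ω 0).1 := ⟨_, rfl⟩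
  obtain ⟨t2, ht2⟩ : ∃ t, t = (η 0).2 - (ω 0).2 := ⟨_, rfl⟩
  rw [← ht1, ← ht2] at h1
  have z1 : t1 = 0 := by
    have a1 := (h1 k1).1
    have a2 := (h1 l1).1
    have a3 := (r1 k1).1
    have a4 := (p1 l1).1
    omega
  have z2 : t2 = 0 := by
    have a1 := (h1 k2).2
    have a2 := (h1 l2).2
    have a3 := (r1 k2).2
    have a4 := (p1 l2).2
    omega
  apply edges_trans
  intro k
  apply Prod.ext
  · rw [(h1 k).1, z1, add_zero]
  · rw [(h1 k).2, z2, add_zero]

end Run7.h529.AL
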