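import Pool.Agent.Run7.h529.AL.Wd

/-!
Self-avoiding polygons up to translation.
-/

set_option autoImplicit false
set_option linter.unusedSimpArgs false
set_option linter.unusedVariables false

namespace Run7.h529.AL

open Finset
open scoped ENNReal
open H982 (ind ind_of ind_not ind_le_one ind_mono ind_and tsum_cover tsum_mul_tsum')

/-- all vertices have nonnegative coordinates and both coordinates take the value `0` -/
def Nrm (P : Set (Sym2 (ℤ × ℤ))) : Prop :=
  (∀ e ∈ P, ∀ v ∈ e, 0 ≤ v.1 ∧ 0 ≤ v.2) ∧ (∃ e ∈ P, ∃ v ∈ e, v.1 = 0) ∧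
    (∃ e ∈ P, ∃ v ∈ e, v.2 = 0)

/-- self-avoiding polygons with half-perimeter `m`, up to translation -/
def SAP (m : ℕ) : Set (Set (Sym2 (ℤ × ℤ))) :=
  {P | 2 ≤ m ∧ (∃ ω, IsLoop (2 * m) ω ∧ P = edges (2 * m) ω) ∧ Nrm P}

lemma mem_edges {n : ℕ} {ω : ℕ → ℤ × ℤ} (h : IsLoop n ω) (hn : 0 < n) {e : Sym2 (ℤ × ℤ)} :
    e ∈ edges n ω ↔ ∃ k, e = s(ω k, ω (k + 1)) := by
  constructor
  · rintro ⟨k, -, hk⟩
    exact ⟨k, hk⟩
  · rintro ⟨k, rfl⟩
    refine ⟨k % n, Nat.mod_lt _ hn, ?_⟩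
    have : ω (k % n + 1) = ω (k + 1) := by
      rw [← h.mod (k % n + 1), ← h.mod (k + 1)]
      congr 1
      simp [Nat.add_mod]
    rw [h.mod, this]

lemma edges_shift {n : ℕ} {ω : ℕ → ℤ × ℤ} (h : IsLoop n ω) (hn : 0 < n) (i : ℕ) :
    edges n (fun k => ω (i + k)) = edges n ω := by
  ext e
  rw [mem_edges (h.shift i hn) hn, mem_edges h hn]
  constructor
  · rintro ⟨k, hk⟩
    exact ⟨i + k, hk⟩
  · rintro ⟨k, hk⟩
    have h1 : i ≤ n * i := Nat.le_mul_of_pos_left i hn
    have h2 : ∀ l, ω (l + n * i) = ω l := by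
      intro l
      rw [← h.mod (l + n * i), Nat.add_mul_mod_self_left, h.mod]
    refine ⟨k + n * i - i, ?_⟩
    rw [show i + (k + n * i - i) = k + n * i by omega,
      show i + (k + n * i - i + 1) = k + 1 + n * i by omega, h2, h2]
    exact hk

lemma nrm_iff {n : ℕ} {ω : ℕ → ℤ × ℤ} (h : IsLoop n ω) (hn : 0 < n) :
    Nrm (edges n ω) ↔ (∀ k, 0 ≤ (ω k).1 ∧ 0 ≤ (ω k).2) ∧ (∃ k, (ω k).1 = 0) ∧
      (∃ k, (ω k).2 = 0) := by
  have hm : ∀ k, s(ω k, ω (k + 1)) ∈ edges n ω := fun k => (mem_edges h hn).mpr ⟨k, rfl⟩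
  constructor
  · rintro ⟨h1, ⟨e, he, v, hv, h2⟩, ⟨e', he', v', hv', h3⟩⟩
    refine ⟨fun k => h1 _ (hm k) _ (Sym2.mem_mk_left _ _), ?_, ?_⟩
    · obtain ⟨k, rfl⟩ := (mem_edges h hn).mp he
      rcases Sym2.mem_iff.mp hv with rfl | rfl
      · exact ⟨k, h2⟩
      · exact ⟨k + 1, h2⟩
    · obtain ⟨k, rfl⟩ := (mem_edges h hn).mp he'
      rcases Sym2.mem_iff.mp hv' with rfl | rfl
      · exact ⟨k, h3⟩
      · exact ⟨k + 1, h3⟩
  · rintro ⟨h1, ⟨k, hk⟩, ⟨l, hl⟩⟩
    refine ⟨?_, ⟨_, hm k, _, Sym2.mem_mk_left _ _, hk⟩, ⟨_, hm l, _, Sym2.mem_mk_left _ _, hl⟩⟩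
    intro e he v hv
    obtain ⟨k, rfl⟩ := (mem_edges h hn).mp he
    rcases Sym2.mem_iff.mp hv with rfl | rfl
    · exact h1 _
    · exact h1 _

/-- loops with the same word differ by a translation -/
lemma wd_inj {n : ℕ} {ω η : ℕ → ℤ × ℤ} (hn : 0 < n) (h : IsLoop n ω) (g : IsLoop n η)
    (he : wd n ω = wd n η) (k : ℕ) :
    (η k).1 = (ω k).1 + ((η 0).1 - (ω 0).1) ∧ (η k).2 = (ω k).2 + ((η 0).2 - (ω 0).2) := by
  have key : ∀ k, k ≤ n → (η k).1 = (ω k).1 + ((η 0).1 - (ω 0).1) ∧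
      (η k).2 = (ω k).2 + ((η 0).2 - (ω 0).2) := by
    intro k
    induction k with
    | zero => intro _; constructor <;> ring
    | succ k ih =>
      intro hk
      obtain ⟨i1, i2⟩ := ih (by omega)
      have e1 : (wd n ω)[k]'(by rw [wd_length]; omega) = st (ω k) (ω (k + 1)) := by simp [wd]
      have e2 : (wd n η)[k]'(by rw [wd_length]; omega) = st (η k) (η (k + 1)) := by simp [wd]
      have e3 : st (ω k) (ω (k + 1)) = st (η k) (η (k + 1)) := by
        rw [← e1, ← e2]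
        congr 1
      have x1 := st_dx (h.adj k)
      have x2 := st_dx (g.adj k)
      have y1 := st_dy (h.adj k)
      have y2 := st_dy (g.adj k)
      rw [e3] at x1 y1
      constructor <;> linarith
  have := key (k % n) (Nat.mod_lt _ hn).le
  rw [h.mod, g.mod] at this
  exact this

lemma edges_trans {n : ℕ} {ω η : ℕ → ℤ × ℤ} (he : ∀ k, η k = ω k) : edges n η = edges n ω := by
  have : η = ω := funext he
  rw [this]

/-- the chosen loop -/
noncomputable def lp {m : ℕ} (P : SAP m) : ℕ → ℤ × ℤ := P.2.2.1.choose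

lemma lp_loop {m : ℕ} (P : SAP m) : IsLoop (2 * m) (lp P) := P.2.2.1.choose_spec.1

lemma lp_edges {m : ℕ} (P : SAP m) : edges (2 * m) (lp P) = P.1 := P.2.2.1.choose_spec.2.symm

/-- the word read from the `i`-th vertex -/
noncomputable def wr {m : ℕ} (p : SAP m × Fin (2 * m)) : List St :=
  wd (2 * m) (fun k => lp p.1 (p.2 + k))

lemma wr_inj {m : ℕ} : Function.Injective (wr (m := m)) := by
  rintro ⟨P, i⟩ ⟨R, j⟩ he
  have hm : 0 < 2 * m := by have := P.2.1; omega
  unfold wr at he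
  dsimp only at he
  have hP := (lp_loop P).shift i hm
  have hR := (lp_loop R).shift j hm
  have h1 := wd_inj hm hP hR he
  have nP := P.2.2.2
  have nR := R.2.2.2
  rw [← lp_edges P, ← edges_shift (lp_loop P) hm i, nrm_iff hP hm] at nP
  rw [← lp_edges R, ← edges_shift (lp_loop R) hm j, nrm_iff hR hm] at nR
  obtain ⟨t1, ht1⟩ : ∃ t, t = (lp R (j + 0)).1 - (lp P (i + 0)).1 := ⟨_, rfl⟩
  obtain ⟨t2, ht2⟩ : ∃ t, t = (lp R (j + 0)).2 - (lp P (i + 0)).2 := ⟨_, rfl⟩
  rw [← ht1, ← ht2] at h1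
  obtain ⟨p1, ⟨k1, p2⟩, ⟨k2, p3⟩⟩ := nP
  obtain ⟨r1, ⟨l1, r2⟩, ⟨l2, r3⟩⟩ := nR
  have z1 : t1 = 0 := by
    have a1 := (h1 k1).1
    have a2 := (h1 l1).1
    have a3 := (r1 k1).1
    have a4 := (p1 l1).1
    omega
  have z2 : t2 = 0 := by
    have a1 := (h1 k2).2
    have a2 := (h1 l2).2
    have a3 := (r1 k2).2
    have a4 := (p1 l2).2
    omega
  have h2 : ∀ k, lp R (j + k) = lp P (i + k) := by
    intro k
    apply Prod.ext
    · rw [(h1 k).1, z1, add_zero]
    · rw [(h1 k).2, z2, add_zero]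
  have hPR : P = R := by
    apply Subtype.ext
    rw [← lp_edges P, ← edges_shift (lp_loop P) hm i, ← lp_edges R,
      ← edges_shift (lp_loop R) hm j]
    exact (edges_trans h2).symm
  subst hPR
  have h3 := h2 0
  rw [add_zero, add_zero] at h3
  have := (lp_loop P).inj _ _ j.2 i.2 h3
  rw [Fin.val_injective this]

lemma wr_area {m : ℕ} (p : SAP m × Fin (2 * m)) : (area p.1.1 : ℤ) = |A 0 (wr p)| := by
  obtain ⟨P, i⟩ := p
  have hm : 0 < 2 * m := by have := P.2.1; omega
  have hP := (lp_loop P).shift i hm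
  have := area_wd hP (by have := P.2.1; omega)
  rw [edges_shift (lp_loop P) hm i, lp_edges] at this
  exact this

lemma sap_finite (m : ℕ) : (SAP m).Finite := by
  by_cases hm : 2 ≤ m
  · have : Finite (SAP m) := by
      have hf : Finite {w : List St | w.length = 2 * m} := (List.finite_length_eq St (2 * m))
      have i0 : Fin (2 * m) := ⟨0, by omega⟩
      refine Finite.of_injective (β := {w : List St | w.length = 2 * m})
        (fun P => ⟨wr (P, i0), wd_length _ _⟩) ?_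
      intro P R he
      have h1 : wr (P, i0) = wr (R, i0) := congrArg Subtype.val he
      exact (Prod.mk.inj (wr_inj h1)).1
    exact Set.toFinite _
  · have : SAP m = ∅ := by
      ext P
      simp only [SAP, Set.mem_ofPred_eq, Set.mem_empty_iff_false, iff_false]
      exact fun h => hm h.1
    rw [this]
    exact Set.finite_empty

lemma sap_area_le {m : ℕ} {P : Set (Sym2 (ℤ × ℤ))} (h : P ∈ SAP m) : area P ≤ m * m / 4 := by
  obtain ⟨hm, ⟨ω, hω, rfl⟩, -⟩ := h
  exact area_le hm hω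

/-! ### The sum over all closed words -/

/-- closed word of length `2 m` -/
def CW (m : ℕ) (w : List St) : Prop := ∃ a, a ≤ m ∧ Cl a (m - a) w

lemma cl_fl_iff {a b : ℕ} {w : List St} : Cl a b (w.map fl) ↔ Cl a b w := by
  constructor
  · intro h
    have := h.fl
    rwa [List.map_map, show fl ∘ fl = id from funext fl_fl, List.map_id] at this
  · exact fun h => h.fl

/-- the flip as an equivalence -/
def flE : List St ≃ List St where
  toFun w := w.map fl
  invFun w := w.map fl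
  left_inv w := by dsimp only; rw [List.map_map, show fl ∘ fl = id from funext fl_fl, List.map_id]
  right_inv w := by dsimp only; rw [List.map_map, show fl ∘ fl = id from funext fl_fl, List.map_id]

lemma D_fl (x : ℝ≥0∞) (a b : ℕ) :
    ∑' w : List St, ind (Cl a b w) * x ^ cst a b (w.map fl) = D x a b := by
  have h1 : ∀ w : List St, ind (Cl a b w) * x ^ cst a b (w.map fl) =
      (fun v => ind (Cl a b v) * x ^ cst a b v) (flE w) := by
    intro w
    change ind (Cl a b w) * x ^ cst a b (w.map fl) =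
      ind (Cl a b (w.map fl)) * x ^ cst a b (w.map fl)
    congr 2
    exact propext cl_fl_iff.symm
  rw [tsum_congr h1]
  exact flE.tsum_eq (fun v => ind (Cl a b v) * x ^ cst a b v)

lemma T_le {x : ℝ≥0∞} (hx : x ≤ 1) {m a : ℕ} (ha : a ≤ m) {w : List St} (h : Cl a (m - a) w) :
    x ^ (m * m / 4 - |A 0 w|.toNat) ≤ x ^ (m * m / 4 - a * (m - a)) *
      (x ^ cst a (m - a) w + x ^ cst a (m - a) (w.map fl)) := by
  have h1 := cst_cast h
  have h2 := cst_cast h.fl
  have h3 := quart ha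
  have h4 : A 0 (w.map fl) = - A 0 w := by
    have := A_fl 0 w
    rwa [neg_zero] at this
  rw [h4] at h2
  have h5 := A_le h
  have h6 := neg_A_le h
  rw [mul_add]
  have e0 : ((a * (m - a) : ℕ) : ℤ) = (a : ℤ) * ((m - a : ℕ) : ℤ) := by push_cast; rfl
  rcases le_total 0 (A 0 w) with hA | hA
  · refine le_trans ?_ le_self_add
    rw [← pow_add]
    apply le_of_eq
    congr 1
    rw [abs_of_nonneg hA]
    omega
  · refine le_trans ?_ le_add_self
    rw [← pow_add]
    apply le_of_eq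
    congr 1
    rw [abs_of_nonpos hA]
    omega

lemma closed_sum {x : ℝ} (h0 : 0 < x) (h1 : x < 1) (m : ℕ) :
    ∑' w : List St, ind (CW m w) * ENNReal.ofReal x ^ (m * m / 4 - |A 0 w|.toNat) ≤
      2 * DD x m := by
  have hx1 : ENNReal.ofReal x ≤ 1 := by
    rw [← ENNReal.ofReal_one]; exact ENNReal.ofReal_le_ofReal h1.le
  have h2 : ∀ w : List St, ind (CW m w) * ENNReal.ofReal x ^ (m * m / 4 - |A 0 w|.toNat) ≤
      ∑ a ∈ range (m + 1), ENNReal.ofReal x ^ (m * m / 4 - a * (m - a)) *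
        (ind (Cl a (m - a) w) * ENNReal.ofReal x ^ cst a (m - a) w +
          ind (Cl a (m - a) w) * ENNReal.ofReal x ^ cst a (m - a) (w.map fl)) := by
    intro w
    by_cases hw : CW m w
    · obtain ⟨a, ha, hc⟩ := hw
      rw [ind_of ⟨a, ha, hc⟩, one_mul]
      refine (T_le hx1 ha hc).trans ?_
      refine le_trans (le_of_eq ?_) (single_le_sum (f := fun a =>
        ENNReal.ofReal x ^ (m * m / 4 - a * (m - a)) *
        (ind (Cl a (m - a) w) * ENNReal.ofReal x ^ cst a (m - a) w +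
          ind (Cl a (m - a) w) * ENNReal.ofReal x ^ cst a (m - a) (w.map fl)))
        (fun _ _ => bot_le) (mem_range.mpr (by omega : a < m + 1)))
      rw [ind_of hc, one_mul, one_mul]
    · rw [ind_not hw, zero_mul]
      exact bot_le
  refine (ENNReal.tsum_le_tsum h2).trans ?_
  rw [Summable.tsum_finsetSum (fun _ _ => ENNReal.summable)]
  unfold DD
  rw [mul_sum]
  apply sum_le_sum
  intro a _
  rw [ENNReal.tsum_mul_left, ENNReal.tsum_add, D_fl]
  rw [← D]
  apply le_of_eq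
  ring

/-- **The partition function of inflated polygons.** -/
theorem sap_sum {x : ℝ} (h0 : 0 < x) (h1 : x < 1) :
    ∃ C : ℝ, 0 < C ∧ ∀ m : ℕ, ∑ P ∈ (sap_finite m).toFinset, x ^ (m * m / 4 - area P) ≤ C := by
  obtain ⟨C, hC, hb⟩ := DD_bound h0 h1
  refine ⟨C, hC, fun m => ?_⟩
  by_cases hm : 2 ≤ m
  · have hb' := hb m (by omega)
    have h2 : ∑' p : SAP m × Fin (2 * m), ENNReal.ofReal x ^ (m * m / 4 - area p.1.1) ≤
        2 * ENNReal.ofReal (C * m) := by
      calc ∑' p : SAP m × Fin (2 * m), ENNReal.ofReal x ^ (m * m / 4 - area p.1.1)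
          = ∑' p : SAP m × Fin (2 * m), (fun w => ind (CW m w) *
              ENNReal.ofReal x ^ (m * m / 4 - |A 0 w|.toNat)) (wr p) := by
            apply tsum_congr
            intro p
            dsimp only
            have hm' : 0 < 2 * m := by omega
            rw [ind_of (show CW m (wr p) from cl_wd ((lp_loop p.1).shift p.2 hm')), one_mul,
              ← wr_area p, Int.toNat_natCast]
        _ ≤ ∑' w : List St, ind (CW m w) *
              ENNReal.ofReal x ^ (m * m / 4 - |A 0 w|.toNat) :=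
            ENNReal.tsum_comp_le_tsum_of_injective wr_inj _
        _ ≤ 2 * DD x m := closed_sum h0 h1 m
        _ ≤ _ := by gcongr
    have h3 : ∑' p : SAP m × Fin (2 * m), ENNReal.ofReal x ^ (m * m / 4 - area p.1.1) =
        (2 * m : ℕ) * ∑' P : SAP m, ENNReal.ofReal x ^ (m * m / 4 - area P.1) := by
      rw [ENNReal.tsum_prod (f := fun (P : SAP m) (_ : Fin (2 * m)) =>
        ENNReal.ofReal x ^ (m * m / 4 - area P.1)), ← ENNReal.tsum_mul_left]
      apply tsum_congr
      intro P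
      rw [tsum_fintype, sum_const, card_univ, Fintype.card_fin, nsmul_eq_mul]
    have h4 : ∑' P : SAP m, ENNReal.ofReal x ^ (m * m / 4 - area P.1) =
        ENNReal.ofReal (∑ P ∈ (sap_finite m).toFinset, x ^ (m * m / 4 - area P)) := by
      rw [ENNReal.ofReal_sum_of_nonneg (fun _ _ => by positivity)]
      have e1 : (SAP m) = ((sap_finite m).toFinset : Set (Set (Sym2 (ℤ × ℤ)))) := by simp
      have e2 : ∑' P : SAP m, ENNReal.ofReal x ^ (m * m / 4 - area P.1) =
          ∑' P : ((sap_finite m).toFinset : Set (Set (Sym2 (ℤ × ℤ)))),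
            ENNReal.ofReal x ^ (m * m / 4 - area P.1) := by
        rw [← e1]
      rw [e2, Finset.tsum_subtype' (sap_finite m).toFinset
        (fun P => ENNReal.ofReal x ^ (m * m / 4 - area P))]
      apply sum_congr rfl
      intro P _
      rw [ENNReal.ofReal_pow h0.le]
    rw [h3, h4] at h2
    have e5 : ((2 * m : ℕ) : ℝ≥0∞) = ENNReal.ofReal (2 * m) := by
      rw [← ENNReal.ofReal_natCast]; push_cast; rfl
    have e6 : (2 : ℝ≥0∞) = ENNReal.ofReal 2 := by simp
    rw [e5, e6, ← ENNReal.ofReal_mul (by positivity), ← ENNReal.ofReal_mul (by norm_num),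
      ENNReal.ofReal_le_ofReal_iff (by positivity)] at h2
    have hmr : (0 : ℝ) < 2 * m := by
      have : (2 : ℝ) ≤ m := by exact_mod_cast hm
      linarith
    have h7 : (2 * (m : ℝ)) * ∑ P ∈ (sap_finite m).toFinset, x ^ (m * m / 4 - area P) ≤
        (2 * (m : ℝ)) * C := by linarith
    exact le_of_mul_le_mul_left h7 hmr
  · have : (sap_finite m).toFinset = ∅ := by
      rw [Set.Finite.toFinset_eq_empty]
      ext P
      simp only [SAP, Set.mem_ofPred_eq, Set.mem_empty_iff_false, iff_false]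
      exact fun h => hm h.1
    rw [this, sum_empty]
    exact hC.le

/-! ### The rectangle -/

lemma exists_nrm {n : ℕ} {ω : ℕ → ℤ × ℤ} (h : IsLoop n ω) (hn : 0 < n) :
    ∃ η, IsLoop n η ∧ Nrm (edges n η) ∧ wd n η = wd n ω := by
  obtain ⟨k1, hk1, m1⟩ := exists_min_image (range n) (fun k => (ω k).1)
    ⟨0, mem_range.mpr hn⟩
  obtain ⟨k2, hk2, m2⟩ := exists_min_image (range n) (fun k => (ω k).2)
    ⟨0, mem_range.mpr hn⟩
  let η : ℕ → ℤ × ℤ := fun k => ((ω k).1 - (ω k1).1, (ω k).2 - (ω k2).2)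
  have hη : IsLoop n η := by
    constructor
    · intro i
      change ((ω (i + n)).1 - (ω k1).1, (ω (i + n)).2 - (ω k2).2) = _
      rw [h.per]
    · intro i
      have := h.adj i
      unfold Adj at this ⊢
      change |((ω i).1 - (ω k1).1) - ((ω (i + 1)).1 - (ω k1).1)| +
        |((ω i).2 - (ω k2).2) - ((ω (i + 1)).2 - (ω k2).2)| = 1
      rw [sub_sub_sub_cancel_right, sub_sub_sub_cancel_right]
      exact this
    · intro i j hi hj he
      apply h.inj i j hi hj
      have h1 : ((ω i).1 - (ω k1).1, (ω i).2 - (ω k2).2) =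
        ((ω j).1 - (ω k1).1, (ω j).2 - (ω k2).2) := he
      rw [Prod.mk.injEq] at h1
      apply Prod.ext <;> omega
  refine ⟨η, hη, ?_, ?_⟩
  · rw [nrm_iff hη hn]
    refine ⟨fun k => ?_, ⟨k1, ?_⟩, ⟨k2, ?_⟩⟩
    · have h1 := m1 (k % n) (mem_range.mpr (Nat.mod_lt _ hn))
      have h2 := m2 (k % n) (mem_range.mpr (Nat.mod_lt _ hn))
      rw [h.mod] at h1 h2
      change 0 ≤ (ω k).1 - (ω k1).1 ∧ 0 ≤ (ω k).2 - (ω k2).2
      constructor <;> omega
    · change (ω k1).1 - (ω k1).1 = 0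
      ring
    · change (ω k2).2 - (ω k2).2 = 0
      ring
  · unfold wd
    apply List.map_congr_left
    intro k _
    apply st_eq
    · change (ω (k + 1)).1 - (ω k1).1 = (ω k).1 - (ω k1).1 + _
      rw [st_dx (h.adj k)]; ring
    · change (ω (k + 1)).2 - (ω k2).2 = (ω k).2 - (ω k2).2 + _
      rw [st_dy (h.adj k)]; ring

lemma half_mul (m : ℕ) : (m / 2) * (m - m / 2) = m * m / 4 := by
  rcases Nat.even_or_odd' m with ⟨k, rfl | rfl⟩
  · have e1 : 2 * k / 2 = k := by omega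
    have e2 : 2 * k - k = k := by omega
    have e3 : 2 * k * (2 * k) = 4 * (k * k) := by ring
    rw [e1, e2, e3, Nat.mul_div_cancel_left _ (by norm_num)]
  · have e1 : (2 * k + 1) / 2 = k := by omega
    have e2 : 2 * k + 1 - k = k + 1 := by omega
    have e3 : (2 * k + 1) * (2 * k + 1) = 4 * (k * (k + 1)) + 1 := by ring
    rw [e1, e2, e3]
    omega

/-- the largest area is attained -/
theorem exists_max {m : ℕ} (hm : 2 ≤ m) : ∃ P ∈ SAP m, area P = m * m / 4 := by
  have ha : 1 ≤ m / 2 := by omega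
  have hb : 1 ≤ m - m / 2 := by omega
  have e : 2 * (m / 2 + (m - m / 2)) = 2 * m := by omega
  have hl := ps_loop ha hb (rect_cl (m / 2) (m - m / 2)) (rect_A _ _)
  have hlen := (rect_cl (m / 2) (m - m / 2)).length
  rw [e] at hl hlen
  obtain ⟨η, h1, h2, h3⟩ := exists_nrm hl (by omega)
  refine ⟨edges (2 * m) η, ⟨hm, ⟨η, h1, rfl⟩, h2⟩, ?_⟩
  have h4 := area_wd h1 (by omega)
  have h5 := wd_ps (w := rect (m / 2) (m - m / 2)) (by omega) (rect_cl _ _).X (rect_cl _ _).Y
  rw [hlen] at h5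
  rw [h3, h5, rect_A] at h4
  have h6 := half_mul m
  have h7 : ((m / 2 : ℕ) : ℤ) * ((m - m / 2 : ℕ) : ℤ) = ((m * m / 4 : ℕ) : ℤ) := by
    exact_mod_cast h6
  rw [h7, abs_of_nonneg (Int.natCast_nonneg _)] at h4
  exact_mod_cast h4

end Run7.h529.AL
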