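import Pool.Agent.Run7.h529.AL.Ev

/-!
Mean, variance, the standardised area.
-/

set_option autoImplicit false
set_option linter.unusedSimpArgs false
set_option linter.unusedVariables false

namespace Run7.h529.AL

open Finset Filter Topology MeasureTheory

/-- mean of the limit law -/
noncomputable def mu (q : ℝ) (ε : ℕ) : ℝ := ∑' e, L q ε e * e

/-- variance of the limit law -/
noncomputable def sq (q : ℝ) (ε : ℕ) : ℝ := ∑' e, L q ε e * ((e : ℝ) - mu q ε) ^ 2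

lemma lin_bound {s : ℝ} (hs : 1 < s) (e : ℕ) : |(e : ℝ)| ≤ (s - 1)⁻¹ * s ^ e := by
  have h0 : 0 < s - 1 := by linarith
  have h1 := one_add_mul_sub_le_pow (show (-1 : ℝ) ≤ s by linarith) e
  rw [abs_of_nonneg (Nat.cast_nonneg _), inv_mul_eq_div, le_div_iff₀ h0]
  linarith

lemma sq_bound {s : ℝ} (hs : 1 < s) (e : ℕ) : |((e : ℝ)) ^ 2| ≤ ((s - 1)⁻¹) ^ 2 * (s ^ 2) ^ e := by
  have h1 := lin_bound hs e
  rw [abs_pow, ← pow_mul, mul_comm 2 e, pow_mul, ← mul_pow]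
  exact pow_le_pow_left₀ (abs_nonneg _) h1 2

lemma exists_s {q : ℝ} (hq : 1 < q) : ∃ s : ℝ, 1 < s ∧ s < q ∧ s ^ 2 < q := by
  refine ⟨√((1 + q) / 2), ?_, ?_, ?_⟩
  · rw [Real.lt_sqrt (by norm_num)]; linarith
  · rw [Real.sqrt_lt' (by linarith)]; nlinarith
  · rw [Real.sq_sqrt (by linarith)]; linarith

lemma E_one {q : ℝ} (hq : 0 < q) {m : ℕ} (hm : 2 ≤ m) :
    ∑' n, prob q m n * (((m * m / 4 - n : ℕ) : ℝ)) = ((m * m / 4 : ℕ) : ℝ) - mean q m := by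
  have h1 : mean q m = ∑ n ∈ range (m * m / 4 + 1), prob q m n * n :=
    tsum_p (fun n hn => by rw [prob_zero hn]; simp)
  rw [tsum_p (fun n hn => by rw [prob_zero hn]; simp), h1]
  have h2 : ((m * m / 4 : ℕ) : ℝ) = ∑ n ∈ range (m * m / 4 + 1), prob q m n * ((m * m / 4 : ℕ) : ℝ) := by
    rw [← sum_mul, sum_prob hq hm, one_mul]
  conv_rhs => rw [h2]
  rw [← sum_sub_distrib]
  apply sum_congr rfl
  intro n hn
  rw [mem_range] at hn
  rw [Nat.cast_sub (by omega)]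
  ring

lemma E_two {q : ℝ} (hq : 0 < q) {m : ℕ} (hm : 2 ≤ m) :
    ∑' n, prob q m n * (((m * m / 4 - n : ℕ) : ℝ)) ^ 2 =
      var q m + (((m * m / 4 : ℕ) : ℝ) - mean q m) ^ 2 := by
  obtain ⟨M, hM⟩ : ∃ M, M = m * m / 4 := ⟨_, rfl⟩
  have hs := sum_prob hq hm
  have hmean : mean q m = ∑ n ∈ range (M + 1), prob q m n * n := by
    rw [hM]; exact tsum_p (fun n hn => by rw [prob_zero hn]; simp)
  have hvar : var q m = ∑ n ∈ range (M + 1), prob q m n * ((n : ℝ) - mean q m) ^ 2 := by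
    rw [hM]; exact tsum_p (fun n hn => by rw [prob_zero hn]; simp)
  rw [tsum_p (fun n hn => by rw [prob_zero hn]; simp)]
  rw [← hM] at hs ⊢
  have e2 : ∀ n ∈ range (M + 1), prob q m n * ((M - n : ℕ) : ℝ) ^ 2 =
      prob q m n * ((n : ℝ) - mean q m) ^ 2 + (2 * (mean q m - M)) * (prob q m n * n) +
        (-(2 * (mean q m - M) * mean q m) + (mean q m - M) ^ 2) * prob q m n := by
    intro n hn
    rw [mem_range] at hn
    rw [Nat.cast_sub (by omega)]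
    ring
  rw [sum_congr rfl e2, sum_add_distrib, sum_add_distrib, ← mul_sum, ← mul_sum, ← hmean,
    ← hvar, hs]
  ring

/-- **Convergence of the mean.** -/
theorem mean_lim {q : ℝ} (hq : 1 < q) {ε : ℕ} (hε : ε ≤ 1) :
    Tendsto (fun l => (((2 * l + ε) * (2 * l + ε) / 4 : ℕ) : ℝ) - mean q (2 * l + ε)) atTop
      (𝓝 (mu q ε)) := by
  obtain ⟨s, hs1, hs2, -⟩ := exists_s hq
  obtain ⟨h1, -⟩ := lim_E hq hε (s := s) (K := (s - 1)⁻¹) (by linarith) hs2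
    (g := fun e => (e : ℝ)) (fun e => lin_bound hs1 e)
  apply h1.congr'
  filter_upwards [eventually_ge_atTop 1] with l hl
  exact E_one (by linarith) (by omega)

lemma mu_sum {q : ℝ} (hq : 1 < q) {ε : ℕ} (hε : ε ≤ 1) : Summable (fun e => L q ε e * (e : ℝ)) := by
  obtain ⟨s, hs1, hs2, -⟩ := exists_s hq
  exact (lim_E hq hε (s := s) (K := (s - 1)⁻¹) (by linarith) hs2
    (g := fun e => (e : ℝ)) (fun e => lin_bound hs1 e)).2

lemma sq_sum {q : ℝ} (hq : 1 < q) {ε : ℕ} (hε : ε ≤ 1) :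
    HasSum (fun e => L q ε e * ((e : ℝ) - mu q ε) ^ 2)
      ((∑' e, L q ε e * (e : ℝ) ^ 2) - mu q ε ^ 2) := by
  obtain ⟨s, hs1, hs2, hs3⟩ := exists_s hq
  have h2 := (lim_E hq hε (s := s ^ 2) (K := ((s - 1)⁻¹) ^ 2) (by positivity) hs3
    (g := fun e => (e : ℝ) ^ 2) (fun e => sq_bound hs1 e)).2.hasSum
  have h1 := (mu_sum hq hε).hasSum
  have h0 := L_hasSum hq hε
  have h3 := (h2.add (h1.mul_left (-(2 * mu q ε)))).add (h0.mul_left (mu q ε ^ 2))
  have e1 : (∑' e, L q ε e * (e : ℝ) ^ 2) + -(2 * mu q ε) * (∑' e, L q ε e * (e : ℝ)) +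
      mu q ε ^ 2 * 1 = (∑' e, L q ε e * (e : ℝ) ^ 2) - mu q ε ^ 2 := by
    have : (∑' e, L q ε e * (e : ℝ)) = mu q ε := rfl
    rw [this]
    ring
  rw [e1] at h3
  apply h3.congr_fun
  intro e
  ring

/-- **Convergence of the variance.** -/
theorem var_lim {q : ℝ} (hq : 1 < q) {ε : ℕ} (hε : ε ≤ 1) :
    Tendsto (fun l => var q (2 * l + ε)) atTop (𝓝 (sq q ε)) := by
  obtain ⟨s, hs1, hs2, hs3⟩ := exists_s hq
  obtain ⟨h2, -⟩ := lim_E hq hε (s := s ^ 2) (K := ((s - 1)⁻¹) ^ 2) (by positivity) hs3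
    (g := fun e => (e : ℝ) ^ 2) (fun e => sq_bound hs1 e)
  have h1 := mean_lim hq hε
  have h3 := h2.sub (h1.pow 2)
  have e1 : sq q ε = (∑' e, L q ε e * (e : ℝ) ^ 2) - mu q ε ^ 2 := (sq_sum hq hε).tsum_eq
  rw [e1]
  apply h3.congr'
  filter_upwards [eventually_ge_atTop 1] with l hl
  rw [E_two (by linarith) (by omega)]
  ring

lemma t_one {ε : ℕ} (hε : ε ≤ 1) : 1 ≤ t ε 1 := by
  rcases Nat.le_one_iff_eq_zero_or_eq_one.mp hε with rfl | rfl
  · rw [t01]; norm_num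
  · rw [t11]; norm_num

lemma L_pos {q : ℝ} (hq : 1 < q) {ε : ℕ} (hε : ε ≤ 1) {d : ℕ} (hd : 1 ≤ t ε d) : 0 < L q ε d := by
  have hx0 : 0 < q⁻¹ := inv_pos.mpr (by linarith)
  have := Th_pos hx0 (inv_lt_one_of_one_lt₀ hq) hε
  have h1 : (0 : ℝ) < t ε d := by exact_mod_cast hd
  unfold L
  positivity

lemma sq_pos' {q : ℝ} (hq : 1 < q) {ε : ℕ} (hε : ε ≤ 1) : 0 < sq q ε := by
  have hs := (sq_sum hq hε).summable
  have hn : ∀ e, 0 ≤ L q ε e * ((e : ℝ) - mu q ε) ^ 2 := fun e =>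
    mul_nonneg (L_nonneg hq hε e) (sq_nonneg _)
  have h0 := hs.le_tsum 0 (fun e _ => hn e)
  have h1 := hs.le_tsum 1 (fun e _ => hn e)
  have p0 := L_pos hq hε (t_zero hε)
  have p1 := L_pos hq hε (t_one hε)
  push_cast at h0 h1
  by_contra h
  have h2 : ∑' e, L q ε e * ((e : ℝ) - mu q ε) ^ 2 ≤ 0 := not_lt.mp h
  have h3 : L q ε 0 * (0 - mu q ε) ^ 2 ≤ 0 := h0.trans h2
  have h4 : L q ε 1 * (1 - mu q ε) ^ 2 ≤ 0 := h1.trans h2
  have h5 : (0 - mu q ε) ^ 2 ≤ 0 := by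
    by_contra h6
    have := mul_pos p0 (not_le.mp h6)
    linarith
  have h6 : (1 - mu q ε) ^ 2 ≤ 0 := by
    by_contra h7
    have := mul_pos p1 (not_le.mp h7)
    linarith
  nlinarith

/-- **The standardised area.** -/
theorem std_lim {q : ℝ} (hq : 1 < q) {ε : ℕ} (hε : ε ≤ 1) (τ : ℝ)
    (hτ : ∀ e : ℕ, (mu q ε - e) / √(sq q ε) ≠ τ) :
    Tendsto (fun l => ∑' n : ℕ, if ((n : ℝ) - mean q (2 * l + ε)) / √(var q (2 * l + ε)) ≤ τ then
      prob q (2 * l + ε) n else 0) atTop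
      (𝓝 (∑' e : ℕ, if (mu q ε - e) / √(sq q ε) ≤ τ then L q ε e else 0)) := by
  have hσ : 0 < √(sq q ε) := Real.sqrt_pos.mpr (sq_pos' hq hε)
  obtain ⟨h1, -⟩ := lim_E hq hε (s := 1) (K := 1) (by norm_num) hq
    (g := fun e => if (mu q ε - e) / √(sq q ε) ≤ τ then 1 else 0) (fun e => by split_ifs <;> simp)
  have e1 : ∀ e : ℕ, (if (mu q ε - e) / √(sq q ε) ≤ τ then L q ε e else 0) =
      L q ε e * (if (mu q ε - e) / √(sq q ε) ≤ τ then (1 : ℝ) else 0) := by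
    intro e; split_ifs <;> simp
  simp_rw [e1]
  apply h1.congr'
  -- the threshold
  obtain ⟨c, hc⟩ : ∃ c, c = mu q ε - τ * √(sq q ε) := ⟨_, rfl⟩
  have hcN : c ∈ (Set.range ((↑) : ℕ → ℝ))ᶜ := by
    rintro ⟨e, he⟩
    apply hτ e
    rw [he, hc]
    field_simp
    ring
  have hopen : IsOpen (Set.range ((↑) : ℕ → ℝ))ᶜ :=
    Nat.isClosedEmbedding_coe_real.isClosed_range.isOpen_compl
  obtain ⟨δ, hδ, hball⟩ := Metric.isOpen_iff.mp hopen c hcN
  have hv := var_lim hq hε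
  have hlim : Tendsto (fun l => ((((2 * l + ε) * (2 * l + ε) / 4 : ℕ) : ℝ) - mean q (2 * l + ε)) -
      τ * √(var q (2 * l + ε))) atTop (𝓝 c) := by
    rw [hc]
    exact (mean_lim hq hε).sub ((Real.continuous_sqrt.continuousAt.tendsto.comp hv).const_mul τ)
  have hvpos : ∀ᶠ l in atTop, 0 < var q (2 * l + ε) := hv.eventually (lt_mem_nhds (sq_pos' hq hε))
  filter_upwards [hlim (Metric.ball_mem_nhds c hδ), hvpos, eventually_ge_atTop 1] with l hl hvl hl1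
  replace hl : ((((2 * l + ε) * (2 * l + ε) / 4 : ℕ) : ℝ) - mean q (2 * l + ε)) -
      τ * √(var q (2 * l + ε)) ∈ Metric.ball c δ := hl
  obtain ⟨M, hM⟩ : ∃ M, M = (2 * l + ε) * (2 * l + ε) / 4 := ⟨_, rfl⟩
  rw [← hM] at hl ⊢
  obtain ⟨cl, hcl⟩ : ∃ cl, cl = (M : ℝ) - mean q (2 * l + ε) - τ * √(var q (2 * l + ε)) := ⟨_, rfl⟩
  rw [← hcl] at hl
  have hσl : 0 < √(var q (2 * l + ε)) := Real.sqrt_pos.mpr hvl
  apply tsum_congr
  intro n
  by_cases hn : M < n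
  · rw [prob_zero (p_zero (by rw [← hM]; exact hn))]
    simp
  · rw [not_lt] at hn
    have hiff : ((mu q ε - ((M - n : ℕ) : ℝ)) / √(sq q ε) ≤ τ) ↔
        (((n : ℝ) - mean q (2 * l + ε)) / √(var q (2 * l + ε)) ≤ τ) := by
      rw [div_le_iff₀ hσ, div_le_iff₀ hσl, Nat.cast_sub hn]
      have k1 : (mu q ε - ((M : ℝ) - n) ≤ τ * √(sq q ε)) ↔ c ≤ (M : ℝ) - n := by
        rw [hc]; constructor <;> intro h <;> linarith
      have k2 : ((n : ℝ) - mean q (2 * l + ε) ≤ τ * √(var q (2 * l + ε))) ↔ cl ≤ (M : ℝ) - n := by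
        rw [hcl]; constructor <;> intro h <;> linarith
      rw [k1, k2]
      have hnat : (M : ℝ) - n ∉ Metric.ball c δ := by
        intro h
        apply hball h
        exact ⟨M - n, by rw [Nat.cast_sub hn]⟩
      rw [Metric.mem_ball, Real.dist_eq] at hl hnat
      rw [abs_lt] at hl
      constructor
      · intro h
        by_contra h'
        apply hnat
        rw [abs_lt]
        constructor <;> linarith
      · intro h
        by_contra h'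
        apply hnat
        rw [abs_lt]
        constructor <;> linarith
    by_cases h : ((n : ℝ) - mean q (2 * l + ε)) / √(var q (2 * l + ε)) ≤ τ
    · rw [if_pos h, if_pos (hiff.mpr h), mul_one]
    · rw [if_neg h, if_neg (fun h' => h (hiff.mp h')), mul_zero]

end Run7.h529.AL
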