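import Pool.Agent.Run7.h529.AL.W

/-!
Sums over closed words with the weight `x ^ (a b - area)`.
-/

set_option autoImplicit false
set_option linter.unusedSimpArgs false

namespace Run7.h529.AL

open scoped ENNReal
open H982 (ind ind_of ind_not ind_le_one ind_mono ind_and tsum_cover tsum_mul_tsum')

/-- the deficit of the area -/
noncomputable def cst (a b : ℕ) (w : List St) : ℕ := ((a * b : ℤ) - A 0 w).toNat

lemma cst_cast {a b : ℕ} {w : List St} (h : Cl a b w) : (cst a b w : ℤ) = a * b - A 0 w := by
  unfold cst
  have := A_le h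
  omega

/-- the weighted number of closed words -/
noncomputable def D (x : ℝ≥0∞) (a b : ℕ) : ℝ≥0∞ := ∑' w : List St, ind (Cl a b w) * x ^ cst a b w

lemma tsum_lt (n : ℕ) (c : ℝ≥0∞) : ∑' i : ℕ, ind (i < n) * c = n * c := by
  rw [tsum_eq_sum (s := Finset.range n)]
  · rw [Finset.sum_congr rfl (g := fun _ => c) (fun i hi => by
      rw [ind_of (Finset.mem_range.mp hi), one_mul])]
    simp
  · intro i hi
    rw [ind_not (by simpa using hi), zero_mul]

/-- product of letter weights -/
lemma sum_len (c : St → ℝ≥0∞) (n : ℕ) :
    ∑' z : List St, ind (z.length = n) * (z.map c).prod ≤ (∑ s, c s) ^ n := by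
  induction n with
  | zero =>
    have := tsum_cover (fun z : List St => z.length = 0) (fun _ : Unit => True)
      (fun z => (z.map c).prod) (fun _ => 1) (fun _ => []) (by
        intro z hz
        have : z = [] := List.length_eq_zero_iff.mp hz
        subst this
        exact ⟨(), trivial, rfl, by simp⟩)
    refine this.trans ?_
    simp [ind_of]
  | succ n ih =>
    have := tsum_cover (fun z : List St => z.length = n + 1)
      (fun q : St × List St => q.2.length = n)
      (fun z => (z.map c).prod) (fun q => c q.1 * (q.2.map c).prod) (fun q => q.1 :: q.2) (by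
        intro z hz
        obtain ⟨s, z', rfl⟩ := List.exists_cons_of_length_eq_add_one hz
        exact ⟨(s, z'), by simpa using hz, rfl, by simp⟩)
    refine this.trans ?_
    rw [ENNReal.tsum_prod', tsum_fintype]
    calc ∑ s, ∑' z : List St, ind (z.length = n) * (c s * (z.map c).prod)
        = ∑ s, c s * ∑' z : List St, ind (z.length = n) * (z.map c).prod := by
          refine Finset.sum_congr rfl fun s _ => ?_
          rw [← ENNReal.tsum_mul_left]
          congr 1; ext z; ring
      _ ≤ ∑ s, c s * (∑ s, c s) ^ n := by gcongr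
      _ = _ := by rw [← Finset.sum_mul, pow_succ]; ring

lemma D_le {x : ℝ≥0∞} (hx : x ≤ 1) (a b : ℕ) : D x a b ≤ 16 ^ (a + b) := by
  have h1 : D x a b ≤ ∑' z : List St, ind (z.length = 2 * (a + b)) * (z.map (fun _ => (1 : ℝ≥0∞))).prod := by
    unfold D
    apply ENNReal.tsum_le_tsum
    intro w
    have e1 : (w.map (fun _ => (1 : ℝ≥0∞))).prod = 1 := by simp
    rw [e1, mul_one]
    calc ind (Cl a b w) * x ^ cst a b w ≤ ind (w.length = 2 * (a + b)) * 1 := by
          refine mul_le_mul' (ind_mono fun h => h.length) (pow_le_one' hx _)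
      _ = _ := mul_one _
  refine h1.trans ((sum_len _ _).trans (le_of_eq ?_))
  have : (∑ _s : St, (1 : ℝ≥0∞)) = 4 := by
    rw [Finset.sum_const, Finset.card_univ]
    have : Fintype.card St = 4 := rfl
    rw [this]; norm_num
  rw [this, pow_mul]; norm_num

/-- the reducible words -/
lemma red_sum {x : ℝ≥0∞} (hx : x ≤ 1) (a b : ℕ) :
    ∑' w : List St, ind (Cl a (b + 1) w ∧ Red a w) * x ^ cst a (b + 1) w ≤
      2 * (2 * (a + b) + 1 : ℕ) * (2 * (a + b) + 1 : ℕ) * (x ^ (a / 2) * D x a b) := by
  set L := 2 * (a + b) + 1 with hL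
  let P2 : Bool → St × St := fun c => if c then (St.N, St.S) else (St.S, St.N)
  have h1 := tsum_cover (fun w : List St => Cl a (b + 1) w ∧ Red a w)
    (fun q : Bool × ℕ × ℕ × List St => q.2.1 < L ∧ q.2.2.1 < L ∧ Cl a b q.2.2.2)
    (fun w => x ^ cst a (b + 1) w) (fun q => x ^ (a / 2) * x ^ cst a b q.2.2.2)
    (fun q => q.2.2.2.take q.2.1 ++ (P2 q.1).1 :: ((q.2.2.2.drop q.2.1).take q.2.2.1 ++
      (P2 q.1).2 :: (q.2.2.2.drop q.2.1).drop q.2.2.1)) (by
      rintro w ⟨hc, s, t, u, v, z, hst, hw, hA⟩
      have hcl : Cl a b (u ++ (v ++ z)) := by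
        obtain ⟨g1, g2, g3, g4⟩ := hc
        rw [hw] at g1 g2 g3 g4
        simp only [List.count_append, List.count_cons] at g1 g2 g3 g4
        refine ⟨?_, ?_, ?_, ?_⟩ <;> simp only [List.count_append] <;>
          rcases hst with ⟨rfl, rfl⟩ | ⟨rfl, rfl⟩ <;> simp at g1 g2 g3 g4 <;> omega
      have hlen := hcl.length
      simp only [List.length_append] at hlen
      refine ⟨(decide (s = St.N), u.length, v.length, u ++ (v ++ z)), ⟨by simp only; omega,
        by simp only; omega, hcl⟩, ?_, ?_⟩
      · have hp : P2 (decide (s = St.N)) = (s, t) := by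
          rcases hst with ⟨rfl, rfl⟩ | ⟨rfl, rfl⟩ <;> simp [P2]
        simp only [hp, List.take_left', List.drop_left']
        rw [hw]
      · simp only
        rw [← pow_add]
        apply pow_le_pow_right_of_le_one' hx
        have e1 := cst_cast hc
        have e2 := cst_cast hcl
        push_cast at e1
        have e3 : (a : ℤ) * ((b : ℤ) + 1) = a * b + a := by ring
        rw [e3] at e1
        omega)
  refine h1.trans (le_of_eq ?_)
  calc ∑' q : Bool × ℕ × ℕ × List St, ind (q.2.1 < L ∧ q.2.2.1 < L ∧ Cl a b q.2.2.2) *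
        (x ^ (a / 2) * x ^ cst a b q.2.2.2)
      = ∑' c : Bool, ∑' i : ℕ, ∑' j : ℕ, ∑' w : List St, ind (i < L) * (ind (j < L) *
          (x ^ (a / 2) * (ind (Cl a b w) * x ^ cst a b w))) := by
        rw [ENNReal.tsum_prod']
        congr 1; ext c
        rw [ENNReal.tsum_prod']
        congr 1; ext i
        rw [ENNReal.tsum_prod']
        congr 1; ext j
        congr 1; ext w
        simp only [ind_and]
        ring
    _ = ∑' c : Bool, ∑' i : ℕ, ind (i < L) * (∑' j : ℕ, ind (j < L) *
          (x ^ (a / 2) * D x a b)) := by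
        congr 1; ext c
        congr 1; ext i
        rw [← ENNReal.tsum_mul_left]
        congr 1; ext j
        rw [ENNReal.tsum_mul_left, ENNReal.tsum_mul_left, ENNReal.tsum_mul_left]
        rfl
    _ = _ := by
        rw [tsum_lt, tsum_lt, tsum_fintype, Fintype.sum_bool]
        ring

/-- horizontal words -/
def Hor (z : List St) : Prop := ∀ s ∈ z, s = St.E ∨ s = St.W

lemma Hor.count {z : List St} (h : Hor z) : z.count St.N = 0 ∧ z.count St.S = 0 := by
  constructor
  · apply List.count_eq_zero_of_not_mem
    intro h'
    rcases h _ h' with h | h <;> simp at h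
  · apply List.count_eq_zero_of_not_mem
    intro h'
    rcases h _ h' with h | h <;> simp at h

lemma Hor.Y {z : List St} (h : Hor z) : Y z = 0 := by
  rw [Y_eq, h.count.1, h.count.2]; rfl

lemma hor_of {z : List St} (h1 : St.N ∉ z) (h2 : St.S ∉ z) : Hor z := by
  intro s hs
  cases s
  · exact Or.inl rfl
  · exact Or.inr rfl
  · exact absurd hs h1
  · exact absurd hs h2

lemma Hor.A {z : List St} (h : Hor z) (y : ℤ) : A y z = y * (z.count St.W - z.count St.E) := by
  induction z with
  | nil => simp
  | cons s z ih =>
    have h' : Hor z := fun t ht => h t (List.mem_cons_of_mem _ ht)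
    rcases h s List.mem_cons_self with rfl | rfl
    · rw [A_cons]
      simp [St.dx, St.dy, ih h', List.count_cons]
      ring
    · rw [A_cons]
      simp [St.dx, St.dy, ih h', List.count_cons]
      ring

/-- the sum over the words of horizontal letters -/
lemma gsum (x : ℝ≥0∞) (e f : ℕ) : ∑' z : List St, ind (Hor z) *
    x ^ (e * z.count St.E + f * z.count St.W) ≤ (1 - (x ^ e + x ^ f))⁻¹ := by
  let c : St → ℝ≥0∞ := fun s => match s with
    | St.E => x ^ e
    | St.W => x ^ f
    | _ => 0
  have hc : (∑ s, c s) = x ^ e + x ^ f := by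
    have : (Finset.univ : Finset St) = {St.E, St.W, St.N, St.S} := rfl
    rw [this]
    simp [c]
  have h1 : ∀ z : List St, ind (Hor z) * x ^ (e * z.count St.E + f * z.count St.W) ≤
      (z.map c).prod := by
    intro z
    by_cases h : Hor z
    · rw [ind_of h, one_mul]
      apply le_of_eq
      induction z with
      | nil => simp
      | cons s z ih =>
        have h' : Hor z := fun t ht => h t (List.mem_cons_of_mem _ ht)
        rcases h s List.mem_cons_self with rfl | rfl
        · rw [List.map_cons, List.prod_cons, ← ih h']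
          simp [List.count_cons, c]
          ring
        · rw [List.map_cons, List.prod_cons, ← ih h']
          simp [List.count_cons, c]
          ring
    · rw [ind_not h, zero_mul]; exact zero_le
  calc ∑' z : List St, ind (Hor z) * x ^ (e * z.count St.E + f * z.count St.W)
      ≤ ∑' z : List St, (z.map c).prod := ENNReal.tsum_le_tsum h1
    _ = ∑' z : List St, ∑' n : ℕ, ind (z.length = n) * (z.map c).prod := by
        congr 1; ext z
        rw [tsum_eq_single z.length (fun n hn => by rw [ind_not (Ne.symm hn), zero_mul]),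
          ind_of rfl, one_mul]
    _ = ∑' n : ℕ, ∑' z : List St, ind (z.length = n) * (z.map c).prod := ENNReal.tsum_comm
    _ ≤ ∑' n : ℕ, (x ^ e + x ^ f) ^ n := by
        apply ENNReal.tsum_le_tsum
        intro n
        rw [← hc]
        exact sum_len c n
    _ = _ := ENNReal.tsum_geometric _

/-- numbers of words with few letters of one kind -/
lemma cntb (s t : St) (hst : s ≠ t) : ∀ k e M : ℕ, e + k ≤ M →
    ∑' z : List St, ind ((∀ l ∈ z, l = s ∨ l = t) ∧ z.count s = k ∧ z.count t = e) * 1 ≤
      (M : ℝ≥0∞) ^ k := by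
  intro k
  induction k with
  | zero =>
    intro e M _
    have := tsum_cover (fun z : List St => (∀ l ∈ z, l = s ∨ l = t) ∧ z.count s = 0 ∧
        z.count t = e) (fun _ : Unit => True)
      (fun z => (1 : ℝ≥0∞)) (fun _ => 1) (fun _ => List.replicate e t) (by
        rintro z ⟨h1, h2, h3⟩
        refine ⟨(), trivial, ?_, le_rfl⟩
        symm
        rw [List.eq_replicate_iff]
        have hs : s ∉ z := List.count_eq_zero.mp h2
        have h4 : ∀ b ∈ z, b = t := by
          intro b hb
          rcases h1 b hb with rfl | h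
          · exact absurd hb hs
          · exact h
        refine ⟨?_, h4⟩
        have : z = List.replicate z.length t := List.eq_replicate_iff.mpr ⟨rfl, h4⟩
        rw [this, List.count_replicate_self] at h3
        exact h3)
    refine this.trans ?_
    simp [ind_of]
  | succ k ih =>
    intro e M hM
    have := tsum_cover (fun z : List St => (∀ l ∈ z, l = s ∨ l = t) ∧ z.count s = k + 1 ∧
        z.count t = e) (fun q : ℕ × List St => q.1 < e + 1 ∧ ((∀ l ∈ q.2, l = s ∨ l = t) ∧
          q.2.count s = k ∧ q.2.count t = e - q.1))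
      (fun z => (1 : ℝ≥0∞)) (fun _ => 1) (fun q => List.replicate q.1 t ++ s :: q.2) (by
        rintro z ⟨h1, h2, h3⟩
        have hs : s ∈ z := by
          rw [← List.count_pos_iff]; omega
        obtain ⟨u, v, rfl, h4⟩ := first_split hs
        have h5 : ∀ b ∈ u, b = t := by
          intro b hb
          rcases h1 b (by simp [hb]) with rfl | h
          · exact absurd hb h4
          · exact h
        have h6 : u = List.replicate u.length t := List.eq_replicate_iff.mpr ⟨rfl, h5⟩
        have h7 : u.count t = u.length := by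
          conv_lhs => rw [h6]
          exact List.count_replicate_self
        have h8 : u.count s = 0 := List.count_eq_zero.mpr h4
        rw [List.count_append, List.count_cons_self, h8] at h2
        rw [List.count_append, List.count_cons_of_ne hst, h7] at h3
        refine ⟨(u.length, v), ⟨by simp only; omega, fun l hl => h1 l (by simp [hl]),
          by simp only; omega, by simp only; omega⟩, ?_, le_rfl⟩
        simp only
        rw [← h6])
    refine this.trans ?_
    rw [ENNReal.tsum_prod']
    calc ∑' j : ℕ, ∑' z : List St, ind (j < e + 1 ∧ ((∀ l ∈ z, l = s ∨ l = t) ∧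
          z.count s = k ∧ z.count t = e - j)) * 1
        ≤ ∑' j : ℕ, ind (j < e + 1) * (M : ℝ≥0∞) ^ k := by
          apply ENNReal.tsum_le_tsum
          intro j
          have e1 : ∑' z : List St, ind (j < e + 1 ∧ ((∀ l ∈ z, l = s ∨ l = t) ∧
              z.count s = k ∧ z.count t = e - j)) * 1 = ind (j < e + 1) *
              ∑' z : List St, ind ((∀ l ∈ z, l = s ∨ l = t) ∧
              z.count s = k ∧ z.count t = e - j) * 1 := by
            rw [← ENNReal.tsum_mul_left]
            congr 1; ext z
            rw [ind_and]; ring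
          rw [e1]
          gcongr
          exact ih _ _ (by omega)
      _ = ((e + 1 : ℕ) : ℝ≥0∞) * (M : ℝ≥0∞) ^ k := tsum_lt _ _
      _ ≤ (M : ℝ≥0∞) * (M : ℝ≥0∞) ^ k := by
          gcongr
          omega
      _ = _ := by rw [pow_succ]; ring

end Run7.h529.AL
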