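import Pool.Agent.Run7.h529.AL.Co

/-!
Every canonical word with a small deficit is the word of four partitions.
-/

set_option autoImplicit false
set_option linter.unusedSimpArgs false
set_option linter.unusedVariables false

namespace Run7.h529.AL

open Finset

variable {d : ℕ}

lemma wf_surj {a b : ℕ} {w : List St} (h : Cl a b w) (hc : CanW w) (hb : 2 * d < b)
    (hA : (a : ℤ) * b - A 0 w ≤ d) : ∃ f : Fin 4 → Fin d → ℕ, w = wf a b f ∧
      tot (f 0) + tot (f 3) ≤ a ∧ tot (f 1) + tot (f 2) ≤ a := by
  obtain ⟨R, L, hw⟩ := parse h hc hb hA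
  have hcost : Cs b 0 w ≤ d := by
    have e : Cs b 0 w = (a : ℤ) * b - A 0 w := by
      unfold Cs; rw [h.2.1]; ring
    rw [e]; exact hA
  rw [hw, Cs_word] at hcost
  have kd0 : ∀ y, y ≤ b → 0 ≤ kd d b y := by
    intro y hy
    unfold kd
    split_ifs <;> omega
  have nR : ∀ y ∈ range b, 0 ≤ (R (y + 1) : ℤ) * kd d b (y + 1) := fun y hy => by
    rw [mem_range] at hy
    exact mul_nonneg (Int.natCast_nonneg _) (kd0 _ (by omega))
  have nL : ∀ y ∈ range b, 0 ≤ (L y : ℤ) * kd d b y := fun y hy => by
    rw [mem_range] at hy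
    exact mul_nonneg (Int.natCast_nonneg _) (kd0 _ (by omega))
  have sR := sum_nonneg nR
  have sL := sum_nonneg nL
  have zR : ∀ y, d < y → y < b - d → R y = 0 := by
    intro y h1 h2
    have h3 := single_le_sum nR (mem_range.mpr (show y - 1 < b by omega))
    rw [Nat.sub_add_cancel (by omega)] at h3
    have h4 : kd d b y = b - y := by unfold kd; rw [if_neg (by omega)]
    rw [h4] at h3
    have h5 : (d : ℤ) + 1 ≤ b - y := by omega
    by_contra h6
    have h7 : (1 : ℤ) ≤ R y := by omega
    nlinarith
  have zL : ∀ y, d < y → y < b - d → L y = 0 := by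
    intro y h1 h2
    have h3 := single_le_sum nL (mem_range.mpr (show y < b by omega))
    have h4 : kd d b y = b - y := by unfold kd; rw [if_neg (by omega)]
    rw [h4] at h3
    have h5 : (d : ℤ) + 1 ≤ b - y := by omega
    by_contra h6
    have h7 : (1 : ℤ) ≤ L y := by omega
    nlinarith
  obtain ⟨r, hr⟩ := Nat.exists_eq_add_of_le (show d + 1 ≤ b by omega)
  let f : Fin 4 → Fin d → ℕ := fun i z =>
    if i = 0 then R (z + 1) else if i = 1 then R (b - 1 - z) else
      if i = 2 then L (b - 1 - z) else L (z + 1)
  have f0 : f 0 = fun z : Fin d => R (z + 1) := rfl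
  have f1 : f 1 = fun z : Fin d => R (b - 1 - z) := rfl
  have f2 : f 2 = fun z : Fin d => L (b - 1 - z) := rfl
  have f3 : f 3 = fun z : Fin d => L (z + 1) := rfl
  have x0 : ∀ y, y < d → ex0 (f 0) y = R (y + 1) := by
    intro y hy; rw [f0]; unfold ex0; rw [dif_pos hy]
  have x3 : ∀ y, y < d → ex0 (f 3) y = L (y + 1) := by
    intro y hy; rw [f3]; unfold ex0; rw [dif_pos hy]
  have x1 : ∀ z, z < r → ex0 (f 1) z = R (b - 1 - z) := by
    intro z hz
    by_cases h1 : z < d
    · rw [f1]; unfold ex0; rw [dif_pos h1]
    · rw [ex0_big _ (by omega), zR _ (by omega) (by omega)]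
  have x2 : ∀ z, z < r → ex0 (f 2) z = L (b - 1 - z) := by
    intro z hz
    by_cases h1 : z < d
    · rw [f2]; unfold ex0; rw [dif_pos h1]
    · rw [ex0_big _ (by omega), zL _ (by omega) (by omega)]
  have hdr : d ≤ r := by omega
  have t1 : ∑ z ∈ range r, (R (b - 1 - z) : ℤ) = tot (f 1) := by
    have := ex0_sum (f 1) (fun _ => 1) hdr
    simp only [mul_one] at this
    unfold tot
    push_cast
    rw [← this]
    exact sum_congr rfl fun z hz => by rw [x1 z (mem_range.mp hz)]
  have t2 : ∑ z ∈ range r, (L (b - 1 - z) : ℤ) = tot (f 2) := by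
    have := ex0_sum (f 2) (fun _ => 1) hdr
    simp only [mul_one] at this
    unfold tot
    push_cast
    rw [← this]
    exact sum_congr rfl fun z hz => by rw [x2 z (mem_range.mp hz)]
  have t0 : ∑ z ∈ range d, (R (z + 1) : ℤ) = tot (f 0) := by
    have := ex0_sum (f 0) (fun _ => 1) (le_refl d)
    simp only [mul_one] at this
    unfold tot
    push_cast
    rw [← this]
    exact sum_congr rfl fun z hz => by rw [x0 z (mem_range.mp hz)]
  have t3 : ∑ z ∈ range d, (L (z + 1) : ℤ) = tot (f 3) := by
    have := ex0_sum (f 3) (fun _ => 1) (le_refl d)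
    simp only [mul_one] at this
    unfold tot
    push_cast
    rw [← this]
    exact sum_congr rfl fun z hz => by rw [x3 z (mem_range.mp hz)]
  have cW : (a : ℤ) = tot (f 1) + R b + tot (f 2) := by
    have h1 := h.2.1
    rw [hw, List.count_append, count_up, count_dn] at h1
    have e1 : (St.W = St.N) = False := by simp
    have e2 : (St.W = St.S) = False := by simp
    simp only [e1, e2, if_false, zero_add] at h1
    have h2 : (a : ℤ) = ∑ y ∈ range b, (if St.W = cd d (y + 1) then (R (y + 1) : ℤ) else 0) +
        ∑ y ∈ range b, (if St.W = cd d y then (L y : ℤ) else 0) := by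
      rw [← h1]; push_cast; rfl
    rw [h2, hr, split_up d r (fun y => if St.W = cd d y then (R y : ℤ) else 0),
      split_dn d r (fun y => if St.W = cd d y then (L y : ℤ) else 0), ← t1, ← t2]
    have c0 : cd d 0 = St.E := by unfold cd; rw [if_pos (by omega)]
    have cb : cd d (d + 1 + r) = St.W := by unfold cd; rw [if_neg (by omega)]
    have s1 : ∑ y ∈ range d, (if St.W = cd d (y + 1) then (R (y + 1) : ℤ) else 0) = 0 := by
      apply sum_eq_zero
      intro y hy
      rw [mem_range] at hy
      have : cd d (y + 1) = St.E := by unfold cd; rw [if_pos (by omega)]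
      rw [this]; simp
    have s2 : ∑ y ∈ range d, (if St.W = cd d (y + 1) then (L (y + 1) : ℤ) else 0) = 0 := by
      apply sum_eq_zero
      intro y hy
      rw [mem_range] at hy
      have : cd d (y + 1) = St.E := by unfold cd; rw [if_pos (by omega)]
      rw [this]; simp
    have s3 : ∑ z ∈ range r, (if St.W = cd d (d + r - z) then (R (d + r - z) : ℤ) else 0) =
        ∑ z ∈ range r, (R (b - 1 - z) : ℤ) := by
      apply sum_congr rfl
      intro z hz
      rw [mem_range] at hz
      have : cd d (d + r - z) = St.W := by unfold cd; rw [if_neg (by omega)]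
      rw [this, if_pos rfl]
      congr 2
      omega
    have s4 : ∑ z ∈ range r, (if St.W = cd d (d + r - z) then (L (d + r - z) : ℤ) else 0) =
        ∑ z ∈ range r, (L (b - 1 - z) : ℤ) := by
      apply sum_congr rfl
      intro z hz
      rw [mem_range] at hz
      have : cd d (d + r - z) = St.W := by unfold cd; rw [if_neg (by omega)]
      rw [this, if_pos rfl]
      congr 2
      omega
    rw [s1, s2, s3, s4, c0, cb, ← hr]
    simp
  have cE : (a : ℤ) = tot (f 0) + L 0 + tot (f 3) := by
    have h1 := h.1
    rw [hw, List.count_append, count_up, count_dn] at h1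
    have e1 : (St.E = St.N) = False := by simp
    have e2 : (St.E = St.S) = False := by simp
    simp only [e1, e2, if_false, zero_add] at h1
    have h2 : (a : ℤ) = ∑ y ∈ range b, (if St.E = cd d (y + 1) then (R (y + 1) : ℤ) else 0) +
        ∑ y ∈ range b, (if St.E = cd d y then (L y : ℤ) else 0) := by
      rw [← h1]; push_cast; rfl
    rw [h2, hr, split_up d r (fun y => if St.E = cd d y then (R y : ℤ) else 0),
      split_dn d r (fun y => if St.E = cd d y then (L y : ℤ) else 0), ← t0, ← t3]
    have c0 : cd d 0 = St.E := by unfold cd; rw [if_pos (by omega)]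
    have cb : cd d (d + 1 + r) = St.W := by unfold cd; rw [if_neg (by omega)]
    have s1 : ∑ y ∈ range d, (if St.E = cd d (y + 1) then (R (y + 1) : ℤ) else 0) =
        ∑ y ∈ range d, (R (y + 1) : ℤ) := by
      apply sum_congr rfl
      intro y hy
      rw [mem_range] at hy
      have : cd d (y + 1) = St.E := by unfold cd; rw [if_pos (by omega)]
      rw [this]; simp
    have s2 : ∑ y ∈ range d, (if St.E = cd d (y + 1) then (L (y + 1) : ℤ) else 0) =
        ∑ y ∈ range d, (L (y + 1) : ℤ) := by
      apply sum_congr rfl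
      intro y hy
      rw [mem_range] at hy
      have : cd d (y + 1) = St.E := by unfold cd; rw [if_pos (by omega)]
      rw [this]; simp
    have s3 : ∑ z ∈ range r, (if St.E = cd d (d + r - z) then (R (d + r - z) : ℤ) else 0) = 0 := by
      apply sum_eq_zero
      intro z hz
      rw [mem_range] at hz
      have : cd d (d + r - z) = St.W := by unfold cd; rw [if_neg (by omega)]
      rw [this]; simp
    have s4 : ∑ z ∈ range r, (if St.E = cd d (d + r - z) then (L (d + r - z) : ℤ) else 0) = 0 := by
      apply sum_eq_zero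
      intro z hz
      rw [mem_range] at hz
      have : cd d (d + r - z) = St.W := by unfold cd; rw [if_neg (by omega)]
      rw [this]; simp
    rw [s1, s2, s3, s4, c0, cb]
    simp
    ring
  refine ⟨f, ?_, by omega, by omega⟩
  rw [hw]
  unfold wf
  have eR : up (cd d) R b = up (cd d) (Rf a b f) b := by
    apply up_congr
    intro y y1 y2
    unfold Rf
    by_cases h1 : y = b
    · rw [if_pos h1, h1]; omega
    · rw [if_neg h1]
      by_cases h2 : y ≤ d
      · rw [if_pos h2, x0 (y - 1) (by omega), Nat.sub_add_cancel y1]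
      · rw [if_neg h2, x1 (b - 1 - y) (by omega)]
        congr 1
        omega
  have eL : dn (cd d) L b = dn (cd d) (Lf a b f) b := by
    apply dn_congr
    intro y y1
    unfold Lf
    by_cases h1 : y = 0
    · rw [if_pos h1, h1]; omega
    · rw [if_neg h1]
      by_cases h2 : y ≤ d
      · rw [if_pos h2, x3 (y - 1) (by omega), Nat.sub_add_cancel (by omega)]
      · rw [if_neg h2, x2 (b - 1 - y) (by omega)]
        congr 1
        omega
  rw [eR, eL]

end Run7.h529.AL
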