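import Pool.Agent.Run7.h529.AL.An

/-!
The sum over all closed words of length `2 m` of `x ^ (deficit)` is `O(m)`.
-/

set_option autoImplicit false
set_option linter.unusedSimpArgs false
set_option linter.unusedVariables false

namespace Run7.h529.AL

open scoped ENNReal
open H982 (ind ind_of ind_not ind_le_one ind_mono ind_and tsum_cover tsum_mul_tsum')

lemma geo_le {x : ℝ} (h0 : 0 < x) (h1 : x < 1) (n : ℕ) :
    ∑ j ∈ Finset.range n, x ^ j ≤ 1 / (1 - x) := by
  rw [le_div_iff₀ (by linarith), mul_comm, mul_neg_geom_sum]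
  have := pow_pos h0 n
  linarith

lemma dist_le {a m : ℕ} (h : a ≤ m) :
    (a - m / 2) + (m / 2 - a) ≤ (m * m / 4 - a * (m - a)) + 1 := by
  have hq := quart h
  obtain ⟨b, rfl⟩ := Nat.exists_eq_add_of_le h
  rw [Nat.add_sub_cancel_left] at hq ⊢
  have h2 : (a + b) * (a + b) / 4 * 4 + (a + b) * (a + b) % 4 = (a + b) * (a + b) := by
    have := Nat.div_add_mod ((a + b) * (a + b)) 4
    omega
  have h3 : (a + b) * (a + b) % 4 < 4 := Nat.mod_lt _ (by norm_num)
  obtain ⟨Q, hQ⟩ : ∃ Q, Q = (a + b) * (a + b) / 4 := ⟨_, rfl⟩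
  obtain ⟨R, hR⟩ : ∃ R, R = (a + b) * (a + b) % 4 := ⟨_, rfl⟩
  rw [← hQ, ← hR] at h2
  rw [← hR] at h3
  rw [← hQ] at hq ⊢
  obtain ⟨P, hP⟩ : ∃ P, P = a * b := ⟨_, rfl⟩
  rw [← hP] at hq ⊢
  rcases Nat.le_total a b with hab | hab
  · obtain ⟨d, rfl⟩ := Nat.exists_eq_add_of_le hab
    -- m = 2 a + d, m / 2 - a = d / 2
    have e1 : (a + (a + d)) / 2 = a + d / 2 := by omega
    rw [e1]
    have e2 : 4 * Q + R = 4 * P + d * d := by
      rw [hP]; nlinarith
    have e3 : 2 * (d / 2) ≤ d := Nat.mul_div_le d 2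
    have e4 : d ≤ 2 * (d / 2) + 1 := by omega
    have e5 : 4 * (d / 2) ≤ d * d + 1 := by
      rcases Nat.lt_or_ge d 2 with hd | hd
      · interval_cases d <;> simp
      · nlinarith
    omega
  · obtain ⟨d, rfl⟩ := Nat.exists_eq_add_of_le hab
    have e1 : (b + d + b) / 2 = b + d / 2 := by omega
    rw [e1]
    have e2 : 4 * Q + R = 4 * P + d * d := by
      rw [hP]; nlinarith
    have e5 : 4 * (d - d / 2) ≤ d * d + 4 := by
      rcases Nat.lt_or_ge d 2 with hd | hd
      · interval_cases d <;> simp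
      · have : d - d / 2 ≤ d := Nat.sub_le _ _
        rcases Nat.lt_or_ge d 4 with hd4 | hd4
        · interval_cases d <;> simp
        · nlinarith
    omega

lemma sum_dist {x : ℝ} (h0 : 0 < x) (h1 : x < 1) (m : ℕ) :
    ∑ a ∈ Finset.range (m + 1), x ^ (m * m / 4 - a * (m - a)) ≤ 2 / (x * (1 - x)) := by
  have h2 : ∀ a ∈ Finset.range (m + 1), x ^ (m * m / 4 - a * (m - a)) ≤
      x ^ ((a - m / 2) + (m / 2 - a)) / x := by
    intro a ha
    rw [Finset.mem_range] at ha
    rw [le_div_iff₀ h0, ← pow_succ]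
    exact pow_le_pow_of_le_one h0.le h1.le (dist_le (by omega))
  refine (Finset.sum_le_sum h2).trans ?_
  have h4 : 0 < 1 - x := by linarith
  rw [← Finset.sum_div, div_le_div_iff₀ h0 (mul_pos h0 h4)]
  have h3 : ∑ a ∈ Finset.range (m + 1), x ^ ((a - m / 2) + (m / 2 - a)) ≤ 2 / (1 - x) := by
    obtain ⟨l, hl⟩ : ∃ l, l = m / 2 := ⟨_, rfl⟩
    rw [← hl]
    have e1 : m + 1 = l + (m + 1 - l) := by omega
    rw [e1, Finset.sum_range_add]
    have e2 : ∑ a ∈ Finset.range l, x ^ ((a - l) + (l - a)) ≤ 1 / (1 - x) := by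
      refine le_trans ?_ (geo_le h0 h1 l)
      rw [← Finset.sum_range_reflect]
      apply Finset.sum_le_sum
      intro j hj
      rw [Finset.mem_range] at hj
      exact pow_le_pow_of_le_one h0.le h1.le (by omega)
    have e3 : ∑ a ∈ Finset.range (m + 1 - l), x ^ ((l + a - l) + (l - (l + a))) ≤ 1 / (1 - x) := by
      refine le_trans ?_ (geo_le h0 h1 (m + 1 - l))
      apply Finset.sum_le_sum
      intro j hj
      exact pow_le_pow_of_le_one h0.le h1.le (by omega)
    have e4 : 2 / (1 - x) = 1 / (1 - x) + 1 / (1 - x) := by ring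
    rw [e4]
    linarith
  rw [le_div_iff₀ h4] at h3
  nlinarith

lemma far_le {a b k : ℕ} (hk : 32 * k ≤ a + b) (h : 8 * a < a + b ∨ 8 * b < a + b) :
    2 * k * k ≤ (a + b) * (a + b) / 4 - a * b := by
  have h1 : 64 * (a * b) ≤ 7 * ((a + b) * (a + b)) := by
    rcases h with h | h
    · have h' : 7 * a ≤ b := by omega
      obtain ⟨c, rfl⟩ := Nat.exists_eq_add_of_le h'
      nlinarith [Nat.zero_le (a * c), Nat.zero_le (c * c), Nat.zero_le (a * a)]
    · have h' : 7 * b ≤ a := by omega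
      obtain ⟨c, rfl⟩ := Nat.exists_eq_add_of_le h'
      nlinarith [Nat.zero_le (b * c), Nat.zero_le (c * c), Nat.zero_le (b * b)]
  have h2 : 1024 * (k * k) ≤ (a + b) * (a + b) := by
    calc 1024 * (k * k) = (32 * k) * (32 * k) := by ring
      _ ≤ _ := Nat.mul_le_mul hk hk
  apply Nat.le_sub_of_add_le
  rw [Nat.le_div_iff_mul_le (by norm_num)]
  have e : 2 * k * k = 2 * (k * k) := by ring
  rw [e]
  omega

lemma DD_big {x : ℝ} (h0 : 0 < x) (h1 : x < 1) {m : ℕ} (hk : Big x (m / 32)) :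
    DD x m ≤ ENNReal.ofReal ((24 * m * K1 x + 1) * (2 / (x * (1 - x))) + (m + 1)) := by
  have hx1 : ENNReal.ofReal x ≤ 1 := by
    rw [← ENNReal.ofReal_one]; exact ENNReal.ofReal_le_ofReal h1.le
  have hK := K1_pos x
  obtain ⟨k, hkdef⟩ : ∃ k, k = m / 32 := ⟨_, rfl⟩
  rw [← hkdef] at hk
  have hk1 : 32 * k ≤ m := by omega
  have hk2 : m < 32 * (k + 1) := by omega
  have key : ∀ a ∈ Finset.range (m + 1), ENNReal.ofReal x ^ (m * m / 4 - a * (m - a)) *
      D (ENNReal.ofReal x) a (m - a) ≤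
      ENNReal.ofReal ((24 * m * K1 x + 1) * x ^ (m * m / 4 - a * (m - a)) + 1) := by
    intro a ha
    rw [Finset.mem_range] at ha
    obtain ⟨b, hb⟩ := Nat.exists_eq_add_of_le (show a ≤ m by omega)
    have e1 : m - a = b := by omega
    rw [e1, ← ENNReal.ofReal_pow h0.le]
    by_cases hc : a + b ≤ 8 * a ∧ a + b ≤ 8 * b
    · have h2 := D_central h0 h1 (a := a) (b := b) hk (by omega) (by omega) hc.1 hc.2
      rw [← hb] at h2
      calc _ ≤ ENNReal.ofReal (x ^ (m * m / 4 - a * b)) *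
            ENNReal.ofReal (24 * m * K1 x + 1) := by gcongr
        _ = ENNReal.ofReal (x ^ (m * m / 4 - a * b) * (24 * m * K1 x + 1)) := by
            rw [← ENNReal.ofReal_mul (by positivity)]
        _ ≤ _ := by
            apply ENNReal.ofReal_le_ofReal
            rw [mul_comm]
            linarith
    · have h2 : 2 * k * k ≤ m * m / 4 - a * b := by
        have := far_le (a := a) (b := b) (k := k) (by omega) (by
          by_contra h'
          rw [not_or, not_lt, not_lt] at h'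
          exact hc h')
        rwa [← hb] at this
      calc _ ≤ ENNReal.ofReal (x ^ (2 * k * k)) * (16 : ℝ≥0∞) ^ (a + b) := by
            refine mul_le_mul' (ENNReal.ofReal_le_ofReal
              (pow_le_pow_of_le_one h0.le h1.le h2)) (D_le hx1 a b)
        _ = ENNReal.ofReal (16 ^ m * x ^ (2 * k * k)) := by
            rw [← hb, ENNReal.ofReal_mul (by positivity), mul_comm,
              ENNReal.ofReal_pow (p := (16 : ℝ)) (by norm_num)]
            norm_num
        _ ≤ ENNReal.ofReal 1 := ENNReal.ofReal_le_ofReal (pow_big h0 hk hk2)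
        _ ≤ _ := by
            apply ENNReal.ofReal_le_ofReal
            have : 0 ≤ (24 * m * K1 x + 1) * x ^ (m * m / 4 - a * b) := by positivity
            linarith
  refine (Finset.sum_le_sum key).trans ?_
  rw [← ENNReal.ofReal_sum_of_nonneg (fun a _ => by positivity)]
  apply ENNReal.ofReal_le_ofReal
  rw [Finset.sum_add_distrib, ← Finset.mul_sum]
  have h3 := sum_dist h0 h1 m
  have h4 : ∑ _a ∈ Finset.range (m + 1), (1 : ℝ) = m + 1 := by simp
  rw [h4]
  have h5 : 0 ≤ 24 * m * K1 x + 1 := by positivity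
  have := mul_le_mul_of_nonneg_left h3 h5
  linarith

/-- **Closed words.** -/
theorem DD_bound {x : ℝ} (h0 : 0 < x) (h1 : x < 1) :
    ∃ C : ℝ, 0 < C ∧ ∀ m : ℕ, 1 ≤ m → DD x m ≤ ENNReal.ofReal (C * m) := by
  obtain ⟨k0, hk0⟩ := big_ev h0 h1
  have hK := K1_pos x
  have h1x : 0 < 1 - x := by linarith
  obtain ⟨M, hM⟩ : ∃ M, M = 32 * k0 := ⟨_, rfl⟩
  refine ⟨(24 * K1 x + 1) * (2 / (x * (1 - x))) + 2 + (M + 1) * 16 ^ M, by positivity,
    fun m hm => ?_⟩
  have hmr : (1 : ℝ) ≤ m := by exact_mod_cast hm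
  have hx1 : ENNReal.ofReal x ≤ 1 := by
    rw [← ENNReal.ofReal_one]; exact ENNReal.ofReal_le_ofReal h1.le
  rcases Nat.lt_or_ge m M with hlt | hge
  · have h2 : DD x m ≤ ENNReal.ofReal ((M + 1) * 16 ^ M) := by
      calc DD x m ≤ ∑ _a ∈ Finset.range (m + 1), (16 : ℝ≥0∞) ^ M := by
            apply Finset.sum_le_sum
            intro a ha
            rw [Finset.mem_range] at ha
            calc _ ≤ 1 * (16 : ℝ≥0∞) ^ (a + (m - a)) :=
                  mul_le_mul' (pow_le_one' hx1 _) (D_le hx1 _ _)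
              _ ≤ _ := by
                  rw [one_mul]
                  exact pow_le_pow_right₀ (by norm_num) (by omega)
        _ = ENNReal.ofReal ((m + 1) * 16 ^ M) := by
            rw [Finset.sum_const, Finset.card_range, nsmul_eq_mul,
              ENNReal.ofReal_mul (by positivity), ENNReal.ofReal_pow (by norm_num)]
            congr 1
            · rw [← Nat.cast_succ, ENNReal.ofReal_natCast]
            · norm_num
        _ ≤ _ := by
            apply ENNReal.ofReal_le_ofReal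
            have : (m : ℝ) ≤ M := by exact_mod_cast hlt.le
            gcongr
    refine h2.trans (ENNReal.ofReal_le_ofReal ?_)
    have h3 : 0 ≤ (24 * K1 x + 1) * (2 / (x * (1 - x))) + 2 := by positivity
    have h4 : 0 ≤ ((M : ℝ) + 1) * 16 ^ M := by positivity
    nlinarith
  · have hk := hk0 (m / 32) (by omega)
    refine (DD_big h0 h1 hk).trans (ENNReal.ofReal_le_ofReal ?_)
    have h3 : 0 ≤ 2 / (x * (1 - x)) := by positivity
    have h4 : (24 * m * K1 x + 1) ≤ (24 * K1 x + 1) * m := by nlinarith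
    have h5 := mul_le_mul_of_nonneg_right h4 h3
    have h6 : 0 ≤ ((M : ℝ) + 1) * 16 ^ M * m := by positivity
    nlinarith

end Run7.h529.AL
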