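import Pool.Agent.H982R3.Sums

/-!
Words of steps of `ℤ²`, the area functional, the removal of a pair of vertical steps.
-/

set_option autoImplicit false

namespace Run7.h529.AL

/-- steps -/
inductive St
  | E | W | N | S
  deriving DecidableEq, Fintype

namespace St
/-- horizontal part -/
def dx : St → ℤ
  | E => 1
  | W => -1
  | N => 0
  | S => 0
/-- vertical part -/
def dy : St → ℤ
  | E => 0
  | W => 0
  | N => 1
  | S => -1
end St

/-- horizontal displacement -/
def X (w : List St) : ℤ := (w.map St.dx).sum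
/-- vertical displacement -/
def Y (w : List St) : ℤ := (w.map St.dy).sum

@[simp] lemma X_nil : X [] = 0 := rfl
@[simp] lemma Y_nil : Y [] = 0 := rfl
@[simp] lemma X_cons (s : St) (w : List St) : X (s :: w) = s.dx + X w := by simp [X]
@[simp] lemma Y_cons (s : St) (w : List St) : Y (s :: w) = s.dy + Y w := by simp [Y]
@[simp] lemma X_append (u v : List St) : X (u ++ v) = X u + X v := by simp [X]
@[simp] lemma Y_append (u v : List St) : Y (u ++ v) = Y u + Y v := by simp [Y]

lemma X_eq (w : List St) : X w = w.count St.E - w.count St.W := by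
  induction w with
  | nil => simp
  | cons s w ih => cases s <;> simp [ih, St.dx, List.count_cons] <;> ring

lemma Y_eq (w : List St) : Y w = w.count St.N - w.count St.S := by
  induction w with
  | nil => simp
  | cons s w ih => cases s <;> simp [ih, St.dy, List.count_cons] <;> ring

/-- minus the sum of height times horizontal step -/
def A : ℤ → List St → ℤ
  | _, [] => 0
  | y, s :: w => -(s.dx * y) + A (y + s.dy) w

@[simp] lemma A_nil (y : ℤ) : A y [] = 0 := rfl
@[simp] lemma A_cons (y : ℤ) (s : St) (w : List St) :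
    A y (s :: w) = -(s.dx * y) + A (y + s.dy) w := rfl

lemma A_append (y : ℤ) (u v : List St) : A y (u ++ v) = A y u + A (y + Y u) v := by
  induction u generalizing y with
  | nil => simp
  | cons s u ih => simp [ih, add_assoc]

lemma A_shift (y c : ℤ) (w : List St) : A (y + c) w = A y w - c * X w := by
  induction w generalizing y with
  | nil => simp
  | cons s w ih =>
    rw [A_cons, A_cons, X_cons, show y + c + s.dy = y + s.dy + c by ring, ih]
    ring

/-- the word has `a` letters `E`, `a` letters `W`, `b` letters `N` and `b` letters `S` -/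
def Cl (a b : ℕ) (w : List St) : Prop :=
  w.count St.E = a ∧ w.count St.W = a ∧ w.count St.N = b ∧ w.count St.S = b

lemma Cl.X {a b : ℕ} {w : List St} (h : Cl a b w) : X w = 0 := by
  rw [X_eq, h.1, h.2.1]; ring

lemma Cl.Y {a b : ℕ} {w : List St} (h : Cl a b w) : Y w = 0 := by
  rw [Y_eq, h.2.2.1, h.2.2.2]; ring

lemma count_sum (w : List St) :
    w.count St.E + w.count St.W + w.count St.N + w.count St.S = w.length := by
  induction w with
  | nil => simp
  | cons s w ih => cases s <;> simp [List.count_cons] <;> omega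

lemma Cl.length {a b : ℕ} {w : List St} (h : Cl a b w) : w.length = 2 * (a + b) := by
  have := count_sum w
  obtain ⟨h1, h2, h3, h4⟩ := h
  omega

/-- closed words have the same area for all rotations -/
lemma A_rotate {u v : List St} (hX : X (u ++ v) = 0) (hY : Y (u ++ v) = 0) :
    A 0 (v ++ u) = A 0 (u ++ v) := by
  rw [X_append] at hX
  rw [Y_append] at hY
  rw [A_append, A_append, A_shift 0 (Y v) u, A_shift 0 (Y u) v]
  have h1 : X v = - X u := by linarith
  have h2 : Y v = - Y u := by linarith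
  rw [h1, h2]; ring

lemma A_base {w : List St} (hX : X w = 0) (y : ℤ) : A y w = A 0 w := by
  have := A_shift 0 y w
  rw [zero_add, hX] at this
  simpa using this

/-- removing a closed piece -/
lemma A_cut {u v w : List St} (hX : X v = 0) (hY : Y v = 0) :
    A 0 (u ++ v ++ w) = A 0 (u ++ w) + A 0 v := by
  rw [A_append, A_append, A_append, Y_append, hY, add_zero, A_base hX]
  ring

/-- removing two vertical steps -/
lemma A_pair (y : ℤ) (s t : St) (hs : s.dx = 0) (ht : t.dx = 0) (hst : s.dy + t.dy = 0)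
    (u v w : List St) :
    A y (u ++ s :: (v ++ t :: w)) = A y (u ++ (v ++ w)) - s.dy * X v := by
  have h1 : ∀ z : ℤ, A z (s :: (v ++ t :: w)) = A z (v ++ w) - s.dy * X v := by
    intro z
    rw [A_cons, A_append, A_cons, A_append, hs, ht, A_shift z s.dy v,
      show z + s.dy + Y v + t.dy = z + Y v by linarith]
    ring
  rw [A_append, A_append y u, h1]
  ring

/-- lowest height -/
def mn : ℤ → List St → ℤ
  | y, [] => y
  | y, s :: w => min y (mn (y + s.dy) w)

/-- highest height -/
def mx : ℤ → List St → ℤ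
  | y, [] => y
  | y, s :: w => max y (mx (y + s.dy) w)

lemma mn_ge (y : ℤ) (w : List St) : y - w.count St.S ≤ mn y w := by
  induction w generalizing y with
  | nil => simp [mn]
  | cons s w ih =>
    have := ih (y + s.dy)
    simp only [mn, le_min_iff]
    cases s <;> simp [St.dy, List.count_cons] at this ⊢ <;> omega

lemma mx_le (y : ℤ) (w : List St) : mx y w ≤ y + w.count St.N := by
  induction w generalizing y with
  | nil => simp [mx]
  | cons s w ih =>
    have := ih (y + s.dy)
    simp only [mx, max_le_iff]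
    cases s <;> simp [St.dy, List.count_cons] at this ⊢ <;> omega

lemma mx_sub_mn (y : ℤ) (w : List St) :
    mx y w - mn y w ≤ max (w.count St.N : ℤ) (w.count St.S) := by
  induction w generalizing y with
  | nil => simp [mx, mn]
  | cons s w ih =>
    have h1 := ih (y + s.dy)
    have h2 := mn_ge (y + s.dy) w
    have h3 := mx_le (y + s.dy) w
    simp only [mx, mn]
    cases s <;> simp [St.dy, List.count_cons] at h1 h2 h3 ⊢ <;> omega

lemma A_le_mx (y : ℤ) (w : List St) :
    A y w ≤ w.count St.W * mx y w - w.count St.E * mn y w := by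
  induction w generalizing y with
  | nil => simp [A]
  | cons s w ih =>
    have h1 := ih (y + s.dy)
    have h2 : mx (y + s.dy) w ≤ mx y (s :: w) := le_max_right _ _
    have h3 : y ≤ mx y (s :: w) := le_max_left _ _
    have h4 : mn y (s :: w) ≤ mn (y + s.dy) w := min_le_right _ _
    have h5 : mn y (s :: w) ≤ y := min_le_left _ _
    have e0 : (0 : ℤ) ≤ w.count St.W := Int.natCast_nonneg _
    have e1 : (0 : ℤ) ≤ w.count St.E := Int.natCast_nonneg _
    have h6 := mul_le_mul_of_nonneg_left h2 e0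
    have h7 := mul_le_mul_of_nonneg_left h4 e1
    rw [A_cons]
    generalize hM : mx y (s :: w) = M at *
    generalize hL : mn y (s :: w) = L at *
    cases s <;> simp [St.dx, St.dy, List.count_cons] at * <;> nlinarith

/-- **the isoperimetric inequality for closed words** -/
theorem A_le {a b : ℕ} {w : List St} (h : Cl a b w) : A 0 w ≤ a * b := by
  have h1 := A_le_mx 0 w
  have h2 := mx_sub_mn 0 w
  rw [h.2.2.1, h.2.2.2, max_self] at h2
  rw [h.1, h.2.1] at h1
  have h3 : (0 : ℤ) ≤ a := Int.natCast_nonneg _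
  nlinarith

/-- swapping `N` and `S` -/
def fl : St → St
  | St.N => St.S
  | St.S => St.N
  | St.E => St.E
  | St.W => St.W

lemma fl_fl (s : St) : fl (fl s) = s := by cases s <;> rfl

lemma count_fl (w : List St) : (w.map fl).count St.E = w.count St.E ∧
    (w.map fl).count St.W = w.count St.W ∧ (w.map fl).count St.N = w.count St.S ∧
    (w.map fl).count St.S = w.count St.N := by
  induction w with
  | nil => simp
  | cons s w ih => cases s <;> simp [fl, List.count_cons, ih]

lemma A_fl (y : ℤ) (w : List St) : A (-y) (w.map fl) = - A y w := by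
  induction w generalizing y with
  | nil => simp
  | cons s w ih =>
    rw [List.map_cons, A_cons, A_cons]
    have h1 : (fl s).dx = s.dx := by cases s <;> rfl
    have h2 : (fl s).dy = - s.dy := by cases s <;> rfl
    rw [h1, h2, show -y + -s.dy = -(y + s.dy) by ring, ih]
    ring

lemma Cl.fl {a b : ℕ} {w : List St} (h : Cl a b w) : Cl a b (w.map fl) := by
  obtain ⟨h1, h2, h3, h4⟩ := count_fl w
  exact ⟨h1.trans h.1, h2.trans h.2.1, h3.trans h.2.2.2, h4.trans h.2.2.1⟩

theorem neg_A_le {a b : ℕ} {w : List St} (h : Cl a b w) : - A 0 w ≤ a * b := by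
  have := A_le h.fl
  have h2 := A_fl 0 w
  rw [neg_zero] at h2
  rwa [h2] at this

/-! ### Patterns -/

/-- `s = N`, `t = S` or the other way round -/
def VP (s t : St) : Prop := (s = St.N ∧ t = St.S) ∨ (s = St.S ∧ t = St.N)

/-- the word can be shortened -/
def Red (a : ℕ) (w : List St) : Prop :=
  ∃ s t u v z, VP s t ∧ w = u ++ s :: (v ++ t :: z) ∧
    2 * A 0 w ≤ 2 * A 0 (u ++ (v ++ z)) + a

lemma red_of_pattern {a b : ℕ} {w : List St} (h : Cl a b w) {s t : St} (hst : VP s t)
    {z0 z1 z2 z3 z4 : List St}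
    (hw : w = z0 ++ s :: (z1 ++ t :: (z2 ++ s :: (z3 ++ t :: z4)))) : Red a w := by
  have hs : s.dx = 0 := by rcases hst with ⟨rfl, rfl⟩ | ⟨rfl, rfl⟩ <;> rfl
  have ht : t.dx = 0 := by rcases hst with ⟨rfl, rfl⟩ | ⟨rfl, rfl⟩ <;> rfl
  have hd : s.dy + t.dy = 0 := by rcases hst with ⟨rfl, rfl⟩ | ⟨rfl, rfl⟩ <;> rfl
  have h1 := A_pair 0 s t hs ht hd z0 z1 (z2 ++ s :: (z3 ++ t :: z4))
  have h2 := A_pair 0 s t hs ht hd (z0 ++ s :: (z1 ++ t :: z2)) z3 z4
  have hw' : w = (z0 ++ s :: (z1 ++ t :: z2)) ++ s :: (z3 ++ t :: z4) := by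
    rw [hw]; simp
  rw [← hw] at h1
  rw [← hw'] at h2
  have key : - (s.dy * X z1) + - (s.dy * X z3) ≤ a := by
    have e1 := h.1
    have e2 := h.2.1
    rw [hw] at e1 e2
    simp only [List.count_append, List.count_cons] at e1 e2
    rw [X_eq, X_eq]
    rcases hst with ⟨rfl, rfl⟩ | ⟨rfl, rfl⟩
    · simp [St.dy] at e1 e2 ⊢
      omega
    · simp [St.dy] at e1 e2 ⊢
      omega
  rcases le_total (-(s.dy * X z1)) (-(s.dy * X z3)) with hle | hle
  · exact ⟨s, t, z0, z1, _, hst, hw, by rw [h1]; linarith⟩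
  · exact ⟨s, t, _, z3, z4, hst, hw', by rw [h2]; linarith⟩

/-- decomposition at the first letter outside a class -/
lemma span_split (p : St → Prop) (w : List St) : ∃ u v, w = u ++ v ∧ (∀ s ∈ u, p s) ∧
    (v = [] ∨ ∃ s v', v = s :: v' ∧ ¬ p s) := by
  induction w with
  | nil => exact ⟨[], [], rfl, by simp, Or.inl rfl⟩
  | cons s w ih =>
    by_cases hs : p s
    · obtain ⟨u, v, h1, h2, h3⟩ := ih
      refine ⟨s :: u, v, by simp [h1], ?_, h3⟩
      intro t ht
      rcases List.mem_cons.mp ht with rfl | ht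
      · exact hs
      · exact h2 t ht
    · exact ⟨[], s :: w, rfl, by simp, Or.inr ⟨s, w, rfl, hs⟩⟩

/-- cyclically sorted: some rotation is a word without `S` followed by a word without `N` -/
def Srt (w : List St) : Prop :=
  ∃ u v P Q, w = u ++ v ∧ v ++ u = P ++ Q ∧ St.S ∉ P ∧ St.N ∉ Q

lemma srt_or_red {a b : ℕ} {w : List St} (h : Cl a b w) : Srt w ∨ Red a w := by
  obtain ⟨A0, r0, e0, a0, c0⟩ := span_split (fun s => s ≠ St.S) w
  have a0' : St.S ∉ A0 := fun h => a0 _ h rfl
  rcases c0 with rfl | ⟨s, r0', rfl, hs⟩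
  · left
    exact ⟨A0, [], A0, [], by simpa using e0, by simp, a0', by simp⟩
  have hs' : s = St.S := by by_contra h'; exact hs h'
  subst hs'
  obtain ⟨A1, r1, e1, a1, c1⟩ := span_split (fun s => s ≠ St.N) r0'
  have a1' : St.N ∉ A1 := fun h => a1 _ h rfl
  rcases c1 with rfl | ⟨s, r1', rfl, hs⟩
  · left
    refine ⟨w, [], A0, St.S :: A1, by simp, ?_, a0', ?_⟩
    · rw [List.nil_append, e0, e1]; simp
    · simp [a1']
  have hs' : s = St.N := by by_contra h'; exact hs h'
  subst hs'
  obtain ⟨A2, r2, e2, a2, c2⟩ := span_split (fun s => s ≠ St.S) r1'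
  have a2' : St.S ∉ A2 := fun h => a2 _ h rfl
  rcases c2 with rfl | ⟨s, r2', rfl, hs⟩
  · left
    refine ⟨A0 ++ St.S :: A1, St.N :: A2, (St.N :: A2) ++ A0, St.S :: A1, ?_, ?_, ?_, ?_⟩
    · rw [e0, e1, e2]; simp
    · simp
    · simp [a2', a0']
    · simp [a1']
  have hs' : s = St.S := by by_contra h'; exact hs h'
  subst hs'
  obtain ⟨A3, r3, e3, a3, c3⟩ := span_split (fun s => s ≠ St.N) r2'
  have a3' : St.N ∉ A3 := fun h => a3 _ h rfl
  rcases c3 with rfl | ⟨s, r3', rfl, hs⟩
  · by_cases hN : St.N ∈ A0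
    · right
      obtain ⟨z0, z1, rfl⟩ := List.append_of_mem hN
      refine red_of_pattern h (s := St.N) (t := St.S) (Or.inl ⟨rfl, rfl⟩) (z0 := z0) (z1 := z1)
        (z2 := A1) (z3 := A2) (z4 := A3) ?_
      rw [e0, e1, e2, e3]; simp
    · left
      refine ⟨A0 ++ St.S :: A1, (St.N :: A2) ++ (St.S :: A3), St.N :: A2,
        (St.S :: A3) ++ A0 ++ St.S :: A1, ?_, ?_, ?_, ?_⟩
      · rw [e0, e1, e2, e3]; simp
      · simp
      · simp [a2']
      · simp [a3', a1', hN]
  · have hs' : s = St.N := by by_contra h'; exact hs h'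
    subst hs'
    right
    refine red_of_pattern h (s := St.S) (t := St.N) (Or.inr ⟨rfl, rfl⟩) (z0 := A0) (z1 := A1)
      (z2 := A2) (z3 := A3) (z4 := r3') ?_
    rw [e0, e1, e2, e3]

/-- the last occurrence of a letter -/
lemma last_split {s : St} {w : List St} (h : s ∈ w) : ∃ u v, w = u ++ s :: v ∧ s ∉ v := by
  induction w with
  | nil => simp at h
  | cons t w ih =>
    by_cases hs : s ∈ w
    · obtain ⟨u, v, h1, h2⟩ := ih hs
      exact ⟨t :: u, v, by simp [h1], h2⟩
    · rcases List.mem_cons.mp h with rfl | h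
      · exact ⟨[], w, rfl, hs⟩
      · exact absurd h hs

lemma first_split {s : St} {w : List St} (h : s ∈ w) : ∃ u v, w = u ++ s :: v ∧ s ∉ u := by
  induction w with
  | nil => simp at h
  | cons t w ih =>
    by_cases hs : s = t
    · exact ⟨[], w, by simp [hs], by simp⟩
    · rcases List.mem_cons.mp h with rfl | h
      · exact absurd rfl hs
      · obtain ⟨u, v, h1, h2⟩ := ih h
        refine ⟨t :: u, v, by simp [h1], ?_⟩
        simp [h2, hs]

/-- canonical rotation of a cyclically sorted word -/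
lemma srt_can {a b : ℕ} (hb : 1 ≤ b) {w : List St} (h : Cl a b w) (hs : Srt w) :
    ∃ u v P Q, w = u ++ v ∧ v ++ u = P ++ St.N :: (Q ++ [St.S]) ∧ St.S ∉ P ∧ St.N ∉ Q := by
  obtain ⟨u, v, P, Q, h1, h2, h3, h4⟩ := hs
  have hc : ∀ s, w.count s = P.count s + Q.count s := by
    intro s
    rw [h1, List.count_append, add_comm, ← List.count_append, h2, List.count_append]
  have hN : St.N ∈ P := by
    rw [← List.count_pos_iff]
    have := hc St.N
    rw [h.2.2.1, List.count_eq_zero_of_not_mem h4] at this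
    omega
  have hS : St.S ∈ Q := by
    rw [← List.count_pos_iff]
    have := hc St.S
    rw [h.2.2.2, List.count_eq_zero_of_not_mem h3] at this
    omega
  obtain ⟨P1, P2, rfl, hP⟩ := last_split hN
  obtain ⟨Q1, Q2, rfl, hQ⟩ := last_split hS
  simp only [List.mem_append, List.mem_cons, not_or] at h3 h4
  -- the rotation v ++ u = (P1 ++ N :: P2) ++ (Q1 ++ S :: Q2), move Q2 to the front
  have hR : v ++ u = (P1 ++ St.N :: (P2 ++ Q1) ++ [St.S]) ++ Q2 := by rw [h2]; simp
  -- w is a rotation of Q2 ++ (P1 ++ N :: (P2 ++ Q1) ++ [S])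
  have key : ∀ (u v R1 R2 : List St), v ++ u = R1 ++ R2 →
      ∃ u' v', u ++ v = u' ++ v' ∧ v' ++ u' = R2 ++ R1 := by
    intro u v R1 R2 he
    rcases List.append_eq_append_iff.mp he with ⟨c, h5, h6⟩ | ⟨c, h5, h6⟩
    · -- R1 = v ++ c, u = c ++ R2
      refine ⟨c, R2 ++ v, by rw [h6]; simp, by rw [h5]; simp⟩
    · -- v = R1 ++ c, R2 = c ++ u
      refine ⟨u ++ R1, c, by rw [h5]; simp, by rw [h6]; simp⟩
  obtain ⟨u', v', h5, h6⟩ := key u v _ _ hR
  refine ⟨u', v', Q2 ++ P1, P2 ++ Q1, h1.trans h5, by rw [h6]; simp, ?_, ?_⟩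
  · simp only [List.mem_append, not_or]
    exact ⟨hQ, h3.1⟩
  · simp only [List.mem_append, not_or]
    exact ⟨hP, h4.1⟩

end Run7.h529.AL
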