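import Pool.Agent.Run7.h529.AL.Gr

/-!
Words and loops.
-/

set_option autoImplicit false
set_option linter.unusedSimpArgs false
set_option linter.unusedVariables false

namespace Run7.h529.AL

open Finset

/-- the step from `u` to `v` -/
def st (u v : ℤ × ℤ) : St :=
  if v.1 = u.1 + 1 then St.E else if v.1 = u.1 - 1 then St.W
    else if v.2 = u.2 + 1 then St.N else St.S

lemma st_dx {u v : ℤ × ℤ} (h : Adj u v) : (st u v).dx = v.1 - u.1 := by
  obtain ⟨a, b⟩ := u
  rcases h.cases with rfl | rfl | rfl | rfl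
  · simp [st, St.dx]
  · have : ¬ (a - 1 = a + 1) := by omega
    simp [st, St.dx, this]
  · have h1 : ¬ (a = a + 1) := by omega
    have h2 : ¬ (a = a - 1) := by omega
    simp [st, St.dx, h1, h2]
  · have h1 : ¬ (a = a + 1) := by omega
    have h2 : ¬ (a = a - 1) := by omega
    have h3 : ¬ (b - 1 = b + 1) := by omega
    simp [st, St.dx, h1, h2, h3]

lemma st_dy {u v : ℤ × ℤ} (h : Adj u v) : (st u v).dy = v.2 - u.2 := by
  obtain ⟨a, b⟩ := u
  rcases h.cases with rfl | rfl | rfl | rfl
  · simp [st, St.dy]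
  · have : ¬ (a - 1 = a + 1) := by omega
    simp [st, St.dy, this]
  · have h1 : ¬ (a = a + 1) := by omega
    have h2 : ¬ (a = a - 1) := by omega
    simp [st, St.dy, h1, h2]
  · have h1 : ¬ (a = a + 1) := by omega
    have h2 : ¬ (a = a - 1) := by omega
    have h3 : ¬ (b - 1 = b + 1) := by omega
    simp [st, St.dy, h1, h2, h3]

lemma st_eq {u v : ℤ × ℤ} {s : St} (h1 : v.1 = u.1 + s.dx) (h2 : v.2 = u.2 + s.dy) :
    st u v = s := by
  obtain ⟨a, b⟩ := u
  obtain ⟨c, d⟩ := v
  dsimp only at h1 h2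
  subst h1 h2
  unfold st
  cases s <;> simp [St.dx, St.dy] <;> omega

/-- the word of the first `n` steps -/
def wd (n : ℕ) (ω : ℕ → ℤ × ℤ) : List St := (List.range n).map (fun k => st (ω k) (ω (k + 1)))

lemma wd_succ (n : ℕ) (ω : ℕ → ℤ × ℤ) : wd (n + 1) ω = wd n ω ++ [st (ω n) (ω (n + 1))] := by
  simp [wd, List.range_succ]

lemma wd_length (n : ℕ) (ω : ℕ → ℤ × ℤ) : (wd n ω).length = n := by simp [wd]

lemma X_wd {ω : ℕ → ℤ × ℤ} (h : ∀ i, Adj (ω i) (ω (i + 1))) (n : ℕ) :
    X (wd n ω) = (ω n).1 - (ω 0).1 := by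
  induction n with
  | zero => simp [wd]
  | succ n ih => rw [wd_succ, X_append, ih, X_cons, X_nil, st_dx (h n)]; ring

lemma Y_wd {ω : ℕ → ℤ × ℤ} (h : ∀ i, Adj (ω i) (ω (i + 1))) (n : ℕ) :
    Y (wd n ω) = (ω n).2 - (ω 0).2 := by
  induction n with
  | zero => simp [wd]
  | succ n ih => rw [wd_succ, Y_append, ih, Y_cons, Y_nil, st_dy (h n)]; ring

lemma A_wd {ω : ℕ → ℤ × ℤ} (h : ∀ i, Adj (ω i) (ω (i + 1))) (n : ℕ) :
    A 0 (wd n ω) = (ω 0).2 * ((ω n).1 - (ω 0).1) - grn n ω := by
  induction n with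
  | zero => simp [wd, grn]
  | succ n ih =>
    have e : grn (n + 1) ω = grn n ω + (ω n).2 * ((ω (n + 1)).1 - (ω n).1) := by
      unfold grn; rw [sum_range_succ]
    rw [wd_succ, A_append, ih, Y_wd h, A_cons, A_nil, st_dx (h n), e]
    ring

lemma area_wd {n : ℕ} {ω : ℕ → ℤ × ℤ} (h : IsLoop n ω) (hn : 3 ≤ n) :
    (area (edges n ω) : ℤ) = |A 0 (wd n ω)| := by
  have h0 : ω n = ω 0 := by have := h.per 0; rwa [zero_add] at this
  rw [area_eq h hn, A_wd h.adj, h0, sub_self, mul_zero, zero_sub, abs_neg]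

lemma cl_of {m : ℕ} {w : List St} (hl : w.length = 2 * m) (hX : X w = 0) (hY : Y w = 0) :
    ∃ a, a ≤ m ∧ Cl a (m - a) w := by
  rw [X_eq] at hX
  rw [Y_eq] at hY
  have h1 := count_sum w
  refine ⟨w.count St.E, by omega, rfl, by omega, by omega, by omega⟩

lemma cl_wd {m : ℕ} {ω : ℕ → ℤ × ℤ} (h : IsLoop (2 * m) ω) :
    ∃ a, a ≤ m ∧ Cl a (m - a) (wd (2 * m) ω) := by
  have h0 : ω (2 * m) = ω 0 := by have := h.per 0; rwa [zero_add] at this
  exact cl_of (wd_length _ _) (by rw [X_wd h.adj, h0, sub_self]) (by rw [Y_wd h.adj, h0, sub_self])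

lemma abs_A_le {a b : ℕ} {w : List St} (h : Cl a b w) : |A 0 w| ≤ a * b := by
  rw [abs_le]
  have := A_le h
  have := neg_A_le h
  constructor <;> linarith

/-- the isoperimetric inequality -/
theorem area_le {m : ℕ} (hm : 2 ≤ m) {ω : ℕ → ℤ × ℤ} (h : IsLoop (2 * m) ω) :
    area (edges (2 * m) ω) ≤ m * m / 4 := by
  obtain ⟨a, ha, hc⟩ := cl_wd h
  have h1 := area_wd h (by omega)
  have h2 := abs_A_le hc
  have h3 := quart ha
  rw [← h1] at h2
  have h4 : area (edges (2 * m) ω) ≤ a * (m - a) := by exact_mod_cast h2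
  omega

/-! ### Loops from words -/

/-- positions of a closed word -/
def ps (w : List St) (k : ℕ) : ℤ × ℤ :=
  (X (w.take (k % w.length)), Y (w.take (k % w.length)))

lemma ps_succ {w : List St} (hw : 0 < w.length) (hX : X w = 0) (hY : Y w = 0) (k : ℕ) :
    ∃ (hk : k % w.length < w.length), (ps w (k + 1)).1 = (ps w k).1 + (w[k % w.length]).dx ∧
      (ps w (k + 1)).2 = (ps w k).2 + (w[k % w.length]).dy := by
  have hk : k % w.length < w.length := Nat.mod_lt _ hw
  refine ⟨hk, ?_⟩
  have e1 : w.take (k % w.length + 1) = w.take (k % w.length) ++ [w[k % w.length]] := by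
    rw [List.take_succ_eq_append_getElem hk]
  have hX1 : X (w.take (k % w.length + 1)) = X (w.take (k % w.length)) + (w[k % w.length]).dx := by
    rw [e1, X_append, X_cons, X_nil, add_zero]
  have hY1 : Y (w.take (k % w.length + 1)) = Y (w.take (k % w.length)) + (w[k % w.length]).dy := by
    rw [e1, Y_append, Y_cons, Y_nil, add_zero]
  unfold ps
  dsimp only
  rw [← hX1, ← hY1]
  rcases Nat.lt_or_ge (k % w.length + 1) w.length with h | h
  · have e2 : (k + 1) % w.length = k % w.length + 1 := by
      rw [Nat.add_mod, Nat.mod_eq_of_lt (show 1 < w.length by omega), Nat.mod_eq_of_lt h]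
    rw [e2]
    exact ⟨rfl, rfl⟩
  · have e2 : (k + 1) % w.length = 0 := by
      have e3 : k % w.length + 1 = w.length := by omega
      rw [← Nat.mod_add_mod, e3, Nat.mod_self]
    have e4 : w.take (k % w.length + 1) = w := List.take_of_length_le h
    rw [e2, e4, hX, hY]
    simp

lemma adj_of_step {u v : ℤ × ℤ} {s : St} (h1 : v.1 = u.1 + s.dx) (h2 : v.2 = u.2 + s.dy) :
    Adj u v := by
  unfold Adj
  rw [h1, h2]
  cases s <;> simp [St.dx, St.dy]

/-- a closed word with the largest area has no closed proper piece -/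
lemma ps_loop {a b : ℕ} (ha : 1 ≤ a) (hb : 1 ≤ b) {w : List St} (h : Cl a b w)
    (hA : A 0 w = a * b) : IsLoop (2 * (a + b)) (ps w) := by
  have hl := h.length
  have hX := h.X
  have hY := h.Y
  have key : ∀ i j, i < j → j < w.length → X (w.take i) = X (w.take j) →
      Y (w.take i) = Y (w.take j) → False := by
    intro i j hij hj h1 h2
    obtain ⟨v, hv⟩ : ∃ v, v = (w.take j).drop i := ⟨_, rfl⟩
    have e1 : w.take j = w.take i ++ v := by
      rw [hv]
      conv_lhs => rw [← List.take_append_drop i (w.take j)]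
      rw [List.take_take, min_eq_left hij.le]
    have hXv : X v = 0 := by rw [e1, X_append] at h1; linarith
    have hYv : Y v = 0 := by rw [e1, Y_append] at h2; linarith
    have e2 : w = w.take i ++ v ++ w.drop j := by
      rw [← e1, List.take_append_drop]
    have hlv : v.length = j - i := by rw [hv]; simp; omega
    have hcut := A_cut (u := w.take i) (w := w.drop j) hXv hYv
    rw [← e2, hA] at hcut
    have hlr : (w.take i ++ w.drop j).length = w.length - (j - i) := by simp; omega
    have hXr : X (w.take i ++ w.drop j) = 0 := by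
      have : X w = X (w.take i ++ v ++ w.drop j) := by rw [← e2]
      rw [X_append, X_append, hXv, hX] at this
      rw [X_append]; linarith
    have hYr : Y (w.take i ++ w.drop j) = 0 := by
      have : Y w = Y (w.take i ++ v ++ w.drop j) := by rw [← e2]
      rw [Y_append, Y_append, hYv, hY] at this
      rw [Y_append]; linarith
    have hc : ∀ s, w.count s = (w.take i ++ w.drop j).count s + v.count s := by
      intro s
      conv_lhs => rw [e2]
      simp only [List.count_append]
      ring
    rw [X_eq] at hXv hXr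
    rw [Y_eq] at hYv hYr
    have hcv : Cl (v.count St.E) (v.count St.N) v := ⟨rfl, by omega, rfl, by omega⟩
    have hcr : Cl ((w.take i ++ w.drop j).count St.E) ((w.take i ++ w.drop j).count St.N)
      (w.take i ++ w.drop j) := ⟨rfl, by omega, rfl, by omega⟩
    have l1 := hcv.length
    have l2 := hcr.length
    have A1 := A_le hcv
    have A2 := A_le hcr
    have hE := hc St.E
    have hN := hc St.N
    rw [h.1] at hE
    rw [h.2.2.1] at hN
    generalize v.count St.E = a1 at *
    generalize v.count St.N = b1 at *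
    generalize (w.take i ++ w.drop j).count St.E = a2 at *
    generalize (w.take i ++ w.drop j).count St.N = b2 at *
    have h5 : (a : ℤ) * b ≤ a2 * b2 + a1 * b1 := by linarith
    have h6 : a * b ≤ a2 * b2 + a1 * b1 := by exact_mod_cast h5
    rw [hE, hN] at h6
    have h7 : a2 * b1 + a1 * b2 = 0 := by nlinarith
    have h8 : a2 * b1 = 0 := by omega
    have h9 : a1 * b2 = 0 := by omega
    rcases Nat.mul_eq_zero.mp h8 with h | h <;> rcases Nat.mul_eq_zero.mp h9 with h' | h' <;>
      omega
  constructor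
  · intro i
    unfold ps
    rw [← hl, Nat.add_mod_right]
  · intro i
    obtain ⟨_, h1, h2⟩ := ps_succ (by omega) hX hY i
    exact adj_of_step h1 h2
  · intro i j hi hj he
    rw [← hl] at hi hj
    unfold ps at he
    rw [Nat.mod_eq_of_lt hi, Nat.mod_eq_of_lt hj, Prod.mk.injEq] at he
    rcases lt_trichotomy i j with hij | hij | hij
    · exact (key i j hij hj he.1 he.2).elim
    · exact hij
    · exact (key j i hij hi he.1.symm he.2.symm).elim

lemma wd_ps {w : List St} (hw : 0 < w.length) (hX : X w = 0) (hY : Y w = 0) :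
    wd w.length (ps w) = w := by
  apply List.ext_getElem (wd_length _ _)
  intro k h1 h2
  obtain ⟨h3, h4, h5⟩ := ps_succ hw hX hY k
  have : (wd w.length (ps w))[k] = st (ps w k) (ps w (k + 1)) := by simp [wd]
  rw [this, st_eq h4 h5]
  congr 1
  exact Nat.mod_eq_of_lt h2

/-- the rectangle -/
def rect (a b : ℕ) : List St :=
  List.replicate a St.E ++ (List.replicate b St.N ++
    (List.replicate a St.W ++ List.replicate b St.S))

lemma rect_cl (a b : ℕ) : Cl a b (rect a b) := by
  refine ⟨?_, ?_, ?_, ?_⟩ <;> simp [rect, List.count_replicate]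

lemma A_rep (y : ℤ) (n : ℕ) (s : St) (hs : s.dy = 0) : A y (List.replicate n s) = -(n * (s.dx * y)) := by
  induction n with
  | zero => simp
  | succ n ih => rw [List.replicate_succ, A_cons, hs, add_zero, ih]; push_cast; ring

lemma A_rep' (y : ℤ) (n : ℕ) (s : St) (hs : s.dx = 0) : A y (List.replicate n s) = 0 := by
  induction n generalizing y with
  | zero => simp
  | succ n ih => rw [List.replicate_succ, A_cons, hs, ih]; ring

lemma Y_rep (n : ℕ) (s : St) : Y (List.replicate n s) = n * s.dy := by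
  induction n with
  | zero => simp
  | succ n ih => rw [List.replicate_succ, Y_cons, ih]; push_cast; ring

lemma rect_A (a b : ℕ) : A 0 (rect a b) = a * b := by
  unfold rect
  rw [A_append, A_append, A_append, A_rep _ _ _ rfl, A_rep' _ _ _ rfl, A_rep _ _ _ rfl,
    A_rep' _ _ _ rfl, Y_rep, Y_rep]
  simp [St.dx, St.dy]

end Run7.h529.AL
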